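import Pool.Agent.Helper71.QU.Glob

/-!
# QU: graphs of large girth have few edges
-/

open Set
open Pool.Agent.Helper83.OP

namespace Pool.Agent.Helper71.QU

theorem girth_bound {V : Type} [Finite V] (t : ℕ) (ht : 10 ^ t * Nat.card V < 11 ^ t) :
    ∀ (n : ℕ) (Γ : SimpleGraph V) (C : Set V), C.ncard = n → (∀ a b, Γ.Adj a b → a ∈ C) →
      (∀ (u : V) (Z : Γ.Walk u u), Z.IsCycle → 8 * t + 2 < Z.length) → C.Nonempty →
      10 * Γ.edgeSet.ncard + 10 ≤ 11 * C.ncard := by
  classical
  intro n
  induction n using Nat.strong_induction_on with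
  | _ n ih =>
    intro Γ C hn hC hno hne
    obtain ⟨K⟩ := exists_clus Γ C t
    have hK : K.Tidy := clus_tidy K (fun u Z hZ hl hub => by
      have := hno u Z hZ
      omega)
    obtain ⟨x, hx⟩ := hne
    obtain ⟨s, hs⟩ : ∃ s, s = K.ctr x := ⟨_, rfl⟩
    have hsC : s ∈ C := by rw [hs]; exact K.ctr_mem x hx
    have hss : K.ctr s = s := by rw [hs]; exact K.ctr_ctr x hx
    have hsd : K.d s = 0 := by rw [hs]; exact K.d_ctr x hx
    obtain ⟨S, hS⟩ : ∃ S : ℕ → Set V, ∀ i, S i = {v | v ∈ C ∧ K.ctr v = s ∧ K.d v ≤ i} :=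
      ⟨_, fun _ => rfl⟩
    have hS0 : 1 ≤ (S 0).ncard := by
      refine (Set.ncard_pos (Set.toFinite _)).mpr ⟨s, ?_⟩
      rw [hS]
      exact ⟨hsC, hss, hsd.le⟩
    have hex : ∃ i < t, 10 * (S (i + 1)).ncard ≤ 11 * (S i).ncard := by
      by_contra hcon
      push Not at hcon
      have key : ∀ i ≤ t, 11 ^ i ≤ 10 ^ i * (S i).ncard := by
        intro i
        induction i with
        | zero => intro _; simpa using hS0
        | succ i ihi =>
          intro hi
          have h1 := ihi (by omega)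
          have h2 := hcon i (by omega)
          calc 11 ^ (i + 1) = 11 * 11 ^ i := by ring
            _ ≤ 11 * (10 ^ i * (S i).ncard) := Nat.mul_le_mul_left _ h1
            _ = 10 ^ i * (11 * (S i).ncard) := by ring
            _ ≤ 10 ^ i * (10 * (S (i + 1)).ncard) := Nat.mul_le_mul_left _ h2.le
            _ = 10 ^ (i + 1) * (S (i + 1)).ncard := by ring
      have h1 := key t le_rfl
      have h2 : (S t).ncard ≤ Nat.card V := by
        rw [← Set.ncard_univ]
        exact Set.ncard_le_ncard (Set.subset_univ _) (Set.toFinite _)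
      have h3 : 10 ^ t * (S t).ncard ≤ 10 ^ t * Nat.card V := Nat.mul_le_mul_left _ h2
      omega
    obtain ⟨i, hi, hi2⟩ := hex
    -- the edges at `S i`
    have hed : {f | f ∈ Γ.edgeSet ∧ ∃ v ∈ f, v ∈ S i}.ncard + 1 ≤ (S (i + 1)).ncard := by
      have hsub : {f | f ∈ Γ.edgeSet ∧ ∃ v ∈ f, v ∈ S i} ⊆
          (fun c => s(c, K.par c)) '' (S (i + 1) \ {s}) := by
        rintro f ⟨hf, v, hvf, hv⟩
        obtain ⟨w, rfl⟩ := Sym2.mem_iff_exists.1 hvf
        rw [SimpleGraph.mem_edgeSet] at hf
        rw [hS] at hv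
        obtain ⟨hv1, hv2, hv3⟩ := hv
        have hw : w ∈ C := hC w v hf.symm
        have hwc : K.ctr w = K.ctr v := K.near v hv1 w hw hf (by omega)
        have hwd := K.lip v hv1 w hw hf
        rcases hK.tree v hv1 w hw hf hwc.symm with ⟨h1, h2⟩ | ⟨h1, h2⟩
        · refine ⟨v, ⟨?_, ?_⟩, ?_⟩
          · rw [hS]
            exact ⟨hv1, hv2, by omega⟩
          · rintro rfl
            exact h1 hsd
          · simp only [h2]
        · refine ⟨w, ⟨?_, ?_⟩, ?_⟩
          · rw [hS]
            exact ⟨hw, hwc.trans hv2, by omega⟩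
          · rintro rfl
            exact h1 hsd
          · simp only [h2]
            exact Sym2.eq_swap
      have h1 := (Set.ncard_le_ncard hsub (Set.toFinite _)).trans
        (Set.ncard_image_le (Set.toFinite _))
      have h2 : (S (i + 1) \ {s}).ncard + 1 = (S (i + 1)).ncard := by
        apply Set.ncard_sdiff_singleton_add_one _ (Set.toFinite _)
        rw [hS]
        exact ⟨hsC, hss, by omega⟩
      omega
    have hSC : S i ⊆ C := by
      rw [hS]
      exact fun v hv => hv.1
    have hSi : (S i).Nonempty := by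
      refine ⟨s, ?_⟩
      rw [hS]
      exact ⟨hsC, hss, by omega⟩
    have hcC : (C \ S i).ncard + (S i).ncard = C.ncard :=
      Set.ncard_sdiff_add_ncard_of_subset hSC (Set.toFinite _)
    have hSpos : 1 ≤ (S i).ncard := (Set.ncard_pos (Set.toFinite _)).mpr hSi
    -- the rest
    let Γ' : SimpleGraph V :=
      { Adj := fun a b => Γ.Adj a b ∧ a ∉ S i ∧ b ∉ S i
        symm := ⟨fun a b h => ⟨h.1.symm, h.2.2, h.2.1⟩⟩
        loopless := ⟨fun a h => h.1.ne rfl⟩ }
    have hle : Γ' ≤ Γ := fun a b h => h.1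
    have hsplit : Γ.edgeSet.ncard ≤ Γ'.edgeSet.ncard +
        {f | f ∈ Γ.edgeSet ∧ ∃ v ∈ f, v ∈ S i}.ncard := by
      refine (Set.ncard_le_ncard (t := Γ'.edgeSet ∪ {f | f ∈ Γ.edgeSet ∧ ∃ v ∈ f, v ∈ S i}) ?_
        (Set.toFinite _)).trans (Set.ncard_union_le _ _)
      intro f hf
      by_cases h : ∃ v ∈ f, v ∈ S i
      · exact Or.inr ⟨hf, h⟩
      · left
        push Not at h
        induction f using Sym2.ind with
        | _ a b => exact ⟨hf, h a (Sym2.mem_mk_left a b), h b (Sym2.mem_mk_right a b)⟩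
    rcases (C \ S i).eq_empty_or_nonempty with h0 | h0
    · have : Γ'.edgeSet.ncard = 0 := by
        rw [Set.ncard_eq_zero (Set.toFinite _)]
        apply Set.eq_empty_of_forall_notMem
        intro f hf
        induction f using Sym2.ind with
        | _ a b =>
          have hab : Γ'.Adj a b := hf
          have : a ∈ C \ S i := ⟨hC a b hab.1, hab.2.1⟩
          rw [h0] at this
          exact this
      omega
    · have := ih (C \ S i).ncard (by omega) Γ' (C \ S i) rfl
        (fun a b hab => ⟨hC a b hab.1, hab.2.1⟩)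
        (fun u Z hZ => by
          have := hno u (Z.mapLe hle) ((SimpleGraph.Walk.isCycle_mapLe _).2 hZ)
          rwa [SimpleGraph.Walk.length_map] at this) h0
      omega

end Pool.Agent.Helper71.QU
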