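import Pool.Agent.Helper71.QU.Fin

/-!
# QU: the bound `√Δ log Δ log n` and the bound `n^(1/3) log² n`
-/

open Set
open Pool.Agent.Helper83.OP Pool.Agent.Helper95.UP

namespace Pool.Agent.Helper71.QU

/-- threads have at least `r` edges -/
def ThrMin {V : Type} (G : SimpleGraph V) (r : ℕ) : Prop :=
  ∀ (u v : V) (p : G.Walk u v), p.IsPath → u ≠ v → 3 ≤ deg G u → 3 ≤ deg G v →
    (∀ x ∈ p.support, x ≠ u → x ≠ v → deg G x = 2) → r ≤ p.length

/-- a light cycle of edges of weight at most `s` -/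
theorem case_light {V : Type} [Finite V] (G H Hs : SimpleGraph V) (w' : Sym2 V → ℕ)
    (Ex : Sym2 V → Sym2 V → Prop) (hl : Lft G H w' Ex)
    (hcrit : ∀ e ∈ G.edgeSet, KPl 1 (G.deleteEdges {e})) (hle : Hs ≤ H) (s r D ρ K : ℕ)
    (hHs : ∀ f ∈ Hs.edgeSet, w' f ≤ s) (hr : ∀ f ∈ H.edgeSet, r ≤ w' f) (N : Set V)
    (hN : ∀ v ∈ N, deg G v ≤ D) (hno : ¬ NoLight Hs N ρ)
    (hK : 2 * ((8 * ρ + 3) * D + 2 * ((8 * ρ + 2) * s + 1) + 8 * ((8 * ρ + 2) * s)) ≤ K * r) :
    KPl (max 9 (2 * K)) G := by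
  classical
  unfold NoLight at hno
  push Not at hno
  obtain ⟨u, C, hC, hlen, hub, hD⟩ := hno
  obtain ⟨a, C', hC', hl', hsup, hhub⟩ : ∃ (a : V) (C' : Hs.Walk a a),
      C'.IsCycle ∧ C'.length ≤ 8 * ρ + 2 ∧ (∀ x, x ∈ C'.support → x ∈ C.support) ∧
      (hub ∈ C.support → a = hub) := by
    by_cases h : hub ∈ C.support
    · refine ⟨hub, C.rotate hub h, (SimpleGraph.Walk.isCycle_rotate h).2 hC, ?_, ?_, fun _ => rfl⟩
      · rw [SimpleGraph.Walk.length_rotate]; exact hlen
      · intro x hx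
        exact (SimpleGraph.Walk.mem_support_rotate_iff C hub h).1 hx
    · exact ⟨u, C, hC, hlen, fun x hx => hx, fun h' => absurd h' h⟩
  cases C' with
  | nil => exact absurd hC' SimpleGraph.Walk.not_isCycle_nil
  | @cons _ b _ h p =>
    rw [SimpleGraph.Walk.cons_isCycle_iff] at hC'
    obtain ⟨hp, hne⟩ := hC'
    have hab : H.Adj a b := hle h
    refine finish G H w' Ex hl hcrit hab.symm (p.mapLe hle) ?_ (8 * ρ + 2) D s K ?_ ?_ ?_ ?_
    · rw [SimpleGraph.Walk.edges_mapLe_eq_edges, Sym2.eq_swap]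
      exact hne
    · rw [SimpleGraph.Walk.length_map]
      simp only [SimpleGraph.Walk.length_cons] at hl'
      omega
    · intro f hf
      rw [SimpleGraph.Walk.edges_mapLe_eq_edges] at hf
      exact hHs f (SimpleGraph.Walk.edges_subset_edgeSet _ hf)
    · intro c hc h1 h2
      rw [SimpleGraph.Walk.support_mapLe_eq_support] at hc
      have hcC : c ∈ C.support := hsup c (by simp [hc])
      refine hN c (hD c hcC ?_)
      rintro rfl
      exact h2 (hhub hcC).symm
    · exact hK.trans (Nat.mul_le_mul_left _ (hr _ hab.symm))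

/-- a short closed walk through a long edge -/
theorem case_heavy {V : Type} [Finite V] (G H : SimpleGraph V) (w' : Sym2 V → ℕ)
    (Ex : Sym2 V → Sym2 V → Prop) (hl : Lft G H w' Ex)
    (hcrit : ∀ e ∈ G.edgeSet, KPl 1 (G.deleteEdges {e})) (s q D K : ℕ) {x y : V}
    (hxy : H.Adj x y) (hs : s < w' s(x, y)) (p : H.Walk x y) (hp : s(x, y) ∉ p.edges)
    (hq : p.length ≤ q) (hD : ∀ v, deg H v ≠ 0 → deg G v ≤ D)
    (hK : ∀ W, s < W → 2 * ((q + 1) * D + 2 * (q * W + 1) + 8 * (q * W)) ≤ K * W) :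
    KPl (max 9 (2 * K)) G := by
  obtain ⟨c, d, hcd, Q, a1, a2, a3, a4⟩ := heavy w' hxy p hp
  refine finish G H w' Ex hl hcrit hcd Q a1 q D (w' s(c, d)) K (a2.trans hq) a4 ?_
    (hK _ (lt_of_lt_of_le hs a3))
  intro z hz h1 h2
  refine hD z ?_
  have : Q.edges ≠ [] := by
    intro h
    have hl : Q.length = 0 := by rw [← SimpleGraph.Walk.length_edges, h]; rfl
    exact hcd.ne (SimpleGraph.Walk.eq_of_length_eq_zero hl)
  cases Q with
  | nil => exact absurd rfl this
  | @cons _ e _ h q' =>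
    have h3 : ∀ {u v : V} (P : H.Walk u v), u ≠ v → ∀ z ∈ P.support, deg H z ≠ 0 := by
      intro u v P
      induction P with
      | nil => intro h; exact absurd rfl h
      | @cons u w v h P ih =>
        intro _ z hz
        rw [SimpleGraph.Walk.support_cons, List.mem_cons] at hz
        rcases hz with rfl | hz
        · exact deg_pos h
        · by_cases hwv : w = v
          · subst hwv
            by_cases hzw : z = w
            · rw [hzw]; exact deg_pos h.symm
            · cases P with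
              | nil =>
                rw [SimpleGraph.Walk.support_nil, List.mem_singleton] at hz
                exact absurd hz hzw
              | @cons _ w2 _ h' P' =>
                have key : ∀ {u v : V} (P : H.Walk u v), ∀ z ∈ P.support, z ≠ v → deg H z ≠ 0 := by
                  intro u v P
                  induction P with
                  | nil =>
                    intro z hz hne
                    rw [SimpleGraph.Walk.support_nil, List.mem_singleton] at hz
                    exact absurd hz hne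
                  | @cons u w v h P ih =>
                    intro z hz hne
                    rw [SimpleGraph.Walk.support_cons, List.mem_cons] at hz
                    rcases hz with rfl | hz
                    · exact deg_pos h
                    · exact ih z hz hne
                exact key _ z hz hzw
          · exact ih hwv z hz
    exact h3 _ hcd.ne z hz

theorem rho_le (s x : ℕ) (hx : 1 ≤ x) (hs : s ≤ x) : rho s ≤ 22 * (Nat.log 2 x + 1) := by
  have h1 : Nat.log 2 (s + 1) ≤ Nat.log 2 x + 1 := by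
    have : Nat.log 2 (s + 1) < Nat.log 2 x + 2 := by
      apply Nat.log_lt_of_lt_pow (by omega)
      have h2 : x < 2 ^ (Nat.log 2 x + 1) := Nat.lt_pow_succ_log_self (by norm_num) _
      rw [pow_succ]
      omega
    omega
  unfold rho
  omega

theorem A0_le (s ρ : ℕ) (hs : 1 ≤ s) (hρ : 20 ≤ ρ) : A0 s ρ ≤ 100000 * (s * ρ) := by
  unfold A0
  have h1 : s ≤ s * ρ := Nat.le_mul_of_pos_right _ (by omega)
  have h2 : 6 * s * (2 * ρ + 1) = 12 * (s * ρ) + 6 * s := by ring
  have h3 : 2 * s * (4 * ρ + 1) = 8 * (s * ρ) + 2 * s := by ring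
  have h4 : 20 * s ≤ s * ρ := by
    rw [Nat.mul_comm 20 s]
    exact Nat.mul_le_mul_left _ hρ
  rw [h2, h3]
  generalize s * ρ = y at *
  omega

theorem pow_t (n : ℕ) : 10 ^ (8 * (Nat.log 2 n + 1)) * n < 11 ^ (8 * (Nat.log 2 n + 1)) := by
  obtain ⟨L, hL⟩ : ∃ L, L = Nat.log 2 n + 1 := ⟨_, rfl⟩
  rw [← hL]
  have h1 : n < 2 ^ L := by
    rw [hL]
    exact Nat.lt_pow_succ_log_self (by norm_num) _
  calc 10 ^ (8 * L) * n < 10 ^ (8 * L) * 2 ^ L := Nat.mul_lt_mul_of_pos_left h1 (by positivity)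
    _ = (10 ^ 8 * 2) ^ L := by rw [pow_mul, mul_pow]
    _ ≤ (11 ^ 8) ^ L := Nat.pow_le_pow_left (by norm_num) _
    _ = 11 ^ (8 * L) := by rw [pow_mul]

/-- the darts of a set of edges -/
theorem darts_le {V : Type} [Finite V] (F : Set (Sym2 V)) (D : Set (V × V))
    (h : ∀ e ∈ D, s(e.1, e.2) ∈ F) : D.ncard ≤ 2 * F.ncard := by
  classical
  have hfin : F.Finite := Set.toFinite _
  rw [ncard_fiber D hfin.toFinset (fun e => s(e.1, e.2)) (fun e he => by
    rw [Set.Finite.mem_toFinset]; exact h e he), Set.ncard_eq_toFinset_card _ hfin, mul_comm,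
    ← smul_eq_mul, ← Finset.sum_const]
  refine Finset.sum_le_sum fun f _ => ?_
  induction f using Sym2.ind with
  | _ a b =>
    refine (Set.ncard_le_ncard (t := {(a, b), (b, a)}) ?_ (Set.toFinite _)).trans
      ((Set.ncard_insert_le _ _).trans (by rw [Set.ncard_singleton]))
    rintro ⟨x, y⟩ ⟨-, h2⟩
    rcases Sym2.eq_iff.1 h2 with ⟨h3, h4⟩ | ⟨h3, h4⟩
    · left; exact Prod.ext h3 h4
    · right; exact Prod.ext h3 h4

/-- few edges of large weight -/
theorem long_le {V : Type} [Finite V] (H : SimpleGraph V) (w : Sym2 V → ℕ) (s : ℕ) :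
    (s + 1) * {f | f ∈ H.edgeSet ∧ s < w f}.ncard ≤ tot H w := by
  classical
  have hfin : {f | f ∈ H.edgeSet ∧ s < w f}.Finite := Set.toFinite _
  rw [Set.ncard_eq_toFinset_card _ hfin, mul_comm, ← smul_eq_mul, ← Finset.sum_const]
  unfold tot
  refine le_trans (Finset.sum_le_sum (g := w) fun f hf => ?_)
    (Finset.sum_le_sum_of_subset_of_nonneg ?_ (fun _ _ _ => Nat.zero_le _))
  · rw [Set.Finite.mem_toFinset] at hf
    exact hf.2
  · intro f hf
    rw [Set.Finite.mem_toFinset] at hf ⊢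
    exact hf.1

theorem tot_one {V : Type} [Finite V] (G : SimpleGraph V) :
    tot G (fun _ => 1) = G.edgeSet.ncard := by
  classical
  unfold tot
  rw [Set.ncard_eq_toFinset_card _ (Set.toFinite G.edgeSet)]
  simp

/-- the number of edges -/
theorem crit_edges {V : Type} [Fintype V] (G : SimpleGraph V) (e0 : Sym2 V)
    (X : Sym2 V → Sym2 V → Prop) (hsym : ∀ f f', X f f' → X f' f)
    (hX : ∀ f ∈ G.edgeSet, f ≠ e0 → {f' | f' ∈ G.edgeSet ∧ f' ≠ e0 ∧ X f f'}.ncard ≤ 1)
    (hP : PlanarLike (G.deleteEdges {e0}) X) : G.edgeSet.ncard ≤ 8 * Fintype.card V + 1 := by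
  have h1 := edge_bound (H := G.deleteEdges {e0}) X 1 hsym (fun f hf => by
    rw [SimpleGraph.edgeSet_deleteEdges] at hf
    refine (Set.ncard_le_ncard ?_ (Set.toFinite _)).trans (hX f hf.1 hf.2)
    rintro f' ⟨h2, h3⟩
    rw [SimpleGraph.edgeSet_deleteEdges] at h2
    exact ⟨h2.1, h2.2, h3⟩) hP
  have h2 : {v | deg (G.deleteEdges {e0}) v ≠ 0}.ncard ≤ Fintype.card V := by
    rw [← Nat.card_eq_fintype_card]
    exact Set.ncard_le_card _
  have h3 : G.edgeSet.ncard ≤ (G.deleteEdges {e0}).edgeSet.ncard + 1 := by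
    refine (Set.ncard_le_ncard (t := (G.deleteEdges {e0}).edgeSet ∪ {e0}) ?_
      (Set.toFinite _)).trans ((Set.ncard_union_le _ _).trans (by rw [Set.ncard_singleton]))
    intro f hf
    by_cases h : f = e0
    · exact Or.inr h
    · left
      rw [SimpleGraph.edgeSet_deleteEdges]
      exact ⟨hf, h⟩
  omega

end Pool.Agent.Helper71.QU
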