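import Pool.Agent.Helper71.QU.Pair2

/-!
# QU: good pairs whose ends have degree at least three
-/

open Set
open Pool.Agent.Helper83.OP

namespace Pool.Agent.Helper71.QU

/-- the walks `T`, `Q` form a good pair -/
structure IsGP {V : Type} (H : SimpleGraph V) (D B : ℕ) (w : Sym2 V → ℕ) {u v : V}
    (T Q : H.Walk u v) : Prop where
  ne : u ≠ v
  tp : T.IsPath
  qp : Q.IsPath
  ed : ∀ f ∈ T.edges, f ∉ Q.edges
  su : ∀ x ∈ T.support, x ∈ Q.support → x = u ∨ x = v
  t2 : ∀ x ∈ T.support, x ≠ u → x ≠ v → deg H x = 2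
  qd : ∀ x ∈ Q.support, x ≠ u → x ≠ v → deg H x ≤ D
  qw : (Q.edges.map w).sum ≤ B

theorem IsGP.rev {V : Type} {H : SimpleGraph V} {D B : ℕ} {w : Sym2 V → ℕ} {u v : V}
    {T Q : H.Walk u v} (h : IsGP H D B w T Q) : IsGP H D B w T.reverse Q.reverse where
  ne := h.ne.symm
  tp := h.tp.reverse
  qp := h.qp.reverse
  ed := by
    intro f hf
    rw [SimpleGraph.Walk.edges_reverse, List.mem_reverse] at hf ⊢
    exact h.ed f hf
  su := by
    intro x hx hx'
    rw [SimpleGraph.Walk.support_reverse, List.mem_reverse] at hx hx'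
    exact (h.su x hx hx').symm
  t2 := by
    intro x hx h1 h2
    rw [SimpleGraph.Walk.support_reverse, List.mem_reverse] at hx
    exact h.t2 x hx h2 h1
  qd := by
    intro x hx h1 h2
    rw [SimpleGraph.Walk.support_reverse, List.mem_reverse] at hx
    exact h.qd x hx h2 h1
  qw := by
    rw [SimpleGraph.Walk.edges_reverse, List.map_reverse, List.sum_reverse]
    exact h.qw

theorem gp_step {V : Type} [Finite V] {H : SimpleGraph V} {D B : ℕ} {w : Sym2 V → ℕ} {u v : V}
    {T Q : H.Walk u v} (h : IsGP H D B w T Q)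
    (hcyc : ∀ (x : V) (C : H.Walk x x), C.IsCycle →
      ∃ u ∈ C.support, ∃ v ∈ C.support, u ≠ v ∧ 3 ≤ deg H u ∧ 3 ≤ deg H v)
    (hu : ¬ 3 ≤ deg H u) :
    ∃ (u' v' : V) (T' Q' : H.Walk u' v'), IsGP H D B w T' Q' ∧ Q'.length < Q.length := by
  cases Q with
  | nil => exact absurd rfl h.ne
  | @cons _ q _ hq Q1 =>
    have hQ := h.qp
    rw [SimpleGraph.Walk.cons_isPath_iff] at hQ
    by_cases hqv : q = v
    · exfalso
      subst hqv
      have hC : (SimpleGraph.Walk.cons hq.symm T).IsCycle := by
        rw [SimpleGraph.Walk.cons_isCycle_iff]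
        refine ⟨h.tp, fun h1 => h.ed _ h1 ?_⟩
        rw [SimpleGraph.Walk.edges_cons, Sym2.eq_swap]
        exact List.mem_cons_self
      obtain ⟨a, ha, b, hb, hab, ha3, hb3⟩ := hcyc q _ hC
      have key : ∀ c ∈ (SimpleGraph.Walk.cons hq.symm T).support, 3 ≤ deg H c → c = q := by
        intro c hc hc3
        by_contra hcq
        rw [SimpleGraph.Walk.support_cons, List.mem_cons] at hc
        have hc' := hc.resolve_left hcq
        by_cases hcu : c = u
        · exact hu (hcu ▸ hc3)
        · have := h.t2 c hc' hcu hcq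
          omega
      exact hab ((key a ha ha3).trans (key b hb hb3).symm)
    · have hqT : q ∉ T.support := by
        intro h1
        rcases h.su q h1 (by simp) with h2 | h2
        · exact hq.ne h2.symm
        · exact hqv h2
      have huQ : u ∉ Q1.support := hQ.2
      -- the degree of `u`
      have hdu : deg H u = 2 := by
        have hT := h.ed
        cases T with
        | nil => exact absurd rfl h.ne
        | @cons _ t _ ht T1 =>
          have htq : t ≠ q := by
            rintro rfl
            exact hqT (by simp)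
          have : 2 ≤ deg H u := by
            unfold deg
            rw [← Set.ncard_pair htq]
            refine Set.ncard_le_ncard ?_ (Set.toFinite _)
            rintro a (rfl | rfl)
            · exact ht
            · exact hq
          omega
      refine ⟨q, v, SimpleGraph.Walk.cons hq.symm T, Q1, ⟨hqv, ?_, hQ.1, ?_, ?_, ?_, ?_, ?_⟩, ?_⟩
      · rw [SimpleGraph.Walk.cons_isPath_iff]
        exact ⟨h.tp, hqT⟩
      · intro f hf hf'
        rw [SimpleGraph.Walk.edges_cons, List.mem_cons] at hf
        rcases hf with rfl | hf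
        · exact huQ (SimpleGraph.Walk.snd_mem_support_of_mem_edges _ hf')
        · exact h.ed f hf (by rw [SimpleGraph.Walk.edges_cons]; exact List.mem_cons_of_mem _ hf')
      · intro x hx hx'
        rw [SimpleGraph.Walk.support_cons, List.mem_cons] at hx
        rcases hx with hx | hx
        · exact Or.inl hx
        · rcases h.su x hx (by rw [SimpleGraph.Walk.support_cons]; exact List.mem_cons_of_mem _ hx')
            with h1 | h1
          · exact absurd (h1 ▸ hx') huQ
          · exact Or.inr h1
      · intro x hx h1 h2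
        rw [SimpleGraph.Walk.support_cons, List.mem_cons] at hx
        rcases hx with hx | hx
        · exact absurd hx h1
        · by_cases hxu : x = u
          · rw [hxu]
            exact hdu
          · exact h.t2 x hx hxu h2
      · intro x hx h1 h2
        refine h.qd x (by rw [SimpleGraph.Walk.support_cons]; exact List.mem_cons_of_mem _ hx) ?_ h2
        rintro rfl
        exact huQ hx
      · have := h.qw
        rw [SimpleGraph.Walk.edges_cons, List.map_cons, List.sum_cons] at this
        omega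
      · rw [SimpleGraph.Walk.length_cons]
        omega

theorem gp_ends {V : Type} [Finite V] {H : SimpleGraph V} {D B : ℕ} {w : Sym2 V → ℕ} {u v : V}
    {T Q : H.Walk u v} (h : IsGP H D B w T Q)
    (hcyc : ∀ (x : V) (C : H.Walk x x), C.IsCycle →
      ∃ u ∈ C.support, ∃ v ∈ C.support, u ≠ v ∧ 3 ≤ deg H u ∧ 3 ≤ deg H v) :
    ∃ (u' v' : V) (T' Q' : H.Walk u' v'), IsGP H D B w T' Q' ∧ 3 ≤ deg H u' ∧ 3 ≤ deg H v' := by
  classical
  have hex : ∃ n, ∃ (u' v' : V) (T' Q' : H.Walk u' v'), IsGP H D B w T' Q' ∧ Q'.length = n :=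
    ⟨_, u, v, T, Q, h, rfl⟩
  obtain ⟨u', v', T', Q', h1, h2⟩ := Nat.find_spec hex
  have hmin : ∀ (a b : V) (T1 Q1 : H.Walk a b), IsGP H D B w T1 Q1 → ¬ Q1.length < Q'.length := by
    intro a b T1 Q1 h3 h4
    rw [h2] at h4
    exact Nat.find_min hex h4 ⟨a, b, T1, Q1, h3, rfl⟩
  refine ⟨u', v', T', Q', h1, ?_, ?_⟩
  · by_contra hu
    obtain ⟨a, b, T1, Q1, h3, h4⟩ := gp_step h1 hcyc hu
    exact hmin a b T1 Q1 h3 h4
  · by_contra hv
    obtain ⟨a, b, T1, Q1, h3, h4⟩ := gp_step h1.rev hcyc hv
    rw [SimpleGraph.Walk.length_reverse] at h4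
    exact hmin a b T1 Q1 h3 h4

end Pool.Agent.Helper71.QU
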