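import Pool.Agent.Helper83.OP.Final
import Pool.Agent.Helper83.LN.Balance

/-!
# QU: a thread is inserted along an additional arc, the crossings are spread over the thread
-/

open Set
open Pool.Agent.Helper83.OP Pool.Agent.Helper83.LN

namespace Pool.Agent.Helper71.QU

private theorem encard_biUnion2 {α β : Type*} (T : Finset α) (P : α → Set β)
    (h : ∀ t ∈ T, (P t).encard ≤ 2) : (⋃ t ∈ T, P t).encard ≤ ((2 * T.card : ℕ) : ℕ∞) := by
  classical
  induction T using Finset.induction_on with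
  | empty => simp
  | insert a s ha ih =>
    rw [Finset.set_biUnion_insert, Finset.card_insert_of_notMem ha]
    refine (Set.encard_union_le _ _).trans ?_
    have h1 : (P a).encard ≤ 2 := h a (Finset.mem_insert_self _ _)
    have h2 := ih fun t ht => h t (Finset.mem_insert_of_mem ht)
    rw [Nat.mul_add, Nat.mul_one, add_comm (2 * s.card)]
    push_cast at h2 ⊢
    exact add_le_add h1 h2

private theorem it_mono (r : ℕ) (t : ℕ → ℝ) (h : ∀ i < r, t i < t (i + 1)) :
    ∀ i j, i < j → j ≤ r → t i < t j := by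
  intro i j hij
  induction j with
  | zero => omega
  | succ j ih =>
    intro hj
    rcases Nat.lt_succ_iff_lt_or_eq.mp hij with h1 | h1
    · exact (ih h1 (by omega)).trans (h j (by omega))
    · subst h1
      exact h i (by omega)

private theorem it_edges {V : Type} {G : SimpleGraph V} {u v : V} (T : G.Walk u v)
    (f : Sym2 V) : f ∈ T.edges ↔ ∃ i < T.length, f = s(T.getVert i, T.getVert (i + 1)) := by
  induction T with
  | nil => simp
  | @cons a b c h q ih =>
    rw [SimpleGraph.Walk.edges_cons, List.mem_cons, ih]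
    constructor
    · rintro (rfl | ⟨i, hi, rfl⟩)
      · exact ⟨0, by simp, by simp⟩
      · refine ⟨i + 1, by simpa using hi, ?_⟩
        simp only [SimpleGraph.Walk.getVert_cons_succ]
    · rintro ⟨i, hi, rfl⟩
      cases i with
      | zero => left; simp
      | succ i =>
        right
        refine ⟨i, by simpa using hi, ?_⟩
        simp only [SimpleGraph.Walk.getVert_cons_succ]

theorem insert_spread {V : Type} [Finite V] (G : SimpleGraph V) (u v : V) (huv : u ≠ v)
    (T : G.Walk u v) (hT : T.IsPath)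
    (hT2 : ∀ x ∈ T.support, x ≠ u → x ≠ v → deg G x = 2) (k K : ℕ) (hkK : k ≤ K * T.length)
    (hA : Aug (G.deleteEdges {f | f ∈ T.edges}) u v k) : KPl (max 9 (2 * K)) G := by
  classical
  obtain ⟨pos, γ, E, hd, hcr, ⟨ε, hεc, hεi, hε0, hε1, hεE⟩, hEw, hE8, hEk⟩ := hA
  set H := G.deleteEdges {f | f ∈ T.edges} with hHdef
  have hHe : ∀ f, f ∈ H.edgeSet ↔ f ∈ G.edgeSet ∧ f ∉ T.edges := by
    intro f
    rw [hHdef, SimpleGraph.edgeSet_deleteEdges]
    rfl
  -- length
  obtain ⟨r, hr⟩ : ∃ r, T.length = r + 1 := by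
    have : T.length ≠ 0 := by
      intro h
      exact huv (SimpleGraph.Walk.eq_of_length_eq_zero h)
    exact ⟨T.length - 1, by omega⟩
  -- the bad times
  set Bad : Set ℝ := {s | s ∈ Icc (0 : ℝ) 1 ∧ ε s ≠ pos u ∧ ε s ≠ pos v ∧
    ∃ f ∈ H.edgeSet, ε s ∈ γ f '' Icc (0 : ℝ) 1} with hBad
  have hBadF : Bad.Finite := by
    set Q : Set (Sym2 V × (ℝ × ℝ)) := {q | q.1 ∈ H.edgeSet ∧ q.2 ∈ E ∧
      q.2 ∈ γ q.1 '' Icc (0 : ℝ) 1 ∧ q.2 ≠ pos u ∧ q.2 ≠ pos v} with hQ
    have hQf : Q.Finite := by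
      rw [← Set.encard_lt_top_iff]
      exact lt_of_le_of_lt hEk (ENat.natCast_lt_top k)
    have hinj : InjOn ε Bad := fun x hx y hy h => hεi hx.1 hy.1 h
    apply Set.Finite.of_finite_image (f := ε) _ hinj
    apply (hQf.image Prod.snd).subset
    rintro _ ⟨s, ⟨hs, h1, h2, f, hf, h3⟩, rfl⟩
    exact ⟨(f, ε s), ⟨hf, by rw [← hεE]; exact ⟨s, hs, rfl⟩, h3, h1, h2⟩, rfl⟩
  have hBadI : Bad ⊆ Ioo (0 : ℝ) 1 := by
    rintro s ⟨hs, h1, h2, -⟩
    refine ⟨lt_of_le_of_ne hs.1 ?_, lt_of_le_of_ne hs.2 ?_⟩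
    · rintro rfl
      exact h1 hε0
    · rintro rfl
      exact h2 hε1
  have hBadk : Bad.ncard ≤ K * (r + 1) := by
    rw [← hr]
    refine le_trans ?_ hkK
    have hex : ∀ s, ∃ f, s ∈ Bad → f ∈ H.edgeSet ∧ ε s ∈ γ f '' Icc (0 : ℝ) 1 := by
      intro s
      by_cases h : s ∈ Bad
      · obtain ⟨-, -, -, f, hf, hf'⟩ := h
        exact ⟨f, fun _ => ⟨hf, hf'⟩⟩
      · exact ⟨s(u, v), fun h' => absurd h' h⟩
    choose c hc using hex
    have h1 : Bad.encard ≤ ((k : ℕ) : ℕ∞) := by
      refine le_trans ?_ hEk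
      refine Set.encard_le_encard_of_injOn (f := fun s => (c s, ε s)) ?_ ?_
      · intro s hs
        exact ⟨(hc s hs).1, by rw [← hεE]; exact ⟨s, hs.1, rfl⟩, (hc s hs).2, hs.2.1, hs.2.2.1⟩
      · intro s hs s' hs' h
        exact hεi hs.1 hs'.1 (Prod.ext_iff.1 h).2
    exact (Set.encard_le_coe_iff_finite_ncard_le.1 h1).2
  obtain ⟨t, ht0, ht1, htm, htB, htK⟩ := balance K (r + 1) (by omega) Bad hBadF hBadI hBadk
  have htmono := it_mono (r + 1) t htm
  have htIcc : ∀ i ≤ r + 1, t i ∈ Icc (0 : ℝ) 1 := by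
    intro i hi
    constructor
    · rcases Nat.eq_zero_or_pos i with rfl | h
      · exact ht0.ge
      · rw [← ht0]
        exact (htmono 0 i h hi).le
    · rcases Nat.lt_or_ge i (r + 1) with h | h
      · rw [← ht1]
        exact (htmono i (r + 1) h le_rfl).le
      · have : i = r + 1 := by omega
        subst this
        exact ht1.le
  have htinj : ∀ i j, i ≤ r + 1 → j ≤ r + 1 → t i = t j → i = j := by
    intro i j hi hj h
    rcases lt_trichotomy i j with h1 | h1 | h1
    · exact absurd h (htmono i j h1 hj).ne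
    · exact h1
    · exact absurd h.symm (htmono j i h1 hi).ne
  set x : ℕ → V := T.getVert with hx
  have hx0 : x 0 = u := T.getVert_zero
  have hx1 : x (r + 1) = v := by rw [← hr]; exact T.getVert_length
  have hxinj : ∀ i j, i ≤ r + 1 → j ≤ r + 1 → x i = x j → i = j := by
    intro i j hi hj h
    exact hT.getVert_injOn (by simp only [Set.mem_ofPred_eq]; omega)
      (by simp only [Set.mem_ofPred_eq]; omega) h
  have hsup : ∀ w, w ∈ T.support ↔ ∃ i ≤ r + 1, x i = w := by
    intro w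
    rw [SimpleGraph.Walk.mem_support_iff_exists_getVert, hr]
    constructor
    · rintro ⟨n, h1, h2⟩; exact ⟨n, h2, h1⟩
    · rintro ⟨n, h1, h2⟩; exact ⟨n, h2, h1⟩
  have hTe : ∀ f, f ∈ T.edges ↔ ∃ i < r + 1, f = s(x i, x (i + 1)) := by
    intro f
    rw [it_edges, hr]
  have hadj : ∀ i < r + 1, G.Adj (x i) (x (i + 1)) := by
    intro i hi
    exact T.adj_getVert_succ (by omega)
  -- neighbours of the inner vertices
  have hinner : ∀ i, 0 < i → i < r + 1 → ∀ w, G.Adj (x i) w → s(x i, w) ∈ T.edges := by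
    intro i hi0 hi w hw
    have hne1 : x i ≠ u := by
      rw [← hx0]; intro h
      have := hxinj i 0 (by omega) (by omega) h; omega
    have hne2 : x i ≠ v := by
      rw [← hx1]; intro h
      have := hxinj i (r + 1) (by omega) (by omega) h; omega
    have h2 := hT2 (x i) ((hsup _).mpr ⟨i, by omega, rfl⟩) hne1 hne2
    have ha : G.Adj (x i) (x (i + 1)) := hadj i hi
    have hb : G.Adj (x i) (x (i - 1)) := by
      have := hadj (i - 1) (by omega)
      rw [show i - 1 + 1 = i by omega] at this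
      exact this.symm
    have hab : x (i + 1) ≠ x (i - 1) := by
      intro h
      have := hxinj (i + 1) (i - 1) (by omega) (by omega) h; omega
    have hsub : ({x (i + 1), x (i - 1)} : Set V) ⊆ G.neighborSet (x i) := by
      rintro y (rfl | rfl)
      · exact ha
      · exact hb
    have heq : ({x (i + 1), x (i - 1)} : Set V) = G.neighborSet (x i) := by
      apply Set.eq_of_subset_of_ncard_le hsub
      rw [Set.ncard_pair hab]
      exact h2.le
    have hw' : w ∈ ({x (i + 1), x (i - 1)} : Set V) := by rw [heq]; exact hw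
    rw [hTe]
    rcases hw' with rfl | hw'
    · exact ⟨i, hi, rfl⟩
    · have hw' : w = x (i - 1) := hw'
      subst hw'
      refine ⟨i - 1, by omega, ?_⟩
      rw [show i - 1 + 1 = i by omega, Sym2.eq_swap]
  -- new positions
  obtain ⟨pos', hp1, hp2⟩ : ∃ pos' : V → ℝ × ℝ, (∀ i ≤ r + 1, pos' (x i) = ε (t i)) ∧
      ∀ w, w ∉ T.support → pos' w = pos w := by
    refine ⟨fun w => if h : ∃ i ≤ r + 1, x i = w then ε (t h.choose) else pos w, ?_, ?_⟩
    · intro i hi
      have h : ∃ j ≤ r + 1, x j = x i := ⟨i, hi, rfl⟩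
      simp only [dif_pos h]
      have := hxinj _ _ h.choose_spec.1 hi h.choose_spec.2
      rw [this]
    · intro w hw
      have h : ¬ ∃ j ≤ r + 1, x j = w := by rwa [← hsup]
      simp only [dif_neg h]
  have hpu : pos' u = pos u := by rw [← hx0, hp1 0 (by omega), ht0, hε0, hx0]
  have hpv : pos' v = pos v := by rw [← hx1, hp1 (r + 1) (by omega), ht1, hε1, hx1]
  -- new curves
  obtain ⟨γ', hg1, hg2⟩ : ∃ γ' : Sym2 V → ℝ → ℝ × ℝ,
      (∀ f, f ∈ T.edges → ∃ i < r + 1, f = s(x i, x (i + 1)) ∧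
        γ' f = fun s => ε (t i + s * (t (i + 1) - t i))) ∧
      ∀ f, f ∉ T.edges → γ' f = γ f := by
    refine ⟨fun f => if h : ∃ i < r + 1, f = s(x i, x (i + 1)) then
      (fun s => ε (t h.choose + s * (t (h.choose + 1) - t h.choose))) else γ f, ?_, ?_⟩
    · intro f hf
      have h := (hTe f).mp hf
      refine ⟨h.choose, h.choose_spec.1, h.choose_spec.2, ?_⟩
      simp only [dif_pos h]
    · intro f hf
      have h : ¬ ∃ i < r + 1, f = s(x i, x (i + 1)) := by rwa [← hTe]
      simp only [dif_neg h]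
  -- interpolation
  have hint : ∀ i < r + 1, ∀ s ∈ Ioo (0 : ℝ) 1,
      t i < t i + s * (t (i + 1) - t i) ∧ t i + s * (t (i + 1) - t i) < t (i + 1) := by
    intro i hi s hs
    have h := htm i hi
    constructor
    · have := mul_pos hs.1 (sub_pos.mpr h); linarith
    · have := mul_pos (sub_pos.mpr hs.2) (sub_pos.mpr h); nlinarith
  have hintc : ∀ i < r + 1, ∀ s ∈ Icc (0 : ℝ) 1,
      t i ≤ t i + s * (t (i + 1) - t i) ∧ t i + s * (t (i + 1) - t i) ≤ t (i + 1) := by
    intro i hi s hs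
    have h := htm i hi
    constructor
    · have := mul_nonneg hs.1 (sub_pos.mpr h).le; linarith
    · have := mul_nonneg (sub_nonneg.mpr hs.2) (sub_pos.mpr h).le; nlinarith
  have hintI : ∀ i < r + 1, ∀ s ∈ Icc (0 : ℝ) 1,
      t i + s * (t (i + 1) - t i) ∈ Icc (0 : ℝ) 1 := by
    intro i hi s hs
    exact ⟨(htIcc i (by omega)).1.trans (hintc i hi s hs).1,
      (hintc i hi s hs).2.trans (htIcc (i + 1) (by omega)).2⟩
  -- points of new curves
  have hnew : ∀ f ∈ T.edges, ∀ s ∈ Ioo (0 : ℝ) 1, ∃ i < r + 1, f = s(x i, x (i + 1)) ∧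
      ∃ τ, t i < τ ∧ τ < t (i + 1) ∧ γ' f s = ε τ := by
    intro f hf s hs
    obtain ⟨i, hi, hfi, hgf⟩ := hg1 f hf
    refine ⟨i, hi, hfi, t i + s * (t (i + 1) - t i), (hint i hi s hs).1, (hint i hi s hs).2, ?_⟩
    rw [hgf]
  have hτI : ∀ i < r + 1, ∀ τ, t i < τ → τ < t (i + 1) → τ ∈ Ioo (0 : ℝ) 1 := by
    intro i hi τ h1 h2
    exact ⟨lt_of_le_of_lt (htIcc i (by omega)).1 h1, lt_of_lt_of_le h2
      (htIcc (i + 1) (by omega)).2⟩
  have hτu : ∀ τ ∈ Ioo (0 : ℝ) 1, ε τ ≠ pos u ∧ ε τ ≠ pos v := by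
    intro τ hτ
    constructor
    · rw [← hε0]
      intro h
      have := hεi ⟨hτ.1.le, hτ.2.le⟩ ⟨le_rfl, zero_le_one⟩ h
      linarith [hτ.1]
    · rw [← hε1]
      intro h
      have := hεi ⟨hτ.1.le, hτ.2.le⟩ ⟨zero_le_one, le_rfl⟩ h
      linarith [hτ.2]
  -- two intervals with a common point agree
  have hsame : ∀ i < r + 1, ∀ j < r + 1, ∀ τ, t i < τ → τ < t (i + 1) → t j < τ →
      τ < t (j + 1) → i = j := by
    intro i hi j hj τ h1 h2 h3 h4
    rcases lt_trichotomy i j with h | h | h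
    · exfalso
      have : t (i + 1) ≤ t j := by
        rcases Nat.lt_or_ge (i + 1) j with h' | h'
        · exact (htmono (i + 1) j h' (by omega)).le
        · have : i + 1 = j := by omega
          rw [this]
      linarith
    · exact h
    · exfalso
      have : t (j + 1) ≤ t i := by
        rcases Nat.lt_or_ge (j + 1) i with h' | h'
        · exact (htmono (j + 1) i h' (by omega)).le
        · have : j + 1 = i := by omega
          rw [this]
      linarith
  have hnode : ∀ i < r + 1, ∀ j ≤ r + 1, ∀ τ, t i < τ → τ < t (i + 1) → τ ≠ t j := by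
    intro i hi j hj τ h1 h2 h
    rw [h] at h1 h2
    rcases Nat.lt_or_ge i j with h' | h'
    · have : t (i + 1) ≤ t j := by
        rcases Nat.lt_or_ge (i + 1) j with h'' | h''
        · exact (htmono (i + 1) j h'' (by omega)).le
        · have : i + 1 = j := by omega
          rw [this]
      linarith
    · have : t j ≤ t i := by
        rcases Nat.lt_or_ge j i with h'' | h''
        · exact (htmono j i h'' (by omega)).le
        · have : i = j := by omega
          rw [this]
      linarith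
  -- vertices outside the path
  have hout : ∀ w, w ∉ T.support → w ≠ u ∧ w ≠ v := by
    intro w hw
    constructor
    · rintro rfl; exact hw T.start_mem_support
    · rintro rfl; exact hw T.end_mem_support
  have hposE : ∀ w, w ∉ T.support → ∀ τ ∈ Icc (0 : ℝ) 1, ε τ ≠ pos w := by
    intro w hw τ hτ h
    apply hEw w (hout w hw).1 (hout w hw).2
    rw [← h, ← hεE]
    exact ⟨τ, hτ, rfl⟩
  -- ends of old edges
  have hold : ∀ a b, G.Adj a b → s(a, b) ∉ T.edges → pos' a = pos a := by
    intro a b hab hf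
    by_cases ha : a ∈ T.support
    · obtain ⟨i, hi, rfl⟩ := (hsup a).mp ha
      rcases Nat.eq_zero_or_pos i with rfl | hi0
      · rw [hx0, hpu]
      · rcases Nat.lt_or_ge i (r + 1) with h | h
        · exact absurd (hinner i hi0 h b hab) hf
        · have : i = r + 1 := by omega
          subst this
          rw [hx1, hpv]
    · exact hp2 a ha
  have hdraw : IsDrawing G pos' γ' := by
    refine ⟨?_, ?_, ?_, ?_, ?_⟩
    · intro a b hab
      by_cases ha : a ∈ T.support
      · obtain ⟨i, hi, rfl⟩ := (hsup a).mp ha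
        by_cases hb : b ∈ T.support
        · obtain ⟨j, hj, rfl⟩ := (hsup b).mp hb
          rw [hp1 i hi, hp1 j hj] at hab
          have := hεi (htIcc i hi) (htIcc j hj) hab
          rw [htinj i j hi hj this]
        · rw [hp1 i hi, hp2 b hb] at hab
          exact absurd hab (hposE b hb _ (htIcc i hi))
      · by_cases hb : b ∈ T.support
        · obtain ⟨j, hj, rfl⟩ := (hsup b).mp hb
          rw [hp1 j hj, hp2 a ha] at hab
          exact absurd hab.symm (hposE a ha _ (htIcc j hj))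
        · rw [hp2 a ha, hp2 b hb] at hab
          exact hd.pos_inj hab
    · intro a b hab
      by_cases hf : s(a, b) ∈ T.edges
      · obtain ⟨i, hi, hfi, hgf⟩ := hg1 _ hf
        have e0 : γ' s(a, b) 0 = pos' (x i) := by
          rw [hgf, hp1 i (by omega)]; simp
        have e1 : γ' s(a, b) 1 = pos' (x (i + 1)) := by
          rw [hgf, hp1 (i + 1) (by omega)]; simp
        rw [e0, e1]
        rcases Sym2.eq_iff.mp hfi with ⟨h1, h2⟩ | ⟨h1, h2⟩
        · left; exact ⟨by rw [h1], by rw [h2]⟩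
        · right; exact ⟨by rw [h2], by rw [h1]⟩
      · rw [hg2 _ hf, hold a b hab hf, hold b a hab.symm (by rwa [Sym2.eq_swap])]
        apply hd.ends
        have : s(a, b) ∈ H.edgeSet := (hHe _).mpr ⟨hab, hf⟩
        exact this
    · intro f hf
      by_cases hfT : f ∈ T.edges
      · obtain ⟨i, hi, hfi, hgf⟩ := hg1 _ hfT
        rw [hgf]
        apply hεc.comp (by fun_prop)
        intro s hs
        exact hintI i hi s hs
      · rw [hg2 _ hfT]
        exact hd.cont f ((hHe _).mpr ⟨hf, hfT⟩)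
    · intro f hf
      by_cases hfT : f ∈ T.edges
      · obtain ⟨i, hi, hfi, hgf⟩ := hg1 _ hfT
        rw [hgf]
        intro s hs s' hs' h
        have := hεi (hintI i hi s hs) (hintI i hi s' hs') h
        have h1 := sub_pos.mpr (htm i hi)
        have h2 : s * (t (i + 1) - t i) = s' * (t (i + 1) - t i) := by linarith
        exact mul_right_cancel₀ h1.ne' h2
      · rw [hg2 _ hfT]
        exact hd.inj f ((hHe _).mpr ⟨hf, hfT⟩)
    · intro f hf s hs w
      by_cases hfT : f ∈ T.edges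
      · obtain ⟨i, hi, hfi, τ, h1, h2, h3⟩ := hnew f hfT s hs
        have hτ := hτI i hi τ h1 h2
        rw [h3]
        by_cases hw : w ∈ T.support
        · obtain ⟨j, hj, rfl⟩ := (hsup w).mp hw
          rw [hp1 j hj]
          intro h
          exact hnode i hi j hj τ h1 h2 (hεi ⟨hτ.1.le, hτ.2.le⟩ (htIcc j hj) h)
        · rw [hp2 w hw]
          exact hposE w hw τ ⟨hτ.1.le, hτ.2.le⟩
      · rw [hg2 _ hfT]
        have hfH : f ∈ H.edgeSet := (hHe _).mpr ⟨hf, hfT⟩
        by_cases hw : w ∈ T.support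
        · obtain ⟨j, hj, rfl⟩ := (hsup w).mp hw
          rcases Nat.eq_zero_or_pos j with rfl | hj0
          · rw [hx0, hpu]; exact hd.avoid f hfH s hs u
          · rcases Nat.lt_or_ge j (r + 1) with h | h
            · rw [hp1 j hj]
              intro heq
              have hτ : t j ∈ Ioo (0 : ℝ) 1 := by
                constructor
                · rw [← ht0]; exact htmono 0 j hj0 hj
                · rw [← ht1]; exact htmono j (r + 1) h le_rfl
              apply htB j hj0 h
              refine ⟨htIcc j hj, (hτu _ hτ).1, (hτu _ hτ).2, f, hfH, s,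
                ⟨hs.1.le, hs.2.le⟩, heq⟩
            · have : j = r + 1 := by omega
              subst this
              rw [hx1, hpv]; exact hd.avoid f hfH s hs v
        · rw [hp2 w hw]
          exact hd.avoid f hfH s hs w
  refine ⟨pos', γ', hdraw, ?_⟩
  intro e he
  by_cases heT : e ∈ T.edges
  · -- crossings of a new edge
    obtain ⟨i, hi, hfi, -⟩ := hg1 e heT
    have hfin : (Bad ∩ Ioo (t i) (t (i + 1))).Finite := hBadF.subset inter_subset_left
    have hsub : crossSet G γ' e ⊆ ⋃ τ ∈ hfin.toFinset,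
        {q : Sym2 V × (ℝ × ℝ) | q.1 ∈ H.edgeSet ∧ q.2 = ε τ ∧ q.2 ∈ γ q.1 '' Icc (0 : ℝ) 1} := by
      rintro ⟨f, p⟩ ⟨hf, hfe, ⟨s, hs, hsp⟩, ⟨s', hs', hsp'⟩⟩
      simp only at hf hfe hsp hsp'
      obtain ⟨i', hi', hfi', τ, h1, h2, h3⟩ := hnew e heT s hs
      have hii : i' = i := by
        rw [hfi] at hfi'
        rcases Sym2.eq_iff.1 hfi' with ⟨e1, -⟩ | ⟨e1, e2⟩
        · exact (hxinj _ _ (by omega) (by omega) e1).symm
        · have := hxinj _ _ (by omega) (by omega) e1
          have := hxinj _ _ (by omega) (by omega) e2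
          omega
      subst hii
      have hτ := hτI i' hi' τ h1 h2
      have hfT : f ∉ T.edges := by
        intro hfT
        obtain ⟨j, hj, hfj, τ', h1', h2', h3'⟩ := hnew f hfT s' hs'
        have hτ' := hτI j hj τ' h1' h2'
        have : τ = τ' := hεi ⟨hτ.1.le, hτ.2.le⟩ ⟨hτ'.1.le, hτ'.2.le⟩
          (by rw [← h3, ← h3', hsp, hsp'])
        subst this
        have := hsame i' hi' j hj τ h1 h2 h1' h2'
        subst this
        exact hfe (by rw [hfj, hfi'])
      have hpτ : p = ε τ := by rw [← hsp, h3]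
      have hpf : p ∈ γ f '' Icc (0 : ℝ) 1 := by
        rw [hg2 f hfT] at hsp'
        exact ⟨s', ⟨hs'.1.le, hs'.2.le⟩, hsp'⟩
      have hfH : f ∈ H.edgeSet := (hHe _).mpr ⟨hf, hfT⟩
      refine Set.mem_iUnion₂.2 ⟨τ, ?_, hfH, hpτ, hpf⟩
      rw [Set.Finite.mem_toFinset]
      refine ⟨⟨⟨hτ.1.le, hτ.2.le⟩, (hτu τ hτ).1, (hτu τ hτ).2, f, hfH, ?_⟩, h1, h2⟩
      rw [← hpτ]
      exact hpf
    refine (Set.encard_le_encard hsub).trans ((encard_biUnion2 _ _ ?_).trans ?_)
    · intro τ hτ
      rw [Set.Finite.mem_toFinset] at hτ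
      obtain ⟨⟨hτI', hτu', hτv', -⟩, -⟩ := hτ
      set Fp : Set (Sym2 V × (ℝ × ℝ)) :=
        {q | q.1 ∈ H.edgeSet ∧ q.2 = ε τ ∧ q.2 ∈ γ q.1 '' Icc (0 : ℝ) 1} with hFp
      have hnv : ∀ w, ε τ ≠ pos w := by
        intro w hw
        by_cases hwu : w = u
        · exact hτu' (by rw [hw, hwu])
        by_cases hwv : w = v
        · exact hτv' (by rw [hw, hwv])
        exact hEw w hwu hwv (by rw [← hw, ← hεE]; exact ⟨τ, hτI', rfl⟩)
      have hopen : ∀ f ∈ H.edgeSet, ε τ ∈ γ f '' Icc (0 : ℝ) 1 → ε τ ∈ γ f '' Ioo (0 : ℝ) 1 := by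
        rintro f hf ⟨s, hs, hsε⟩
        refine ⟨s, ⟨lt_of_le_of_ne hs.1 ?_, lt_of_le_of_ne hs.2 ?_⟩, hsε⟩
        · rintro rfl
          induction f using Sym2.ind with
          | _ a b =>
            rcases hd.ends a b hf with ⟨h1, -⟩ | ⟨h1, -⟩
            · exact hnv _ (hsε.symm.trans h1)
            · exact hnv _ (hsε.symm.trans h1)
        · rintro rfl
          induction f using Sym2.ind with
          | _ a b =>
            rcases hd.ends a b hf with ⟨-, h1⟩ | ⟨-, h1⟩
            · exact hnv _ (hsε.symm.trans h1)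
            · exact hnv _ (hsε.symm.trans h1)
      rcases Fp.eq_empty_or_nonempty with h0 | ⟨q1, hq1⟩
      · rw [h0, Set.encard_empty]
        exact zero_le'
      · have hsub2 : Fp ⊆ insert q1 (crossSet H γ q1.1) := by
          intro q hq
          by_cases hqq : q = q1
          · exact Or.inl hqq
          · right
            have h12 : q.2 = q1.2 := hq.2.1.trans hq1.2.1.symm
            refine ⟨hq.1, ?_, ?_, ?_⟩
            · intro h
              exact hqq (Prod.ext h h12)
            · rw [hq.2.1]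
              exact hopen _ hq1.1 (by rw [← hq1.2.1]; exact hq1.2.2)
            · rw [hq.2.1]
              exact hopen _ hq.1 (by rw [← hq.2.1]; exact hq.2.2)
        refine (Set.encard_le_encard hsub2).trans ((Set.encard_insert_le _ _).trans ?_)
        have := hcr q1.1 hq1.1
        calc (crossSet H γ q1.1).encard + 1 ≤ 1 + 1 := by gcongr
          _ = 2 := by norm_num
    · have h5 : hfin.toFinset.card ≤ K := by
        have := htK i hi
        rwa [Set.ncard_eq_toFinset_card _ hfin] at this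
      have h6 : 2 * hfin.toFinset.card ≤ max 9 (2 * K) :=
        (Nat.mul_le_mul_left 2 h5).trans (le_max_right _ _)
      exact_mod_cast h6
  · -- crossings of an old edge
    have heH : e ∈ H.edgeSet := (hHe _).mpr ⟨he, heT⟩
    have hsub : crossSet G γ' e ⊆ crossSet H γ e ∪
        {q | q ∈ crossSet G γ' e ∧ q.1 ∈ T.edges} := by
      rintro ⟨f, p⟩ hq
      by_cases hfT : f ∈ T.edges
      · right
        exact ⟨hq, hfT⟩
      · left
        obtain ⟨hf, hfe, h1, h2⟩ := hq
        simp only at hf hfe h1 h2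
        rw [hg2 e heT] at h1
        rw [hg2 f hfT] at h2
        exact ⟨(hHe _).mpr ⟨hf, hfT⟩, hfe, h1, h2⟩
    have h8 : {q | q ∈ crossSet G γ' e ∧ q.1 ∈ T.edges}.encard ≤ 8 := by
      have hpt : ∀ q ∈ {q | q ∈ crossSet G γ' e ∧ q.1 ∈ T.edges}, ∃ i < r + 1,
          q.1 = s(x i, x (i + 1)) ∧ ∃ τ, t i < τ ∧ τ < t (i + 1) ∧ q.2 = ε τ := by
        rintro ⟨f, p⟩ ⟨⟨hf, hfe, ⟨s, hs, hsp⟩, ⟨s', hs', hsp'⟩⟩, hfT⟩
        simp only at hf hfe hsp hsp' hfT ⊢
        obtain ⟨i, hi, hfi, τ, h1, h2, h3⟩ := hnew f hfT s' hs'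
        exact ⟨i, hi, hfi, τ, h1, h2, by rw [← hsp', h3]⟩
      have hinj : InjOn Prod.snd {q | q ∈ crossSet G γ' e ∧ q.1 ∈ T.edges} := by
        intro q hq q' hq' h
        obtain ⟨i, hi, hfi, τ, h1, h2, h3⟩ := hpt q hq
        obtain ⟨j, hj, hfj, τ', h1', h2', h3'⟩ := hpt q' hq'
        have hτ := hτI i hi τ h1 h2
        have hτ' := hτI j hj τ' h1' h2'
        have : τ = τ' := hεi ⟨hτ.1.le, hτ.2.le⟩ ⟨hτ'.1.le, hτ'.2.le⟩
          (by rw [← h3, ← h3', h])
        subst this
        have := hsame i hi j hj τ h1 h2 h1' h2'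
        subst this
        exact Prod.ext (by rw [hfi, hfj]) h
      rw [← hinj.encard_image]
      refine (Set.encard_le_encard ?_).trans (hE8 e heH)
      rintro _ ⟨q, hq, rfl⟩
      obtain ⟨i, hi, hfi, τ, h1, h2, h3⟩ := hpt q hq
      have hτ := hτI i hi τ h1 h2
      obtain ⟨⟨hf, hfe, ⟨s, hs, hsp⟩, _⟩, hfT⟩ := hq
      refine ⟨?_, ?_, ?_, ?_⟩
      · rw [h3, ← hεE]
        exact ⟨τ, ⟨hτ.1.le, hτ.2.le⟩, rfl⟩
      · rw [hg2 e heT] at hsp
        exact ⟨s, ⟨hs.1.le, hs.2.le⟩, hsp⟩
      · rw [h3]; exact (hτu τ hτ).1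
      · rw [h3]; exact (hτu τ hτ).2
    refine (Set.encard_le_encard hsub).trans ((Set.encard_union_le _ _).trans ?_)
    refine (add_le_add (hcr e heH) h8).trans ?_
    have : (1 : ℕ∞) + 8 = ((9 : ℕ) : ℕ∞) := by norm_num
    rw [this]
    exact_mod_cast le_max_left 9 (2 * K)

end Pool.Agent.Helper71.QU
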