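import Pool.Agent.Helper83.OP.Final

/-!
# QU: the weights `1 + R * (number of ends of degree at least three)`
-/

open Set
open Pool.Agent.Helper83.OP

namespace Pool.Agent.Helper71.QU

/-- the number of ends of degree at least three -/
noncomputable def cnt {V : Type} (G : SimpleGraph V) (f : Sym2 V) : ℕ :=
  {x | x ∈ f ∧ 3 ≤ deg G x}.ncard

/-- the weights -/
noncomputable def wR {V : Type} (G : SimpleGraph V) (R : ℕ) (f : Sym2 V) : ℕ := 1 + R * cnt G f

open Classical in
theorem cnt_mk {V : Type} (G : SimpleGraph V) {a b : V} (hab : a ≠ b) :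
    cnt G s(a, b) = (if 3 ≤ deg G a then 1 else 0) + (if 3 ≤ deg G b then 1 else 0) := by
  unfold cnt
  by_cases ha : 3 ≤ deg G a
  · by_cases hb : 3 ≤ deg G b
    · have : {x | x ∈ s(a, b) ∧ 3 ≤ deg G x} = {a, b} := by
        ext x
        simp only [Sym2.mem_iff, mem_setOf_eq, mem_insert_iff, mem_singleton_iff]
        constructor
        · exact fun h => h.1
        · rintro (rfl | rfl)
          · exact ⟨Or.inl rfl, ha⟩
          · exact ⟨Or.inr rfl, hb⟩
      rw [this, Set.ncard_pair hab, if_pos ha, if_pos hb]
    · have : {x | x ∈ s(a, b) ∧ 3 ≤ deg G x} = {a} := by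
        ext x
        simp only [Sym2.mem_iff, mem_setOf_eq, mem_singleton_iff]
        constructor
        · rintro ⟨rfl | rfl, h⟩
          · rfl
          · exact absurd h hb
        · rintro rfl
          exact ⟨Or.inl rfl, ha⟩
      rw [this, Set.ncard_singleton, if_pos ha, if_neg hb]
  · by_cases hb : 3 ≤ deg G b
    · have : {x | x ∈ s(a, b) ∧ 3 ≤ deg G x} = {b} := by
        ext x
        simp only [Sym2.mem_iff, mem_setOf_eq, mem_singleton_iff]
        constructor
        · rintro ⟨rfl | rfl, h⟩
          · exact absurd h ha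
          · rfl
        · rintro rfl
          exact ⟨Or.inr rfl, hb⟩
      rw [this, Set.ncard_singleton, if_neg ha, if_pos hb]
    · have : {x | x ∈ s(a, b) ∧ 3 ≤ deg G x} = ∅ := by
        ext x
        simp only [Sym2.mem_iff, mem_setOf_eq, mem_empty_iff_false, iff_false]
        rintro ⟨rfl | rfl, h⟩
        · exact ha h
        · exact hb h
      rw [this, Set.ncard_empty, if_neg ha, if_neg hb]

theorem wR_sum {V : Type} (G : SimpleGraph V) (R : ℕ) (l : List (Sym2 V)) :
    (l.map (wR G R)).sum = l.length + R * (l.map (cnt G)).sum := by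
  induction l with
  | nil => simp
  | cons f l ih =>
    rw [List.map_cons, List.sum_cons, ih, List.map_cons, List.sum_cons, List.length_cons, wR]
    ring

open Classical in
theorem cnt_path {V : Type} (G : SimpleGraph V) {u v : V} (p : G.Walk u v) (hp : p.IsPath)
    (hin : ∀ x ∈ p.support, x ≠ u → x ≠ v → deg G x = 2) :
    (p.edges.map (cnt G)).sum ≤ (if 3 ≤ deg G u then 1 else 0) + (if 3 ≤ deg G v then 1 else 0) := by
  induction p with
  | nil => simp
  | @cons u u1 v h q ih =>
    rw [SimpleGraph.Walk.cons_isPath_iff] at hp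
    rw [SimpleGraph.Walk.edges_cons, List.map_cons, List.sum_cons, cnt_mk G h.ne]
    by_cases hq : u1 = v
    · subst hq
      have : q = SimpleGraph.Walk.nil := by
        have := hp.1
        rwa [SimpleGraph.Walk.isPath_iff_eq_nil] at this
      rw [this]
      simp
    · have hu1 : deg G u1 = 2 := hin u1 (by simp) h.ne.symm hq
      have h3 : ¬ 3 ≤ deg G u1 := by omega
      have := ih hp.1 (by
        intro x hx h1 h2
        refine hin x (by simp [hx]) ?_ h2
        rintro rfl
        exact hp.2 hx)
      rw [if_neg h3] at this ⊢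
      omega

open Classical in
theorem branch_count {V : Type} (G : SimpleGraph V) {u v : V} (p : G.Walk u v) :
    (p.support.filter (fun x => decide (3 ≤ deg G x))).length ≤ (p.edges.map (cnt G)).sum + 1 := by
  induction p with
  | nil =>
    refine le_trans (List.length_filter_le _ _) ?_
    simp
  | @cons u u1 v h q ih =>
    rw [SimpleGraph.Walk.edges_cons, List.map_cons, List.sum_cons, cnt_mk G h.ne,
      SimpleGraph.Walk.support_cons, List.filter_cons]
    by_cases hu : 3 ≤ deg G u
    · rw [if_pos (by simpa using hu), if_pos hu, List.length_cons]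
      omega
    · rw [if_neg (by simpa using hu), if_neg hu]
      omega

/-- the sum of the degrees of the inner vertices -/
theorem inner_deg {V : Type} [Finite V] (G : SimpleGraph V) {u v : V} (p : G.Walk u v) (D : ℕ)
    (hD : ∀ x ∈ p.support, x ≠ u → x ≠ v → deg G x ≤ D) :
    ∃ S : Finset V, (∀ y ∈ p.support, y ≠ u → y ≠ v → y ∈ S) ∧
      ∑ y ∈ S, deg G y ≤ 2 * (p.length + 1) + D * ((p.edges.map (cnt G)).sum + 1) := by
  classical
  refine ⟨p.support.toFinset.filter (fun y => y ≠ u ∧ y ≠ v), ?_, ?_⟩
  · intro y hy h1 h2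
    rw [Finset.mem_filter, List.mem_toFinset]
    exact ⟨hy, h1, h2⟩
  · set S := p.support.toFinset.filter (fun y => y ≠ u ∧ y ≠ v) with hS
    have h1 : ∑ y ∈ S, deg G y ≤ ∑ y ∈ S, (2 + if 3 ≤ deg G y then D else 0) := by
      refine Finset.sum_le_sum fun y hy => ?_
      rw [hS, Finset.mem_filter, List.mem_toFinset] at hy
      by_cases h3 : 3 ≤ deg G y
      · rw [if_pos h3]
        exact (hD y hy.1 hy.2.1 hy.2.2).trans (Nat.le_add_left _ _)
      · rw [if_neg h3]
        omega
    rw [Finset.sum_add_distrib, Finset.sum_const, smul_eq_mul, ← Finset.sum_filter,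
      Finset.sum_const, smul_eq_mul] at h1
    have h2 : S.card ≤ p.length + 1 := by
      rw [← SimpleGraph.Walk.length_support]
      exact (Finset.card_le_card (Finset.filter_subset _ _)).trans (List.toFinset_card_le _)
    have h3 : (S.filter (fun y => 3 ≤ deg G y)).card ≤ (p.edges.map (cnt G)).sum + 1 := by
      refine le_trans ?_ (branch_count G p)
      refine le_trans (Finset.card_le_card (t := (p.support.filter
        (fun x => decide (3 ≤ deg G x))).toFinset) ?_) (List.toFinset_card_le _)
      intro y hy
      rw [Finset.mem_filter, hS, Finset.mem_filter, List.mem_toFinset] at hy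
      rw [List.mem_toFinset, List.mem_filter]
      exact ⟨hy.1.1, by simpa using hy.2⟩
    have h4 : (S.filter (fun y => 3 ≤ deg G y)).card * D ≤ ((p.edges.map (cnt G)).sum + 1) * D :=
      Nat.mul_le_mul_right _ h3
    have h5 : D * ((p.edges.map (cnt G)).sum + 1) = ((p.edges.map (cnt G)).sum + 1) * D :=
      Nat.mul_comm _ _
    omega

end Pool.Agent.Helper71.QU
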