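import Pool.Agent.Helper71.QU.Aug2
import Pool.Agent.Helper71.QU.Spread
import Pool.Agent.Helper71.QU.Ends
import Pool.Agent.Helper71.QU.Wt
import Pool.Agent.Helper95.UP.Assemble

/-!
# QU: threads of comparable lengths, arbitrary degrees
-/

open Set
open Pool.Agent.Helper83.OP Pool.Agent.Helper95.UP

namespace Pool.Agent.Helper71.QU

/-- a thread is redrawn along a walk -/
theorem insert_walk {V : Type} [Finite V] (G : SimpleGraph V)
    (hcrit : ∀ e ∈ G.edgeSet, KPl 1 (G.deleteEdges {e})) {u v : V} (huv : u ≠ v)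
    (T Q : G.Walk u v) (hT : T.IsPath) (hT2 : ∀ x ∈ T.support, x ≠ u → x ≠ v → deg G x = 2)
    (hTQ : ∀ f ∈ T.edges, f ∉ Q.edges) (S : Finset V)
    (hS : ∀ y ∈ Q.support, y ≠ u → y ≠ v → y ∈ S) (K : ℕ)
    (hK : 2 * ((∑ y ∈ S, deg G y) + 8 * Q.length) ≤ K * T.length) : KPl (max 9 (2 * K)) G := by
  classical
  have hT0 : T.edges ≠ [] := by
    intro h
    have hl : T.length = 0 := by rw [← SimpleGraph.Walk.length_edges, h]; rfl
    exact huv (SimpleGraph.Walk.eq_of_length_eq_zero hl)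
  obtain ⟨e, he⟩ := List.exists_mem_of_ne_nil _ hT0
  have hk1 : KPl 1 (G.deleteEdges {f | f ∈ T.edges}) :=
    (hcrit e (SimpleGraph.Walk.edges_subset_edgeSet T he)).mono (by
      apply SimpleGraph.deleteEdges_anti
      simpa using he)
  have hQe : ∀ f ∈ Q.edges, f ∈ (G.deleteEdges {f | f ∈ T.edges}).edgeSet := by
    intro f hf
    rw [SimpleGraph.edgeSet_deleteEdges]
    exact ⟨SimpleGraph.Walk.edges_subset_edgeSet Q hf, fun h => hTQ f h hf⟩
  refine insert_spread G u v huv T hT hT2 (K * T.length) K le_rfl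
    (aug_sum _ hk1 u v huv (Q.transfer _ hQe) S ?_ _ ?_)
  · intro y hy
    rw [SimpleGraph.Walk.support_transfer] at hy
    exact hS y hy
  · rw [SimpleGraph.Walk.length_transfer]
    refine le_trans ?_ hK
    refine Nat.mul_le_mul_left _ (Nat.add_le_add_right ?_ _)
    exact Finset.sum_le_sum fun y _ => deg_mono (SimpleGraph.deleteEdges_le _) y

/-- the radius -/
def rho (m : ℕ) : ℕ := 2 * Nat.log 2 (m + 1) + 20

theorem rho_ok (m : ℕ) : 96 * (2 * m * (4 * rho m + 1) + 1) ≤ 2 ^ (rho m - 1) := by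
  obtain ⟨L, hL⟩ : ∃ L, L = Nat.log 2 (m + 1) := ⟨_, rfl⟩
  have h1 : m + 1 < 2 ^ (L + 1) := by
    rw [hL]
    exact Nat.lt_pow_succ_log_self (by norm_num) _
  obtain ⟨x, hx⟩ : ∃ x, x = 2 ^ L := ⟨_, rfl⟩
  have h2 : L < x := by rw [hx]; exact Nat.lt_two_pow_self
  rw [pow_succ, ← hx] at h1
  have h3 : rho m = 2 * L + 20 := by rw [rho, hL]
  rw [h3, show 2 * L + 20 - 1 = L + L + 19 by omega, pow_add, pow_add, ← hx]
  have h4 : 2 * m * (4 * (2 * L + 20) + 1) + 1 ≤ (4 * x) * (89 * x) := by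
    have h5 : 2 * m * (4 * (2 * L + 20) + 1) + 1 ≤ (2 * m + 1) * (4 * (2 * L + 20) + 1) := by
      nlinarith
    exact h5.trans (Nat.mul_le_mul (by omega) (by omega))
  calc 96 * (2 * m * (4 * (2 * L + 20) + 1) + 1) ≤ 96 * ((4 * x) * (89 * x)) :=
        Nat.mul_le_mul_left _ h4
    _ = 34176 * (x * x) := by ring
    _ ≤ 524288 * (x * x) := Nat.mul_le_mul_right _ (by norm_num)
    _ = x * x * 2 ^ 19 := by norm_num [Nat.mul_comm]

/-- good pairs for graphs in which all paths with inner vertices of degree two have at most `R` edges -/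
theorem gp_any (R : ℕ) (hR : 1 ≤ R) {V : Type} [Finite V] (H : SimpleGraph V) (e : Sym2 V)
    (X : Sym2 V → Sym2 V → Prop) (he : e ∈ H.edgeSet)
    (hsym : ∀ f f', X f f' → X f' f)
    (hX : ∀ f ∈ H.edgeSet, f ≠ e → {f' | f' ∈ H.edgeSet ∧ f' ≠ e ∧ X f f'}.ncard ≤ 1)
    (hP : PlanarLike (H.deleteEdges {e}) X) (hd1 : ∀ v, deg H v ≠ 1)
    (hW : ∀ u v (p : H.Walk u v), p.IsPath → (∀ c ∈ p.support, c ≠ u → c ≠ v → deg H c = 2) →
      p.length ≤ R) :
    GP H (Dm (3 * R) (rho (3 * R)) + 1) ((8 * rho (3 * R) + 2) * (3 * R)) (wR H R) := by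
  have h := gp_of (3 * R) (8 * rho (3 * R) + 2) (Dm (3 * R) (rho (3 * R)))
    (fun V _ H X x0 y0 h1 h2 h3 h4 h5 h6 => nlc2 (3 * R) (rho (3 * R)) (by unfold rho; omega)
      (rho_ok _) V H X x0 y0 h1 h2 h3 h4 h5 h6) V H e X (wR H R) he hsym
    (fun f hf hfe => (hX f hf hfe).trans (by unfold wR; omega)) hP hd1 (by
      intro u v p hp hin
      rw [wR_sum, SimpleGraph.Walk.length_edges]
      have h1 := hW u v p hp hin
      have h2 : (p.edges.map (cnt H)).sum ≤ 2 := by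
        refine (cnt_path H p hp hin).trans ?_
        split_ifs <;> omega
      have h3 : R * (p.edges.map (cnt H)).sum ≤ R * 2 := Nat.mul_le_mul_left _ h2
      omega)
  have e1 : max (Dm (3 * R) (rho (3 * R)) + 1) 2 = Dm (3 * R) (rho (3 * R)) + 1 := by
    have : 1 ≤ Dm (3 * R) (rho (3 * R)) := by unfold Dm; omega
    omega
  have e2 : max ((8 * rho (3 * R) + 2) * (3 * R)) (3 * R) = (8 * rho (3 * R) + 2) * (3 * R) := by
    refine max_eq_left ?_
    exact Nat.le_mul_of_pos_left _ (by omega)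
  rw [e1, e2] at h
  exact h

/-- the number of crossings of a thread -/
def kx (R : ℕ) : ℕ :=
  2 * (2 * ((8 * rho (3 * R) + 2) * (3 * R) + 1) +
    (Dm (3 * R) (rho (3 * R)) + 2) * (3 * (8 * rho (3 * R) + 2) + 1) +
    8 * ((8 * rho (3 * R) + 2) * (3 * R)))

/-- the weight bounds the length and the degrees -/
theorem wt_bound {V : Type} [Finite V] (G : SimpleGraph V) (R : ℕ) (hR : 1 ≤ R) {u v : V}
    (Q : G.Walk u v) (D : ℕ) (hD : ∀ x ∈ Q.support, x ≠ u → x ≠ v → deg G x ≤ D) (ℓ : ℕ)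
    (hQ : (Q.edges.map (wR G R)).sum ≤ ℓ * (3 * R)) :
    Q.length ≤ ℓ * (3 * R) ∧ ∃ S : Finset V, (∀ y ∈ Q.support, y ≠ u → y ≠ v → y ∈ S) ∧
      ∑ y ∈ S, deg G y ≤ 2 * (ℓ * (3 * R) + 1) + D * (3 * ℓ + 1) := by
  rw [wR_sum, SimpleGraph.Walk.length_edges] at hQ
  obtain ⟨S, h1, h2⟩ := inner_deg G Q D hD
  refine ⟨by omega, S, h1, h2.trans ?_⟩
  have h3 : R * (Q.edges.map (cnt G)).sum ≤ R * (3 * ℓ) := by
    have : ℓ * (3 * R) = R * (3 * ℓ) := by ring
    omega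
  have h4 : (Q.edges.map (cnt G)).sum ≤ 3 * ℓ := Nat.le_of_mul_le_mul_left h3 (by omega)
  have h5 : D * ((Q.edges.map (cnt G)).sum + 1) ≤ D * (3 * ℓ + 1) :=
    Nat.mul_le_mul_left _ (by omega)
  omega

theorem any_c (r R : ℕ) (hr : 1 ≤ r) (V : Type) [Fintype V] (G : SimpleGraph V)
    (h1 : ¬ KPl 1 G) (hcrit : ∀ e ∈ G.edgeSet, KPl 1 (G.deleteEdges {e}))
    (hthr : ThrLen G r R) : KPl (16 + 2 * (kx R / r + 1)) G := by
  classical
  by_cases hcyc : ∀ (x : V) (D : G.Walk x x), D.IsCycle →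
      ∃ u ∈ D.support, ∃ v ∈ D.support, u ≠ v ∧ 3 ≤ deg G u ∧ 3 ≤ deg G v
  swap
  · push Not at hcyc
    obtain ⟨x, D, hD, hno⟩ := hcyc
    refine kpl_le (loop16 G hcrit D hD ?_) (by omega)
    rintro ⟨u, hu, v, hv, huv, h2, h3⟩
    exact absurd (hno u hu v hv huv h2) (by omega)
  have hdeg := crit_deg G h1 hcrit
  have hup : ∀ u v (p : G.Walk u v), p.IsPath →
      (∀ x ∈ p.support, x ≠ u → x ≠ v → deg G x = 2) → p.length ≤ R :=
    fun u v p hp hin => path_le G R hdeg hcyc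
      (fun u v p hp huv hu hv hin => (hthr u v p hp huv hu hv hin).2) p hp hin
  have hne : ∃ e0, e0 ∈ G.edgeSet := by
    by_contra hcon
    push Not at hcon
    have : G = ⊥ := by
      rw [← SimpleGraph.edgeSet_eq_empty]
      exact Set.eq_empty_of_forall_notMem hcon
    exact h1 (this ▸ kpl_bot 1)
  obtain ⟨e0, he0⟩ := hne
  have hR : 1 ≤ R := by
    induction e0 using Sym2.ind with
    | _ a b =>
      have hab : G.Adj a b := he0
      have := hup a b (SimpleGraph.Walk.cons hab SimpleGraph.Walk.nil)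
        (by simp [SimpleGraph.Walk.cons_isPath_iff, hab.ne]) (by
          intro c hc h1 h2
          simp only [SimpleGraph.Walk.support_cons, SimpleGraph.Walk.support_nil, List.mem_cons,
            List.not_mem_nil, or_false] at hc
          rcases hc with hc | hc
          · exact absurd hc h1
          · exact absurd hc h2)
      simpa using this
  obtain ⟨pos, γ, hd, hc⟩ := hcrit e0 he0
  obtain ⟨u0, v0, T0, Q0, g1, g2, g3, g4, g5, g6, g7, g8, -⟩ := gp_any R hR G e0 (CrossRel γ) he0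
    (crossRel_symm γ) (fun f hf hf0 => partner_le G e0 γ hc f hf hf0)
    (planarLike_of_drawing _ pos γ hd) hdeg hup
  obtain ⟨u, v, T, Q, h, hu3, hv3⟩ := gp_ends (⟨g1, g2, g3, g4, g5, g6, g7, g8⟩ :
    IsGP G _ _ _ T0 Q0) hcyc
  obtain ⟨w1, S, w2, w3⟩ := wt_bound G R hR Q _ h.qd _ h.qw
  have hrT := (hthr u v T h.tp h.ne hu3 hv3 h.t2).1
  refine kpl_le (insert_walk G hcrit h.ne T Q h.tp h.t2 h.ed S w2 (kx R / r + 1) ?_) (by omega)
  have h5 : 2 * ((∑ y ∈ S, deg G y) + 8 * Q.length) ≤ kx R := by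
    unfold kx
    have h6 : (Dm (3 * R) (rho (3 * R)) + 1) * (3 * (8 * rho (3 * R) + 2) + 1) ≤
      (Dm (3 * R) (rho (3 * R)) + 2) * (3 * (8 * rho (3 * R) + 2) + 1) :=
      Nat.mul_le_mul_right _ (by omega)
    omega
  refine h5.trans ?_
  calc kx R ≤ (kx R / r + 1) * r := by
        have := Nat.lt_div_mul_add hr (a := kx R)
        rw [Nat.add_mul, Nat.one_mul]
        exact this.le
    _ ≤ (kx R / r + 1) * T.length := Nat.mul_le_mul_left _ hrT

theorem kx_le (R : ℕ) (hR : 1 ≤ R) :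
    kx R ≤ 10 ^ 12 * (R * (Nat.log 2 R + 1) ^ 2) := by
  obtain ⟨L, hL⟩ : ∃ L, L = Nat.log 2 R + 1 := ⟨_, rfl⟩
  rw [← hL]
  have hL1 : 1 ≤ L := by omega
  have h1 : Nat.log 2 (3 * R + 1) ≤ L + 1 := by
    have : Nat.log 2 (3 * R + 1) < L + 2 := by
      apply Nat.log_lt_of_lt_pow (by omega)
      have h2 : R < 2 ^ L := by
        rw [hL]
        exact Nat.lt_pow_succ_log_self (by norm_num) _
      rw [pow_add]
      omega
    omega
  obtain ⟨ρ, hρ⟩ : ∃ ρ, ρ = rho (3 * R) := ⟨_, rfl⟩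
  have h2 : ρ ≤ 24 * L := by
    rw [hρ, rho]
    omega
  have h2' : 20 ≤ ρ := by
    rw [hρ, rho]
    omega
  unfold kx Dm
  rw [← hρ]
  have a1 : 8 * ρ + 2 ≤ 194 * L := by omega
  have a2 : 2 * ρ + 1 ≤ 49 * L := by omega
  have a3 : 4 * ρ + 1 ≤ 97 * L := by omega
  have hRL : 1 ≤ R * L := Nat.mul_pos hR hL1
  have b1 : 6 * (3 * R) * (2 * ρ + 1) ≤ 882 * (R * L) := by
    calc 6 * (3 * R) * (2 * ρ + 1) ≤ 6 * (3 * R) * (49 * L) := Nat.mul_le_mul_left _ a2
      _ = 882 * (R * L) := by ring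
  have b2 : 2 * (3 * R) * (4 * ρ + 1) ≤ 582 * (R * L) := by
    calc 2 * (3 * R) * (4 * ρ + 1) ≤ 2 * (3 * R) * (97 * L) := Nat.mul_le_mul_left _ a3
      _ = 582 * (R * L) := by ring
  have b3 : (8 * ρ + 2) * (3 * R) ≤ 582 * (R * L) := by
    calc (8 * ρ + 2) * (3 * R) ≤ (194 * L) * (3 * R) := Nat.mul_le_mul_right _ a1
      _ = 582 * (R * L) := by ring
  have b4 : R ≤ R * L := Nat.le_mul_of_pos_right _ hL1
  have b5 : 12 * (792 * (6 * (3 * R) * (2 * ρ + 1) + 1) + 3 + (2 * (3 * R) * (4 * ρ + 1) + 1)) +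
      8 * (3 * R + 1) + 2 ≤ 8500000 * (R * L) := by
    generalize 6 * (3 * R) * (2 * ρ + 1) = y1 at *
    generalize 2 * (3 * R) * (4 * ρ + 1) = y2 at *
    generalize R * L = y3 at *
    omega
  have b6 : 3 * (8 * ρ + 2) + 1 ≤ 583 * L := by omega
  have b7 := Nat.mul_le_mul b5 b6
  have b8 : 8500000 * (R * L) * (583 * L) = 4955500000 * (R * L ^ 2) := by ring
  have b9 : R * L ≤ R * L ^ 2 := by
    apply Nat.mul_le_mul_left
    calc L = L * 1 := (Nat.mul_one L).symm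
      _ ≤ L * L := Nat.mul_le_mul_left _ hL1
      _ = L ^ 2 := by ring
  rw [b8] at b7
  generalize (12 * (792 * (6 * (3 * R) * (2 * ρ + 1) + 1) + 3 + (2 * (3 * R) * (4 * ρ + 1) + 1)) +
      8 * (3 * R + 1) + 2) * (3 * (8 * ρ + 2) + 1) = z1 at *
  generalize (8 * ρ + 2) * (3 * R) = z2 at *
  generalize R * L ^ 2 = z3 at *
  generalize R * L = z4 at *
  omega

/-- 1-planar-critical graphs with threads of length between `r` and `R`, all degrees allowed -/
theorem main_any : ∃ c : ℕ, ∀ (r R : ℕ) (V : Type) [Fintype V] (G : SimpleGraph V), 1 ≤ r →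
    ¬ KPl 1 G → (∀ e ∈ G.edgeSet, KPl 1 (G.deleteEdges {e})) → ThrLen G r R →
    KPl (c * ((R / r + 1) * (Nat.log 2 R + 1) ^ 2)) G := by
  refine ⟨18 + 2 * 10 ^ 12, fun r R V _ G hr h1 hcrit hthr => ?_⟩
  refine kpl_le (any_c r R hr V G h1 hcrit hthr) ?_
  rcases Nat.eq_zero_or_pos R with hR | hR
  · subst hR
    have : kx 0 / r ≤ kx 0 := Nat.div_le_self _ _
    have h2 : kx 0 ≤ 10 ^ 12 := by
      unfold kx Dm rho
      norm_num
    simp only [Nat.zero_div, Nat.log_zero_right]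
    omega
  · obtain ⟨L2, hL2⟩ : ∃ L2, L2 = (Nat.log 2 R + 1) ^ 2 := ⟨_, rfl⟩
    have hk := kx_le R hR
    rw [← hL2] at hk ⊢
    have hL1 : 1 ≤ L2 := by
      rw [hL2]
      exact Nat.one_le_pow _ _ (by omega)
    have h3 : kx R / r ≤ 10 ^ 12 * ((R / r + 1) * L2) := by
      apply Nat.div_le_of_le_mul
      refine hk.trans ?_
      have h4 : R ≤ r * (R / r + 1) := by
        have := Nat.lt_mul_div_succ R hr
        exact this.le
      calc 10 ^ 12 * (R * L2) ≤ 10 ^ 12 * ((r * (R / r + 1)) * L2) :=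
            Nat.mul_le_mul_left _ (Nat.mul_le_mul_right _ h4)
        _ = r * (10 ^ 12 * ((R / r + 1) * L2)) := by ring
    have h5 : 1 ≤ (R / r + 1) * L2 := Nat.mul_pos (Nat.succ_pos _) hL1
    generalize (R / r + 1) * L2 = y at *
    generalize kx R / r = z at *
    omega

end Pool.Agent.Helper71.QU
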