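import Pool.Agent.Helper83.OP.Final

/-!
# QU: an additional arc, the number of crossings by the sum of the degrees
-/

open Set
open Pool.Agent.Helper83.OP

namespace Pool.Agent.Helper71.QU

theorem aug_sum {V : Type} [Finite V] (H : SimpleGraph V) (hH : KPl 1 H) (u v : V) (huv : u ≠ v)
    (Q : H.Walk u v) (S : Finset V) (hS : ∀ y ∈ Q.support, y ≠ u → y ≠ v → y ∈ S) (K : ℕ)
    (hK : 2 * ((∑ y ∈ S, deg H y) + 8 * Q.length) ≤ K) : Aug H u v K := by
  classical
  obtain ⟨pos0, γ0, hd0, hc0⟩ := hH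
  obtain ⟨Z, ⟨P0⟩⟩ := planarize H pos0 γ0 hd0 fun e he => by simpa using hc0 e he
  have : Finite Z.J := Z.fin
  have hst : ∀ i, Z.src i ≠ Z.tgt i := by
    rintro ⟨f, b⟩
    cases b with
    | false => exact Z.vn_ne _ _
    | true => exact (Z.vn_ne _ _).symm
  obtain ⟨L⟩ := exists_layout hst P0
  obtain ⟨p, hp, hplen, hpsup⟩ := node_path H Z u v huv Q
  set inner : Set Z.J := {x | x ∈ p.support ∧ x ≠ Z.vn u ∧ x ≠ Z.vn v} with hinner
  obtain ⟨P1, P2, Zs, ha, hb, hcs, hds, he⟩ := exists_aug L hst inner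
  have hvn : Z.vn u ≠ Z.vn v := fun h => huv (Z.vn_inj h)
  obtain ⟨As, hAs, hArc, hAdeg⟩ := path_arc P2 _ (Z.vn u) (Z.vn v) hvn p hp
  obtain ⟨γ, hdr, hcr, hγ⟩ := reasm H Z P1
  have hposu : P2.pos (Z.vn u) = P1.pos (Z.vn u) := (ha _ fun h => h.2.1 rfl).symm
  have hposv : P2.pos (Z.vn v) = P1.pos (Z.vn v) := (ha _ fun h => h.2.2 rfl).symm
  have : Fintype Z.J := Fintype.ofFinite _
  have : Fintype (H.edgeSet × Bool) := Fintype.ofFinite _
  -- the arcs of the path at a node
  set inA : Z.J → Finset (H.edgeSet × Bool) :=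
    fun x => As.filter (fun i => Z.src i = x ∨ Z.tgt i = x) with hinA
  have hinAcard : ∀ x, (inA x).card ≤ 2 := by
    intro x
    have h1 := hAdeg x
    have h2 : {i | i ∈ As ∧ (Z.src i = x ∨ Z.tgt i = x)} = ((inA x : Finset _) : Set _) := by
      ext i
      simp [hinA]
    rw [h2, Set.ncard_coe_finset] at h1
    exact h1
  set inc : Z.J → Finset (H.edgeSet × Bool) :=
    fun x => Finset.univ.filter (fun i => Z.src i = x ∨ Z.tgt i = x) with hinc
  have hinccard : ∀ x, (inc x).card = {i | Z.src i = x ∨ Z.tgt i = x}.ncard := by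
    intro x
    have h2 : {i | Z.src i = x ∨ Z.tgt i = x} = ((inc x : Finset _) : Set _) := by
      ext i
      simp [hinc]
    rw [h2, Set.ncard_coe_finset]
  -- the key fact on the points of the new arc
  have key : ∀ (f : H.edgeSet) (q : ℝ × ℝ), q ∈ (⋃ i ∈ As, P2.arc i) →
      q ∈ γ f '' Icc (0 : ℝ) 1 → q ≠ P1.pos (Z.vn u) → q ≠ P1.pos (Z.vn v) →
      ∃ (b : Bool) (j : Z.J) (k : H.edgeSet × Bool), j ∈ inner ∧
        (Z.src (f, b) = j ∨ Z.tgt (f, b) = j) ∧ k ∈ inA j ∧ q ∈ Zs j (f, b) k := by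
    intro f q hq hqf hqu hqv
    rw [hγ f] at hqf
    obtain ⟨k, hk, hqk⟩ := Set.mem_iUnion₂.1 hq
    obtain ⟨b, hqb⟩ : ∃ b, q ∈ P1.arc (f, b) := by
      rcases hqf with h | h
      · exact ⟨false, h⟩
      · exact ⟨true, h⟩
    obtain ⟨j, hj1, hj2, hj3⟩ := he (f, b) k q hqb hqk
    have hjsup : j ∈ p.support := by
      rcases hj2 with h | h
      · rw [h]; exact (hAs k hk).2.1
      · rw [h]; exact (hAs k hk).2.2
    have hjin : j ∈ inner := by
      by_contra hjn
      have h1 : q = P1.pos j := hds j hjn _ _ hj3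
      by_cases hju : j = Z.vn u
      · exact hqu (by rw [h1, hju])
      · by_cases hjv : j = Z.vn v
        · exact hqv (by rw [h1, hjv])
        · exact hjn ⟨hjsup, hju, hjv⟩
    refine ⟨b, j, k, hjin, ?_, ?_, hj3⟩
    · rcases hj1 with h | h
      · exact Or.inl h.symm
      · exact Or.inr h.symm
    · rw [hinA]
      refine Finset.mem_filter.2 ⟨hk, ?_⟩
      rcases hj2 with h | h
      · exact Or.inl h.symm
      · exact Or.inr h.symm
  refine ⟨fun w => P1.pos (Z.vn w), γ, ⋃ i ∈ As, P2.arc i, hdr, hcr, ?_, ?_, ?_, ?_⟩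
  · show IsArc _ (P1.pos (Z.vn u)) (P1.pos (Z.vn v))
    rw [← hposu, ← hposv]
    exact hArc
  · intro w hwu hwv hw
    obtain ⟨k, hk, hwk⟩ := Set.mem_iUnion₂.1 hw
    by_cases hin : Z.vn w ∈ inner
    · exact hb _ hin k hwk
    · have h1 : P1.pos (Z.vn w) = P2.pos (Z.vn w) := ha _ hin
      have hwk' : P2.pos (Z.vn w) ∈ P2.arc k := by rw [← h1]; exact hwk
      apply hin
      refine ⟨?_, fun h => hwu (Z.vn_inj h), fun h => hwv (Z.vn_inj h)⟩
      rcases P2.nodes k _ hwk' with h | h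
      · rw [h]; exact (hAs k hk).2.1
      · rw [h]; exact (hAs k hk).2.2
  · intro f hf
    set f' : H.edgeSet := ⟨f, hf⟩ with hf'
    let T : Finset (Z.J × (H.edgeSet × Bool) × (H.edgeSet × Bool)) :=
      (Finset.univ : Finset Bool).biUnion fun b =>
        ({Z.src (f', b), Z.tgt (f', b)} : Finset Z.J).biUnion fun j =>
          (inA j).image (fun k => (j, (f', b), k))
    have hTcard : T.card ≤ 8 := by
      refine Finset.card_biUnion_le.trans ?_
      have h1 : ∀ b : Bool, (({Z.src (f', b), Z.tgt (f', b)} : Finset Z.J).biUnion fun j =>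
          (inA j).image (fun k => (j, (f', b), k))).card ≤ 4 := by
        intro b
        refine Finset.card_biUnion_le.trans ?_
        refine (Finset.sum_le_card_nsmul _ _ 2 fun j _ =>
          Finset.card_image_le.trans (hinAcard j)).trans ?_
        have h2 : ({Z.src (f', b), Z.tgt (f', b)} : Finset Z.J).card ≤ 2 :=
          Finset.card_le_two
        rw [smul_eq_mul]
        omega
      refine (Finset.sum_le_card_nsmul _ _ 4 fun b _ => h1 b).trans ?_
      simp
    have hsub : {q | q ∈ (⋃ i ∈ As, P2.arc i) ∧ q ∈ γ f '' Icc (0 : ℝ) 1 ∧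
        q ≠ P1.pos (Z.vn u) ∧ q ≠ P1.pos (Z.vn v)} ⊆ ⋃ t ∈ T, Zs t.1 t.2.1 t.2.2 := by
      rintro q ⟨hq1, hq2, hq3, hq4⟩
      obtain ⟨b, j, k, hj1, hj2, hj3, hj4⟩ := key f' q hq1 hq2 hq3 hq4
      refine Set.mem_iUnion₂.2 ⟨(j, (f', b), k), ?_, hj4⟩
      refine Finset.mem_biUnion.2 ⟨b, Finset.mem_univ _, ?_⟩
      refine Finset.mem_biUnion.2 ⟨j, ?_, ?_⟩
      · rw [Finset.mem_insert, Finset.mem_singleton]
        rcases hj2 with h | h
        · exact Or.inl h.symm
        · exact Or.inr h.symm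
      · exact Finset.mem_image.2 ⟨k, hj3, rfl⟩
    refine (Set.encard_le_encard hsub).trans ?_
    refine (augEx_encard_biUnion T (fun t => Zs t.1 t.2.1 t.2.2) fun t _ => hcs _ _ _).trans ?_
    exact_mod_cast hTcard
  · -- the total number of crossings
    set innerF : Finset Z.J := Finset.univ.filter (fun x => x ∈ inner) with hinnerF
    have hinnercard : innerF.card ≤ 2 * Q.length := by
      have h1 : innerF ⊆ p.support.toFinset.erase (Z.vn u) := by
        intro x hx
        have hx' := (Finset.mem_filter.1 hx).2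
        rw [Finset.mem_erase, List.mem_toFinset]
        exact ⟨hx'.2.1, hx'.1⟩
      have h2 := Finset.card_le_card h1
      have h3 : (p.support.toFinset.erase (Z.vn u)).card + 1 = p.support.toFinset.card :=
        Finset.card_erase_add_one (List.mem_toFinset.2 p.start_mem_support)
      have h4 : p.support.toFinset.card ≤ p.support.length := List.toFinset_card_le _
      rw [SimpleGraph.Walk.length_support] at h4
      omega
    have hinner4 : ∀ x ∈ innerF, x ∉ S.image Z.vn → (inc x).card ≤ 4 := by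
      intro x hx hxS
      have hx' := (Finset.mem_filter.1 hx).2
      rw [hinccard]
      rcases hpsup x hx'.1 with ⟨y, hy, rfl⟩ | ⟨f, rfl⟩
      · exact absurd (Finset.mem_image_of_mem _ (hS y hy (fun h => hx'.2.1 (by rw [h]))
          (fun h => hx'.2.2 (by rw [h])))) hxS
      · exact (node_deg H Z).2 f
    have hincsum : ∑ x ∈ innerF, (inc x).card ≤ (∑ y ∈ S, deg H y) + 8 * Q.length := by
      have e1 : ∑ x ∈ innerF, (inc x).card ≤
          ∑ x ∈ innerF, ((if x ∈ S.image Z.vn then (inc x).card else 0) + 4) := by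
        refine Finset.sum_le_sum fun x hx => ?_
        by_cases hxS : x ∈ S.image Z.vn
        · rw [if_pos hxS]
          omega
        · rw [if_neg hxS]
          have := hinner4 x hx hxS
          omega
      rw [Finset.sum_add_distrib, Finset.sum_const, smul_eq_mul, ← Finset.sum_filter] at e1
      have e2 : ∑ x ∈ innerF.filter (fun x => x ∈ S.image Z.vn), (inc x).card ≤
          ∑ x ∈ S.image Z.vn, (inc x).card :=
        Finset.sum_le_sum_of_subset_of_nonneg
          (fun x hx => (Finset.mem_filter.1 hx).2) (fun _ _ _ => Nat.zero_le _)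
      have e3 : ∑ x ∈ S.image Z.vn, (inc x).card = ∑ y ∈ S, (inc (Z.vn y)).card :=
        Finset.sum_image (fun a _ b _ h => Z.vn_inj h)
      have e4 : ∑ y ∈ S, (inc (Z.vn y)).card ≤ ∑ y ∈ S, deg H y := by
        refine Finset.sum_le_sum fun y _ => ?_
        rw [hinccard]
        exact (node_deg H Z).1 y
      omega
    let T : Finset (Z.J × (H.edgeSet × Bool) × (H.edgeSet × Bool)) :=
      innerF.biUnion fun j => ((inc j) ×ˢ (inA j)).image (fun ik => (j, ik.1, ik.2))
    have hTcard : T.card ≤ K := by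
      refine le_trans ?_ hK
      refine Finset.card_biUnion_le.trans ?_
      have h1 : ∀ j ∈ innerF, (((inc j) ×ˢ (inA j)).image
          (fun ik : (H.edgeSet × Bool) × (H.edgeSet × Bool) => (j, ik.1, ik.2))).card ≤
            2 * (inc j).card := by
        intro j hj
        refine Finset.card_image_le.trans ?_
        rw [Finset.card_product, Nat.mul_comm]
        exact Nat.mul_le_mul_right _ (hinAcard j)
      refine (Finset.sum_le_sum h1).trans ?_
      rw [← Finset.mul_sum]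
      exact Nat.mul_le_mul_left _ hincsum
    have hsub : {q : Sym2 V × (ℝ × ℝ) | q.1 ∈ H.edgeSet ∧ q.2 ∈ (⋃ i ∈ As, P2.arc i) ∧
        q.2 ∈ γ q.1 '' Icc (0 : ℝ) 1 ∧ q.2 ≠ P1.pos (Z.vn u) ∧ q.2 ≠ P1.pos (Z.vn v)} ⊆
        ⋃ t ∈ T, {q : Sym2 V × (ℝ × ℝ) | q.1 = (t.2.1.1 : Sym2 V) ∧ q.2 ∈ Zs t.1 t.2.1 t.2.2} := by
      rintro ⟨f, q⟩ ⟨hf, hq1, hq2, hq3, hq4⟩
      obtain ⟨b, j, k, hj1, hj2, hj3, hj4⟩ := key ⟨f, hf⟩ q hq1 hq2 hq3 hq4
      refine Set.mem_iUnion₂.2 ⟨(j, (⟨f, hf⟩, b), k), ?_, rfl, hj4⟩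
      refine Finset.mem_biUnion.2 ⟨j, Finset.mem_filter.2 ⟨Finset.mem_univ _, hj1⟩, ?_⟩
      refine Finset.mem_image.2 ⟨((⟨f, hf⟩, b), k), ?_, rfl⟩
      rw [Finset.mem_product]
      exact ⟨Finset.mem_filter.2 ⟨Finset.mem_univ _, hj2⟩, hj3⟩
    refine (Set.encard_le_encard hsub).trans ?_
    refine (augEx_encard_biUnion T _ ?_).trans ?_
    · rintro t _ ⟨e1, q1⟩ h1 ⟨e2, q2⟩ h2
      have h3 : e1 = e2 := h1.1.trans h2.1.symm
      have h4 : q1 = q2 := hcs _ _ _ h1.2 h2.2
      rw [h3, h4]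
    · exact_mod_cast hTcard

end Pool.Agent.Helper71.QU
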