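import Pool.Agent.Helper71.QU.Nlc2

/-!
# QU: counting clusters in a graph with some vertices of small degree
-/

open Set
open Pool.Agent.Helper83.OP

namespace Pool.Agent.Helper71.QU

section Cnt

variable {V : Type} [Finite V] {H : SimpleGraph V} {N : Set V} {ρ : ℕ}

private theorem og_sum (K : Clus H N ρ) (s : V) :
    ∃ f : V → ℕ, (∀ v, f v = deg H v) ∧ ∃ C : Finset V, (C : Set V) = K.cl s ∧
      ∑ v ∈ C, f v = {e : V × V | e.1 ∈ K.cl s ∧ H.Adj e.1 e.2}.ncard := by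
  classical
  have := Fintype.ofFinite V
  refine ⟨deg H, fun _ => rfl, (Set.toFinite (K.cl s)).toFinset, by simp, ?_⟩
  have h1 : {e : V × V | e.1 ∈ K.cl s ∧ H.Adj e.1 e.2}.ncard =
      (Finset.univ.filter fun e : V × V => e.1 ∈ K.cl s ∧ H.Adj e.1 e.2).card := by
    rw [← Set.ncard_coe_finset]
    congr 1
    ext e
    simp
  rw [h1, Finset.card_eq_sum_card_fiberwise (f := Prod.fst)
    (t := (Set.toFinite (K.cl s)).toFinset)]
  · refine Finset.sum_congr rfl fun v hv => ?_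
    have hv' : v ∈ K.cl s := by simpa using hv
    rw [deg, ← Set.ncard_coe_finset]
    refine Set.ncard_congr (fun w _ => (v, w)) ?_ ?_ ?_
    · intro w hw
      simp only [Finset.coe_filter, Finset.mem_filter, Finset.mem_univ, true_and,
        Set.mem_ofPred_eq]
      exact ⟨⟨hv', hw⟩, trivial⟩
    · intro a b _ _ hab
      exact (Prod.mk.inj hab).2
    · rintro ⟨a, b⟩ hab
      simp only [Finset.coe_filter, Finset.mem_univ, true_and, Finset.mem_filter,
        Set.mem_ofPred_eq] at hab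
      obtain ⟨⟨_, h2⟩, rfl⟩ := hab
      exact ⟨b, h2, rfl⟩
  · intro e he
    simp only [Finset.coe_filter, Finset.mem_univ, true_and, Set.mem_ofPred_eq] at he
    simpa using he.1

/-- the number of missing edges of the cluster of `s` -/
noncomputable def dfc (K : Clus H N ρ) (s : V) : ℕ :=
  ∑ v ∈ (Set.toFinite (K.cl s)).toFinset, (3 - deg H v)

theorem out_ge2 (K : Clus H N ρ) (hK : K.Tidy) (s : V) (hs : s ∈ K.Ctr) :
    (K.cl s).ncard + 2 ≤ (K.cOut s).ncard + (K.hOut s).ncard + dfc K s := by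
  classical
  obtain ⟨f, hf, C, hC, hsum⟩ := og_sum K s
  have hss : s ∈ K.cl s := ⟨hs.1, hs.2⟩
  have hCt : (Set.toFinite (K.cl s)).toFinset = C := by
    ext v
    rw [Set.Finite.mem_toFinset, ← hC, Finset.mem_coe]
  -- lower bound of the degree sum
  have hlow : 3 * C.card ≤ ∑ v ∈ C, f v + dfc K s := by
    unfold dfc
    rw [hCt, ← Finset.sum_add_distrib, mul_comm, ← smul_eq_mul, ← Finset.sum_const]
    refine Finset.sum_le_sum fun v _ => ?_
    rw [hf v]
    omega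
  -- the edges
  have hsplit : {e : V × V | e.1 ∈ K.cl s ∧ H.Adj e.1 e.2} =
      {e : V × V | e.1 ∈ K.cl s ∧ e.2 ∈ K.cl s ∧ H.Adj e.1 e.2} ∪ K.cOut s ∪ K.hOut s := by
    ext e
    simp only [Clus.cl, Clus.cOut, Clus.hOut, Set.mem_union, Set.mem_ofPred_eq]
    by_cases h : e.2 ∈ N <;> tauto
  have hin : {e : V × V | e.1 ∈ K.cl s ∧ e.2 ∈ K.cl s ∧ H.Adj e.1 e.2}.ncard ≤
      2 * (C.card - 1) := by
    have hsub : {e : V × V | e.1 ∈ K.cl s ∧ e.2 ∈ K.cl s ∧ H.Adj e.1 e.2} ⊆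
        (fun v => (v, K.par v)) '' ((C.erase s : Finset V) : Set V) ∪
          (fun v => (K.par v, v)) '' ((C.erase s : Finset V) : Set V) := by
      rintro ⟨v, w⟩ ⟨hv, hw, hvw⟩
      have hds : K.d s = 0 := by
        have := K.d_ctr s hs.1
        rwa [hs.2] at this
      rcases hK.tree v hv.1 w hw.1 hvw (hv.2.trans hw.2.symm) with ⟨h1, h2⟩ | ⟨h1, h2⟩
      · left
        refine ⟨v, ?_, ?_⟩
        · rw [Finset.coe_erase, hC]
          refine ⟨hv, ?_⟩
          rintro rfl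
          exact h1 hds
        · simp only [h2]
      · right
        refine ⟨w, ?_, ?_⟩
        · rw [Finset.coe_erase, hC]
          refine ⟨hw, ?_⟩
          rintro rfl
          exact h1 hds
        · simp only [h2]
    have hsC : s ∈ C := by
      rw [← Finset.mem_coe, hC]
      exact hss
    have hcard : (C.erase s).card = C.card - 1 := Finset.card_erase_of_mem hsC
    refine (Set.ncard_le_ncard hsub (Set.toFinite _)).trans ?_
    refine (Set.ncard_union_le _ _).trans ?_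
    have i1 := Set.ncard_image_le (f := fun v => (v, K.par v))
      (s := ((C.erase s : Finset V) : Set V)) (Set.toFinite _)
    have i2 := Set.ncard_image_le (f := fun v => (K.par v, v))
      (s := ((C.erase s : Finset V) : Set V)) (Set.toFinite _)
    rw [Set.ncard_coe_finset, hcard] at i1 i2
    omega
  have hle : {e : V × V | e.1 ∈ K.cl s ∧ H.Adj e.1 e.2}.ncard ≤
      2 * (C.card - 1) + (K.cOut s).ncard + (K.hOut s).ncard := by
    rw [hsplit]
    have j1 := Set.ncard_union_le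
      ({e : V × V | e.1 ∈ K.cl s ∧ e.2 ∈ K.cl s ∧ H.Adj e.1 e.2} ∪ K.cOut s) (K.hOut s)
    have j2 := Set.ncard_union_le
      {e : V × V | e.1 ∈ K.cl s ∧ e.2 ∈ K.cl s ∧ H.Adj e.1 e.2} (K.cOut s)
    omega
  have hcl : (K.cl s).ncard = C.card := by rw [← hC, Set.ncard_coe_finset]
  have hpos : 1 ≤ C.card := by
    rw [← hcl]
    exact (Set.ncard_pos (Set.toFinite _)).mpr ⟨s, hss⟩
  rw [hcl]
  omega

/-- the total number of missing edges -/
noncomputable def dft (H : SimpleGraph V) (N : Set V) : ℕ :=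
  ∑ v ∈ (Set.toFinite N).toFinset, (3 - deg H v)

theorem cnt_main (K : Clus H N ρ) (hK : K.Tidy) (hρ : 1 ≤ ρ) (m : ℕ)
    (hρ2 : 96 * (2 * m * (4 * ρ + 1) + 1) ≤ 2 ^ (ρ - 1)) (X : Sym2 V → Sym2 V → Prop)
    (hX : ∀ f ∈ H.edgeSet, {f' | f' ∈ H.edgeSet ∧ X f f'}.ncard ≤ m) (hP : PlanarLike H X) :
    N.ncard + 2 * K.Ctr.ncard ≤
      {e : V × V | e.1 ∈ N ∧ e.2 ∈ N ∧ H.Adj e.1 e.2 ∧ K.ctr e.1 ≠ K.ctr e.2}.ncard +
      {e : V × V | e.1 ∈ N ∧ e.2 ∉ N ∧ H.Adj e.1 e.2}.ncard + dft H N ∧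
    3 * K.Ctr.ncard ≤ 4 * {s | s ∈ K.Ctr ∧ 3 ≤ (K.hOut s).ncard}.ncard + 4 * dft H N := by
  classical
  have := Fintype.ofFinite V
  obtain ⟨Mm, hMm⟩ : ∃ Mm, Mm = 2 * m * (4 * ρ + 1) + 1 := ⟨_, rfl⟩
  set p := K.Ctr.ncard with hp
  set τ := {s | s ∈ K.Ctr ∧ 3 ≤ (K.hOut s).ncard}.ncard with hτ
  set Cf : Finset V := K.Ctr.toFinset with hCf
  have hpCf : p = Cf.card := Set.ncard_eq_toFinset_card' _
  have hctr : ∀ v ∈ N, K.ctr v ∈ Cf := by
    intro v hv
    rw [hCf, Set.mem_toFinset]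
    exact ⟨K.ctr_mem v hv, K.ctr_ctr v hv⟩
  set B2 := {e : V × V | e.1 ∈ N ∧ e.2 ∈ N ∧ H.Adj e.1 e.2 ∧ K.ctr e.1 ≠ K.ctr e.2}.ncard with hB2
  set A := {e : V × V | e.1 ∈ N ∧ e.2 ∉ N ∧ H.Adj e.1 e.2}.ncard with hA
  have sN : N.ncard = ∑ s ∈ Cf, (K.cl s).ncard := by
    rw [ncard_fiber N Cf K.ctr hctr]
    rfl
  have sB : B2 = ∑ s ∈ Cf, (K.cOut s).ncard := by
    rw [hB2, ncard_fiber _ Cf (fun e : V × V => K.ctr e.1) (fun e he => hctr _ he.1)]
    refine Finset.sum_congr rfl fun s _ => ?_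
    congr 1
    ext e
    constructor
    · rintro ⟨⟨a1, a2, a3, a4⟩, a5⟩
      exact ⟨a1, a2, a3, a5, fun h => a4 (a5.trans h.symm)⟩
    · rintro ⟨a1, a2, a3, a4, a5⟩
      exact ⟨⟨a1, a2, a3, fun h => a5 (h.symm.trans a4)⟩, a4⟩
  have sA : A = ∑ s ∈ Cf, (K.hOut s).ncard := by
    rw [hA, ncard_fiber _ Cf (fun e : V × V => K.ctr e.1) (fun e he => hctr _ he.1)]
    refine Finset.sum_congr rfl fun s _ => ?_
    congr 1
    ext e
    constructor
    · rintro ⟨⟨a1, a2, a3⟩, a4⟩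
      exact ⟨a1, a4, a2, a3⟩
    · rintro ⟨a1, a2, a3, a4⟩
      exact ⟨⟨a1, a3, a4⟩, a2⟩
  have sD : dft H N = ∑ s ∈ Cf, dfc K s := by
    unfold dft dfc
    rw [← Finset.sum_fiberwise_of_maps_to (s := (Set.toFinite N).toFinset) (t := Cf) (g := K.ctr)
      (fun v hv => hctr v ((Set.Finite.mem_toFinset _).1 hv))]
    refine Finset.sum_congr rfl fun s _ => ?_
    refine Finset.sum_congr ?_ fun _ _ => rfl
    ext v
    rw [Finset.mem_filter, Set.Finite.mem_toFinset, Set.Finite.mem_toFinset]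
    rfl
  refine ⟨?_, ?_⟩
  · have : ∑ s ∈ Cf, ((K.cl s).ncard + 2) ≤
        ∑ s ∈ Cf, ((K.cOut s).ncard + (K.hOut s).ncard + dfc K s) :=
      Finset.sum_le_sum fun s hs => out_ge2 K hK s (by
        rw [hCf, Set.mem_toFinset] at hs; exact hs)
    rw [Finset.sum_add_distrib, Finset.sum_add_distrib, Finset.sum_add_distrib, ← sN, ← sB, ← sA,
      ← sD, Finset.sum_const, smul_eq_mul, ← hpCf] at this
    omega
  · set G := Cf.filter (fun s => (K.hOut s).ncard ≤ 2 ∧ dfc K s = 0) with hG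
    have g1 : 96 * Mm * G.card ≤ B2 := by
      rw [sB]
      calc 96 * Mm * G.card = ∑ s ∈ G, 96 * Mm := by rw [Finset.sum_const, smul_eq_mul, mul_comm]
        _ ≤ ∑ s ∈ G, (K.cOut s).ncard := by
          refine Finset.sum_le_sum fun s hs => ?_
          rw [hG, Finset.mem_filter, hCf, Set.mem_toFinset] at hs
          obtain ⟨hs1, hs2, hs3⟩ := hs
          have e1 := out_ge2 K hK s hs1
          have e2 := growth K hK hρ s hs1 (fun v hv => by
            unfold dfc at hs3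
            rw [Finset.sum_eq_zero_iff] at hs3
            have := hs3 v ((Set.Finite.mem_toFinset _).2 hv)
            omega) hs2
          rw [hs3] at e1
          rw [hMm]
          omega
        _ ≤ ∑ s ∈ Cf, (K.cOut s).ncard :=
          Finset.sum_le_sum_of_subset_of_nonneg (Finset.filter_subset _ _)
            (fun _ _ _ => Nat.zero_le _)
    have g2 : B2 ≤ 24 * Mm * p := by rw [hMm]; exact cc_bound X m hX hP K hK
    have g3 : p ≤ G.card + τ + dft H N := by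
      set Bd := Cf.filter (fun s => dfc K s ≠ 0) with hBd
      have : Cf ⊆ G ∪ {s | s ∈ K.Ctr ∧ 3 ≤ (K.hOut s).ncard}.toFinset ∪ Bd := by
        intro s hs
        have hs' := hs
        rw [hCf, Set.mem_toFinset] at hs'
        by_cases a1 : 3 ≤ (K.hOut s).ncard
        · refine Finset.mem_union_left _ (Finset.mem_union_right _ ?_)
          rw [Set.mem_toFinset]; exact ⟨hs', a1⟩
        by_cases a2 : dfc K s = 0
        · refine Finset.mem_union_left _ (Finset.mem_union_left _ ?_)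
          rw [hG, Finset.mem_filter]
          exact ⟨hs, by omega, a2⟩
        · refine Finset.mem_union_right _ ?_
          rw [hBd, Finset.mem_filter]
          exact ⟨hs, a2⟩
      have c1 := Finset.card_le_card this
      have c2 := Finset.card_union_le
        (G ∪ {s | s ∈ K.Ctr ∧ 3 ≤ (K.hOut s).ncard}.toFinset) Bd
      have c3 := Finset.card_union_le G {s | s ∈ K.Ctr ∧ 3 ≤ (K.hOut s).ncard}.toFinset
      have c4 : Bd.card ≤ dft H N := by
        rw [sD]
        calc Bd.card = ∑ s ∈ Bd, 1 := by rw [Finset.card_eq_sum_ones]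
          _ ≤ ∑ s ∈ Bd, dfc K s := by
            refine Finset.sum_le_sum fun s hs => ?_
            rw [hBd, Finset.mem_filter] at hs
            omega
          _ ≤ ∑ s ∈ Cf, dfc K s :=
            Finset.sum_le_sum_of_subset_of_nonneg (Finset.filter_subset _ _)
              (fun _ _ _ => Nat.zero_le _)
      have c5 : τ = {s | s ∈ K.Ctr ∧ 3 ≤ (K.hOut s).ncard}.toFinset.card :=
        Set.ncard_eq_toFinset_card' _
      omega
    have hMpos : 0 < 24 * Mm := by omega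
    have g4 : 24 * Mm * (4 * G.card) ≤ 24 * Mm * p := by
      refine le_trans (le_of_eq ?_) (g1.trans g2)
      ring
    have g5 : 4 * G.card ≤ p := Nat.le_of_mul_le_mul_left g4 hMpos
    omega

end Cnt

private theorem dart_count {V : Type} [Finite V] (Γ : SimpleGraph V) :
    {e : V × V | Γ.Adj e.1 e.2}.ncard = 2 * Γ.edgeSet.ncard := by
  classical
  have := Fintype.ofFinite V
  have h1 := Γ.dart_card_eq_twice_card_edges
  have h2 : Γ.edgeFinset.card = Γ.edgeSet.ncard := by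
    rw [← Set.ncard_coe_finset, SimpleGraph.coe_edgeFinset]
  rw [← h2, ← h1, ← Nat.card_eq_fintype_card, ← Nat.card_coe_set_eq]
  exact Nat.card_congr
    { toFun := fun e => ⟨e.1, e.2⟩
      invFun := fun d => ⟨d.toProd, d.adj⟩
      left_inv := fun _ => rfl
      right_inv := fun _ => rfl }

/-- the darts that leave hubs -/
theorem hub_darts {V : Type} [Finite V] (H : SimpleGraph V) (X : Sym2 V → Sym2 V → Prop) (m : ℕ)
    (hsym : ∀ f f', X f f' → X f' f)
    (hX : ∀ f ∈ H.edgeSet, {f' | f' ∈ H.edgeSet ∧ X f f'}.ncard ≤ m) (hP : PlanarLike H X)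
    (N : Set V) :
    {e : V × V | e.1 ∉ N ∧ H.Adj e.1 e.2}.ncard ≤
      {e : V × V | e.1 ∈ N ∧ e.2 ∉ N ∧ H.Adj e.1 e.2}.ncard +
        8 * (m + 1) * {g | g ∉ N ∧ deg H g ≠ 0}.ncard := by
  classical
  set S : Set (V × V) := {e | e.1 ∉ N ∧ H.Adj e.1 e.2} with hS
  have hhub : ∀ a b, a ∉ N → H.Adj a b → a ∈ {g | g ∉ N ∧ deg H g ≠ 0} := by
    intro a b ha hab
    refine ⟨ha, ?_⟩
    unfold deg
    rw [Ne, Set.ncard_eq_zero]
    intro hemp
    have : b ∈ H.neighborSet a := hab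
    rw [hemp] at this
    exact this
  -- the subgraph of the edges between hubs
  let Hh : SimpleGraph V :=
    { Adj := fun a b => H.Adj a b ∧ a ∉ N ∧ b ∉ N
      symm := ⟨fun a b h => ⟨h.1.symm, h.2.2, h.2.1⟩⟩
      loopless := ⟨fun a h => h.1.ne rfl⟩ }
  have hle : Hh ≤ H := fun a b h => h.1
  have h2 : S ⊆ Prod.swap '' {e : V × V | e.1 ∈ N ∧ e.2 ∉ N ∧ H.Adj e.1 e.2} ∪
      {e : V × V | Hh.Adj e.1 e.2} := by
    rintro ⟨a, b⟩ ⟨ha, hab⟩
    by_cases hb : b ∈ N
    · exact Or.inl ⟨(b, a), ⟨hb, ha, hab.symm⟩, rfl⟩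
    · exact Or.inr ⟨hab, ha, hb⟩
  have h3 := Set.ncard_le_ncard h2 (Set.toFinite _)
  have h4 := Set.ncard_union_le (Prod.swap '' {e : V × V | e.1 ∈ N ∧ e.2 ∉ N ∧ H.Adj e.1 e.2})
    {e : V × V | Hh.Adj e.1 e.2}
  have h5 : (Prod.swap '' {e : V × V | e.1 ∈ N ∧ e.2 ∉ N ∧ H.Adj e.1 e.2}).ncard ≤
      {e : V × V | e.1 ∈ N ∧ e.2 ∉ N ∧ H.Adj e.1 e.2}.ncard := Set.ncard_image_le (Set.toFinite _)
  have h6 := dart_count Hh
  have h7 := edge_bound (H := Hh) X m hsym (fun f hf => by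
    refine le_trans (Set.ncard_le_ncard ?_ (Set.toFinite _)) (hX f (SimpleGraph.edgeSet_mono hle hf))
    rintro f' ⟨a, b⟩
    exact ⟨SimpleGraph.edgeSet_mono hle a, b⟩) (PlanarLike.mono hle hP)
  have h8 : {v | deg Hh v ≠ 0}.ncard ≤ {g | g ∉ N ∧ deg H g ≠ 0}.ncard := by
    refine Set.ncard_le_ncard ?_ (Set.toFinite _)
    intro v hv
    have hv' : deg Hh v ≠ 0 := hv
    unfold deg at hv'
    rw [Ne, Set.ncard_eq_zero, ← Ne, ← Set.nonempty_iff_ne_empty] at hv'
    obtain ⟨w, hw⟩ := hv'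
    have hw' : Hh.Adj v w := hw
    exact hhub v w hw'.2.1 hw'.1
  have h9 := Nat.mul_le_mul_left (4 * (m + 1)) h8
  have h10 : 2 * (4 * (m + 1) * {g | g ∉ N ∧ deg H g ≠ 0}.ncard) =
      8 * (m + 1) * {g | g ∉ N ∧ deg H g ≠ 0}.ncard := by ring
  omega

end Pool.Agent.Helper71.QU
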