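import Pool.Agent.Helper71.QU.Sup

/-!
# QU: short cycles with at most one hub, or through a long edge
-/

open Set
open Pool.Agent.Helper83.OP

namespace Pool.Agent.Helper71.QU

/-- the darts that are not in `Hs` -/
def Fd {V : Type} (H Hs : SimpleGraph V) : Set (V × V) := {e | H.Adj e.1 e.2 ∧ ¬ Hs.Adj e.1 e.2}

theorem deg_le_fd {V : Type} [Finite V] (H Hs : SimpleGraph V) (v : V) :
    deg H v ≤ deg Hs v + {e | e ∈ Fd H Hs ∧ e.1 = v}.ncard := by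
  have h5 : H.neighborSet v ⊆ Hs.neighborSet v ∪ Prod.snd '' {e | e ∈ Fd H Hs ∧ e.1 = v} := by
    intro w hw
    by_cases hs : Hs.Adj v w
    · exact Or.inl hs
    · exact Or.inr ⟨(v, w), ⟨⟨hw, hs⟩, rfl⟩, rfl⟩
  exact (Set.ncard_le_ncard h5 (Set.toFinite _)).trans ((Set.ncard_union_le _ _).trans
    (Nat.add_le_add_left (Set.ncard_image_le (Set.toFinite _)) _))

/-- a component of small radius has three exits -/
theorem comp_exits {V : Type} [Finite V] (H Hs : SimpleGraph V) (hle : Hs ≤ H) (ρ m ρ3 : ℕ)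
    (hρ : 1 ≤ ρ) (hρ2 : 96 * (2 * m * (4 * ρ + 1) + 1) ≤ 2 ^ (ρ - 1))
    (X : Sym2 V → Sym2 V → Prop) (hsym : ∀ f f', X f f' → X f' f)
    (hX : ∀ f ∈ Hs.edgeSet, {f' | f' ∈ Hs.edgeSet ∧ X f f'}.ncard ≤ m) (hP : PlanarLike Hs X)
    (hdeg : ∀ v, deg H v = 0 ∨ 3 ≤ deg H v) (N : Set V)
    (hN : N = {v | deg H v ≠ 0 ∧ deg H v ≤ 2 * A0 m ρ}) (hno : NoLight Hs N ρ)
    (K3 : Clus Hs {v | deg H v ≠ 0} ρ3) (z : V) (hz : z ∈ K3.Ctr)
    (hza : ∀ v, deg H v ≠ 0 → K3.ctr v = z → K3.d v < ρ3) :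
    3 ≤ {e | e ∈ Fd H Hs ∧ K3.ctr e.1 = z}.ncard := by
  classical
  by_contra hlt
  push Not at hlt
  let HY : SimpleGraph V :=
    { Adj := fun a b => Hs.Adj a b ∧ K3.ctr a = z ∧ K3.ctr b = z
      symm := ⟨fun a b h => ⟨h.1.symm, h.2.2, h.2.1⟩⟩
      loopless := ⟨fun a h => h.1.ne rfl⟩ }
  have hleY : HY ≤ Hs := fun a b h => h.1
  have hA : 6336 ≤ A0 m ρ := by
    unfold A0
    nlinarith [Nat.zero_le (6 * m * (2 * ρ + 1))]
  -- degrees in the component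
  have hdegY : ∀ v, deg H v ≠ 0 → K3.ctr v = z → deg HY v = deg Hs v := by
    intro v hv hvz
    unfold deg
    congr 1
    ext w
    constructor
    · exact fun h => h.1
    · intro h
      have hw : deg H w ≠ 0 := deg_pos (hle h).symm
      exact ⟨h, hvz, (K3.near v hv w hw h (hza v hv hvz)).trans hvz⟩
  have hfdv : ∀ v, K3.ctr v = z → {e | e ∈ Fd H Hs ∧ e.1 = v}.ncard ≤ 2 := by
    intro v hvz
    refine (Set.ncard_le_ncard ?_ (Set.toFinite _)).trans (Nat.le_of_lt_succ hlt)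
    rintro e ⟨h1, h2⟩
    exact ⟨h1, by rw [h2]; exact hvz⟩
  have hYne : ∀ v, deg HY v ≠ 0 → K3.ctr v = z ∧ deg H v ≠ 0 := by
    intro v hv
    unfold deg at hv
    rw [Ne, Set.ncard_eq_zero (Set.toFinite _), ← Ne, ← Set.nonempty_iff_ne_empty] at hv
    obtain ⟨w, hw⟩ := hv
    exact ⟨hw.2.1, deg_pos (hle hw.1)⟩
  obtain ⟨NY, hNY⟩ : ∃ NY : Set V, NY = {v | v ∈ N ∧ K3.ctr v = z} := ⟨_, rfl⟩
  refine small_comp HY NY ρ m hρ hρ2 X hsym ?_ (PlanarLike.mono hleY hP)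
    (NoLight.mono hleY (fun v hv => by rw [hNY] at hv; exact hv.1) hno) ?_ ?_ ?_
  · intro f hf
    refine le_trans (Set.ncard_le_ncard ?_ (Set.toFinite _)) (hX f (SimpleGraph.edgeSet_mono hleY hf))
    rintro f' ⟨h1, h2⟩
    exact ⟨SimpleGraph.edgeSet_mono hleY h1, h2⟩
  · -- missing edges
    have h1 : ∀ v ∈ (Set.toFinite NY).toFinset, 3 - deg HY v ≤
        {e | e ∈ {e | e ∈ Fd H Hs ∧ e.1 ∈ NY} ∧ e.1 = v}.ncard := by
      intro v hv
      rw [Set.Finite.mem_toFinset] at hv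
      have hv' := hv
      rw [hNY, hN] at hv'
      obtain ⟨⟨hv1, hv2⟩, hv3⟩ := hv'
      have h3 : 3 ≤ deg H v := (hdeg v).resolve_left hv1
      have h4 := deg_le_fd H Hs v
      rw [hdegY v hv1 hv3]
      have h5 : {e | e ∈ Fd H Hs ∧ e.1 = v}.ncard ≤
          {e | e ∈ {e | e ∈ Fd H Hs ∧ e.1 ∈ NY} ∧ e.1 = v}.ncard := by
        refine Set.ncard_le_ncard ?_ (Set.toFinite _)
        rintro e ⟨k1, k2⟩
        exact ⟨⟨k1, by rw [k2]; exact hv⟩, k2⟩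
      omega
    unfold dft
    refine (Finset.sum_le_sum h1).trans ?_
    rw [← ncard_fiber {e | e ∈ Fd H Hs ∧ e.1 ∈ NY}
      (Set.toFinite NY).toFinset (fun e => e.1) (fun e he => (Set.Finite.mem_toFinset _).2 he.2)]
    refine (Set.ncard_le_ncard ?_ (Set.toFinite _)).trans (Nat.le_of_lt_succ hlt)
    rintro e ⟨h2, h3⟩
    rw [hNY] at h3
    exact ⟨h2, h3.2⟩
  · intro v hvN hv0
    obtain ⟨hv1, hv2⟩ := hYne v hv0
    rw [hdegY v hv2 hv1]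
    have h1 : 2 * A0 m ρ < deg H v := by
      by_contra hcon
      push Not at hcon
      apply hvN
      rw [hNY, hN]
      exact ⟨⟨hv2, hcon⟩, hv1⟩
    have h2 := deg_le_fd H Hs v
    have h3 := hfdv v hv1
    omega
  · refine ⟨z, ?_⟩
    have hzd : deg H z ≠ 0 := hz.1
    rw [hdegY z hzd hz.2]
    have h1 : 3 ≤ deg H z := (hdeg z).resolve_left hzd
    have h2 := deg_le_fd H Hs z
    have h3 := hfdv z hz.2
    omega

/-- **Case 1**: a short cycle with at most one hub, or a short cycle through a long edge -/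
theorem case_long {V : Type} [Finite V] (H Hs : SimpleGraph V) (hle : Hs ≤ H) (ρ m t : ℕ)
    (e' : Sym2 V) (hρ : 1 ≤ ρ) (hρ2 : 96 * (2 * m * (4 * ρ + 1) + 1) ≤ 2 ^ (ρ - 1))
    (X : Sym2 V → Sym2 V → Prop) (hsym : ∀ f f', X f f' → X f' f)
    (hX : ∀ f ∈ Hs.edgeSet, {f' | f' ∈ Hs.edgeSet ∧ X f f'}.ncard ≤ m) (hP : PlanarLike Hs X)
    (hdeg : ∀ v, deg H v = 0 ∨ 3 ≤ deg H v) (N : Set V)
    (hN : N = {v | deg H v ≠ 0 ∧ deg H v ≤ 2 * A0 m ρ}) (hno : NoLight Hs N ρ)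
    (ht : 10 ^ t * Nat.card V < 11 ^ t)
    (hnl : NoLong H Hs e' ((8 * t + 2) * (4 * (1800 * ρ) + 1))) (hne : ∃ v, deg H v ≠ 0) :
    False := by
  classical
  obtain ⟨K⟩ := exists_clus Hs N ρ
  have hK : K.Tidy := clus_tidy K hno
  obtain ⟨K3⟩ := exists_clus Hs {v | deg H v ≠ 0} (1800 * ρ)
  have hNV : ∀ v ∈ N, v ∈ {v | deg H v ≠ 0} := by
    intro v hv
    rw [hN] at hv
    exact hv.1
  have hbig := big_few hρ hNV K K3
  have hPne : K3.Ctr.Nonempty := by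
    obtain ⟨v, hv⟩ := hne
    exact ⟨K3.ctr v, K3.ctr_mem v hv, K3.ctr_ctr v hv⟩
  have hlong := long_few hle K3 ht hnl hPne
  obtain ⟨g1, g2, g3⟩ := glob_count H Hs hle (2 * A0 m ρ) ρ m hρ hρ2 X hsym hX hP hdeg N hN K hK
  set Bt := {z | z ∈ K3.Ctr ∧ ∃ v ∈ {v | deg H v ≠ 0}, K3.ctr v = z ∧ 1800 * ρ ≤ K3.d v} with hBt
  have hhe : {g | g ∉ N ∧ g ∈ {v | deg H v ≠ 0}}.ncard = {g | g ∉ N ∧ deg H g ≠ 0}.ncard := rfl
  rw [hhe] at hbig
  -- the exits of the small components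
  have hsmall : 3 * (K3.Ctr \ Bt).ncard ≤ (Fd H Hs).ncard := by
    have hfin : (K3.Ctr).Finite := Set.toFinite _
    rw [ncard_fiber (Fd H Hs) hfin.toFinset (fun e => K3.ctr e.1) (fun e he => by
      rw [Set.Finite.mem_toFinset]
      exact ⟨K3.ctr_mem _ (deg_pos he.1), K3.ctr_ctr _ (deg_pos he.1)⟩)]
    have hfin2 : (K3.Ctr \ Bt).Finite := Set.toFinite _
    rw [Set.ncard_eq_toFinset_card _ hfin2, mul_comm, ← smul_eq_mul, ← Finset.sum_const]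
    refine le_trans (Finset.sum_le_sum (g := fun z => {e | e ∈ Fd H Hs ∧ K3.ctr e.1 = z}.ncard)
      fun z hz => ?_) (Finset.sum_le_sum_of_subset_of_nonneg ?_ (fun _ _ _ => Nat.zero_le _))
    · rw [Set.Finite.mem_toFinset] at hz
      refine comp_exits H Hs hle ρ m (1800 * ρ) hρ hρ2 X hsym hX hP hdeg N hN hno K3 z hz.1 ?_
      intro v hv hvz
      by_contra hge
      push Not at hge
      exact hz.2 ⟨hz.1, v, hv, hvz, hge⟩
    · intro z hz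
      rw [Set.Finite.mem_toFinset] at hz ⊢
      exact hz.1
  have hBsub : Bt ⊆ K3.Ctr := fun z hz => hz.1
  have hPsum : (K3.Ctr \ Bt).ncard + Bt.ncard = K3.Ctr.ncard :=
    Set.ncard_sdiff_add_ncard_of_subset hBsub (Set.toFinite _)
  -- the darts outside `Hs`
  have hfd : (Fd H Hs).ncard ≤ {e : V × V | Lng H Hs e' e.1 e.2}.ncard + 2 := by
    induction e' using Sym2.ind with
    | _ a b =>
      refine (Set.ncard_le_ncard (t := {e : V × V | Lng H Hs s(a, b) e.1 e.2} ∪ {(a, b), (b, a)})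
        ?_ (Set.toFinite _)).trans ((Set.ncard_union_le _ _).trans (Nat.add_le_add_left ?_ _))
      · rintro ⟨x, y⟩ ⟨h1, h2⟩
        by_cases h : s(x, y) = s(a, b)
        · right
          rcases Sym2.eq_iff.1 h with ⟨h3, h4⟩ | ⟨h3, h4⟩
          · left; rw [h3, h4]
          · right; rw [h3, h4]; rfl
        · exact Or.inl ⟨h1, h2, h⟩
      · exact (Set.ncard_insert_le _ _).trans (by rw [Set.ncard_singleton])
  have hfe : {e : V × V | H.Adj e.1 e.2 ∧ ¬ Hs.Adj e.1 e.2}.ncard = (Fd H Hs).ncard := rfl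
  rw [hfe] at g1 g2
  have hPpos : 1 ≤ K3.Ctr.ncard := (Set.ncard_pos (Set.toFinite _)).mpr hPne
  set f := (Fd H Hs).ncard with hf
  set h := {g | g ∉ N ∧ deg H g ≠ 0}.ncard with hh
  set p := K.Ctr.ncard with hp
  obtain ⟨M3, hM3⟩ : ∃ M3, M3 = 6 * m * (2 * ρ + 1) + 1 := ⟨_, rfl⟩
  rw [← hM3] at g1
  -- few darts outside `Hs`
  have h20 : 20 * f ≤ p + h := by omega
  have k1 : (2 * A0 m ρ + 1) * h ≤ A0 m ρ * h + 17 * f := g3.trans g2
  have k2 : 6336 * (M3 * h) ≤ A0 m ρ * h := by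
    have : 6336 * M3 ≤ A0 m ρ := by
      unfold A0
      rw [← hM3]
      omega
    calc 6336 * (M3 * h) = (6336 * M3) * h := by ring
      _ ≤ A0 m ρ * h := Nat.mul_le_mul_right _ this
  have k3 : (2 * A0 m ρ + 1) * h = 2 * (A0 m ρ * h) + h := by ring
  have k4 : h ≤ M3 * h := Nat.le_mul_of_pos_left _ (by omega)
  generalize A0 m ρ * h = y1 at *
  generalize M3 * h = y2 at *
  omega

/-- **Case 2**: a vertex of very large degree -/
theorem case_hub {V : Type} [Finite V] (H Hs : SimpleGraph V) (hle : Hs ≤ H) (ρ m : ℕ)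
    (hρ : 1 ≤ ρ) (hρ2 : 96 * (2 * m * (4 * ρ + 1) + 1) ≤ 2 ^ (ρ - 1))
    (X : Sym2 V → Sym2 V → Prop) (hsym : ∀ f f', X f f' → X f' f)
    (hX : ∀ f ∈ Hs.edgeSet, {f' | f' ∈ Hs.edgeSet ∧ X f f'}.ncard ≤ m) (hP : PlanarLike Hs X)
    (hdeg : ∀ v, deg H v = 0 ∨ 3 ≤ deg H v) (N : Set V)
    (hN : N = {v | deg H v ≠ 0 ∧ deg H v ≤ 2 * A0 m ρ}) (hno : NoLight Hs N ρ) (g0 : V)
    (hg0 : 2 * A0 m ρ < deg H g0) (hg1 : 34 * (Fd H Hs).ncard < deg H g0) : False := by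
  classical
  obtain ⟨K⟩ := exists_clus Hs N ρ
  have hK : K.Tidy := clus_tidy K hno
  obtain ⟨-, g2, g3⟩ := glob_count H Hs hle (2 * A0 m ρ) ρ m hρ hρ2 X hsym hX hP hdeg N hN K hK
  have hfe : {e : V × V | H.Adj e.1 e.2 ∧ ¬ Hs.Adj e.1 e.2}.ncard = (Fd H Hs).ncard := rfl
  rw [hfe] at g2
  have hgN : g0 ∉ N := by
    rw [hN]
    rintro ⟨-, h⟩
    omega
  have hS : deg H g0 ≤ {e : V × V | e.1 ∉ N ∧ H.Adj e.1 e.2}.ncard := by
    unfold deg
    refine Set.ncard_le_ncard_of_injOn (fun w => (g0, w)) ?_ ?_ (Set.toFinite _)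
    · intro w hw
      exact ⟨hgN, hw⟩
    · intro w _ w' _ h
      exact (Prod.ext_iff.1 h).2
  have k3 : (2 * A0 m ρ + 1) * {g | g ∉ N ∧ deg H g ≠ 0}.ncard =
      2 * (A0 m ρ * {g | g ∉ N ∧ deg H g ≠ 0}.ncard) + {g | g ∉ N ∧ deg H g ≠ 0}.ncard := by ring
  have hpos : 1 ≤ {g | g ∉ N ∧ deg H g ≠ 0}.ncard :=
    (Set.ncard_pos (Set.toFinite _)).mpr ⟨g0, hgN, by omega⟩
  omega

end Pool.Agent.Helper71.QU
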