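import Pool.Agent.Helper71.QU.Nlc2

/-!
# QU: suppression of all vertices of degree two
-/

open Set
open Pool.Agent.Helper83.OP

namespace Pool.Agent.Helper71.QU

/-- two paths with the same ends whose inner vertices have degree two -/
def ParPair {V : Type} (H : SimpleGraph V) (w : Sym2 V → ℕ) : Prop :=
  ∃ (u v : V) (T Q : H.Walk u v), u ≠ v ∧ T.IsPath ∧ Q.IsPath ∧ (∀ f ∈ T.edges, f ∉ Q.edges) ∧
    (∀ x ∈ T.support, x ≠ u → x ≠ v → deg H x = 2) ∧
    (∀ x ∈ Q.support, x ≠ u → x ≠ v → deg H x = 2) ∧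
    (Q.edges.map w).sum ≤ (T.edges.map w).sum

open Classical in
/-- the total weight -/
noncomputable def tot {V : Type} [Finite V] (H : SimpleGraph V) (w : Sym2 V → ℕ) : ℕ :=
  ∑ f ∈ (Set.toFinite H.edgeSet).toFinset, w f

/-- a graph without vertices of degree two that arises from `H` by suppression -/
def Reduced {V : Type} [Finite V] (H : SimpleGraph V) (w : Sym2 V → ℕ) : Prop :=
  ∃ (H' : SimpleGraph V) (e' : Sym2 V) (X' : Sym2 V → Sym2 V → Prop) (w' : Sym2 V → ℕ)
    (Ex : Sym2 V → Sym2 V → Prop), e' ∈ H'.edgeSet ∧ (∀ f f', X' f f' → X' f' f) ∧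
    (∀ f ∈ H'.edgeSet, f ≠ e' → {f' | f' ∈ H'.edgeSet ∧ f' ≠ e' ∧ X' f f'}.ncard ≤ w' f) ∧
    PlanarLike (H'.deleteEdges {e'}) X' ∧ (∀ v, deg H' v = 0 ∨ 3 ≤ deg H' v) ∧
    (∀ v, deg H' v ≠ 0 → deg H' v = deg H v) ∧ tot H' w' ≤ tot H w ∧
    (∀ g ∈ H'.edgeSet, ∀ g' ∈ H'.edgeSet, ∀ f, Ex g f → Ex g' f → g = g') ∧
    ∀ u v (p : H'.Walk u v), u ≠ v → ∃ P : H.Walk u v,
      (∀ c ∈ P.support, c ∈ p.support ∨ deg H c = 2) ∧ (∀ f ∈ P.edges, ∃ g ∈ p.edges, Ex g f) ∧
      (P.edges.map w).sum = (p.edges.map w').sum ∧ (p.IsPath → P.IsPath)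

theorem tot_supp {V : Type} [Finite V] (H : SimpleGraph V) (z x y : V) (hzx : H.Adj z x)
    (hzy : H.Adj z y) (hxy : x ≠ y) (hn : ¬ H.Adj x y) (w : Sym2 V → ℕ) :
    tot (supp H z x y) (suppW w z x y) ≤ tot H w := by
  classical
  unfold tot
  set S := (Set.toFinite H.edgeSet).toFinset with hS
  set S1 := (Set.toFinite (supp H z x y).edgeSet).toFinset with hS1
  have hmS : ∀ f, f ∈ S ↔ f ∈ H.edgeSet := fun f => Set.Finite.mem_toFinset _
  have hmS1 : ∀ f, f ∈ S1 ↔ f ∈ (supp H z x y).edgeSet := fun f => Set.Finite.mem_toFinset _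
  have hxy1 : s(x, y) ∈ S1 := (hmS1 _).2 ((supp_adj hxy).2 (Or.inr rfl))
  rw [← Finset.add_sum_erase S1 _ hxy1]
  have h1 : suppW w z x y s(x, y) = w s(x, z) + w s(z, y) := by
    unfold suppW
    rw [if_pos rfl]
  have h2 : ∑ f ∈ S1.erase s(x, y), suppW w z x y f = ∑ f ∈ S1.erase s(x, y), w f := by
    refine Finset.sum_congr rfl fun f hf => ?_
    unfold suppW
    rw [if_neg (Finset.ne_of_mem_erase hf)]
  have hxz : s(x, z) ∈ S := (hmS _).2 hzx.symm
  have hzy' : s(z, y) ∈ S := (hmS _).2 hzy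
  have hne : s(z, y) ≠ s(x, z) := by
    intro h
    rcases Sym2.eq_iff.1 h with ⟨h1, -⟩ | ⟨-, h1⟩
    · exact hzx.ne h1
    · exact hxy h1.symm
  have h3 : ∑ f ∈ S1.erase s(x, y), w f ≤ ∑ f ∈ (S.erase s(x, z)).erase s(z, y), w f := by
    refine Finset.sum_le_sum_of_subset_of_nonneg ?_ (fun _ _ _ => Nat.zero_le _)
    intro f hf
    have hf1 := (hmS1 f).1 (Finset.mem_of_mem_erase hf)
    have hf2 := Finset.ne_of_mem_erase hf
    have hz := not_mem_supp_edge hzx hzy hxy hf1
    rw [Finset.mem_erase, Finset.mem_erase]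
    refine ⟨?_, ?_, (hmS f).2 (supp_edge_cases hxy hf1 hf2)⟩
    · rintro rfl
      exact hz (Sym2.mem_mk_left z y)
    · rintro rfl
      exact hz (Sym2.mem_mk_right x z)
  have h4 := Finset.add_sum_erase S w hxz
  have h5 := Finset.add_sum_erase (S.erase s(x, z)) w
    (Finset.mem_erase.2 ⟨hne, hzy'⟩)
  rw [h1, h2]
  omega

private theorem deg_z {V : Type} [Finite V] {H : SimpleGraph V} {z x y : V} (hzx : H.Adj z x)
    (hzy : H.Adj z y) (hxy : x ≠ y) (hnb : ∀ a, H.Adj z a → a = x ∨ a = y) : deg H z = 2 := by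
  unfold deg
  have : H.neighborSet z = {x, y} := by
    ext a
    simp only [SimpleGraph.mem_neighborSet, mem_insert_iff, mem_singleton_iff]
    constructor
    · exact hnb a
    · rintro (rfl | rfl)
      · exact hzx
      · exact hzy
  rw [this, ncard_pair hxy]

theorem supp_par {V : Type} [Finite V] (H : SimpleGraph V) (z x y : V) (hzx : H.Adj z x)
    (hzy : H.Adj z y)
    (hxy : x ≠ y) (hnb : ∀ a, H.Adj z a → a = x ∨ a = y) (hn : ¬ H.Adj x y)
    (w : Sym2 V → ℕ) (hG : ParPair (supp H z x y) (suppW w z x y)) : ParPair H w := by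
  obtain ⟨u, v, T, Q, huv, hT, hQ, h1, h3, h4, h5⟩ := hG
  have huz : u ≠ z := by
    cases T with
    | nil => exact absurd rfl huv
    | cons h q => exact (supp_adj_ne hzx hzy hxy h).1
  obtain ⟨T', a1, a2, a3, a4⟩ := lift_walk H z x y hzx hzy hxy hn w T huz
  obtain ⟨Q', b1, b2, b3, b4⟩ := lift_walk H z x y hzx hzy hxy hn w Q huz
  have hzT := supp_walk_ne hzx hzy hxy T huz
  have hzQ := supp_walk_ne hzx hzy hxy Q huz
  have hdz := deg_z hzx hzy hxy hnb
  refine ⟨u, v, T', Q', huv, a4 hT, b4 hQ, ?_, ?_, ?_, by rw [a3, b3]; exact h5⟩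
  · intro f hf hf'
    obtain ⟨g, hg, hgf⟩ := (a2 f).1 hf
    obtain ⟨g', hg', hgf'⟩ := (b2 f).1 hf'
    have e1 := exps_contr hzx hzy hxy (SimpleGraph.Walk.edges_subset_edgeSet _ hg) hgf
    have e2 := exps_contr hzx hzy hxy (SimpleGraph.Walk.edges_subset_edgeSet _ hg') hgf'
    rw [← e1] at hg
    rw [← e2] at hg'
    exact h1 _ hg hg'
  · intro c hc hcu hcv
    rcases (a1 c).1 hc with k1 | ⟨rfl, -⟩
    · have hcz : c ≠ z := by
        rintro rfl
        exact hzT k1
      rw [← (supp_deg H z x y hzx hzy hxy hnb hn).2 c hcz]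
      exact h3 c k1 hcu hcv
    · exact hdz
  · intro c hc hcu hcv
    rcases (b1 c).1 hc with k1 | ⟨rfl, -⟩
    · have hcz : c ≠ z := by
        rintro rfl
        exact hzQ k1
      rw [← (supp_deg H z x y hzx hzy hxy hnb hn).2 c hcz]
      exact h4 c k1 hcu hcv
    · exact hdz

theorem supp_reduced {V : Type} [Finite V] (H : SimpleGraph V) (z x y : V) (hzx : H.Adj z x)
    (hzy : H.Adj z y)
    (hxy : x ≠ y) (hnb : ∀ a, H.Adj z a → a = x ∨ a = y) (hn : ¬ H.Adj x y)
    (w : Sym2 V → ℕ) (hG : Reduced (supp H z x y) (suppW w z x y)) : Reduced H w := by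
  obtain ⟨H', e', X', w', Ex, h1, h2, h3, h4, h5, h6, h7, h8, h9⟩ := hG
  have hdz := deg_z hzx hzy hxy hnb
  have hsd := supp_deg H z x y hzx hzy hxy hnb hn
  have h6' : ∀ v, deg H' v ≠ 0 → v ≠ z := by
    rintro v hv rfl
    have := h6 v hv
    rw [hsd.1] at this
    exact hv this
  refine ⟨H', e', X', w', fun g f => ∃ g1 ∈ (supp H z x y).edgeSet, Ex g g1 ∧ exps z x y g1 f,
    h1, h2, h3, h4, h5, ?_, h7.trans (tot_supp H z x y hzx hzy hxy hn w), ?_, ?_⟩
  · intro v hv
    rw [h6 v hv, hsd.2 v (h6' v hv)]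
  · rintro g hg g' hg' f ⟨g1, k1, k2, k3⟩ ⟨g2, k4, k5, k6⟩
    have e1 := exps_contr hzx hzy hxy k1 k3
    have e2 := exps_contr hzx hzy hxy k4 k6
    rw [← e1, e2] at k2
    exact h8 g hg g' hg' g2 k2 k5
  · intro u v p huv
    obtain ⟨P1, a1, a2, a3, a4⟩ := h9 u v p huv
    have huz : u ≠ z := by
      refine h6' u ?_
      cases p with
      | nil => exact absurd rfl huv
      | @cons _ b _ h q =>
        unfold deg
        rw [Ne, Set.ncard_eq_zero (Set.toFinite _)]
        intro hemp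
        have : b ∈ H'.neighborSet u := h
        rw [hemp] at this
        exact this
    obtain ⟨P, b1, b2, b3, b4⟩ := lift_walk H z x y hzx hzy hxy hn w P1 huz
    have hzP := supp_walk_ne hzx hzy hxy P1 huz
    refine ⟨P, ?_, ?_, b3.trans a3, fun hp => b4 (a4 hp)⟩
    · intro c hc
      rcases (b1 c).1 hc with k1 | ⟨rfl, -⟩
      · rcases a1 c k1 with k2 | k2
        · exact Or.inl k2
        · right
          have hcz : c ≠ z := by
            rintro rfl
            exact hzP k1
          rw [← hsd.2 c hcz]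
          exact k2
      · exact Or.inr hdz
    · intro f hf
      obtain ⟨g1, hg1, hg1f⟩ := (b2 f).1 hf
      obtain ⟨g, hg, hgg⟩ := a2 g1 hg1
      exact ⟨g, hg, g1, SimpleGraph.Walk.edges_subset_edgeSet _ hg1, hgg, hg1f⟩

open Classical in
theorem reduce {V : Type} [Finite V] (H : SimpleGraph V) (e : Sym2 V)
    (X : Sym2 V → Sym2 V → Prop) (w : Sym2 V → ℕ) (he : e ∈ H.edgeSet)
    (hsym : ∀ f f', X f f' → X f' f)
    (hX : ∀ f ∈ H.edgeSet, f ≠ e → {f' | f' ∈ H.edgeSet ∧ f' ≠ e ∧ X f f'}.ncard ≤ w f)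
    (hP : PlanarLike (H.deleteEdges {e}) X) (hd1 : ∀ v, deg H v ≠ 1) :
    ParPair H w ∨ Reduced H w := by
  revert hd1 hP hX hsym he
  suffices h : ∀ n : ℕ, ∀ (H : SimpleGraph V) (e : Sym2 V)
      (X : Sym2 V → Sym2 V → Prop) (w : Sym2 V → ℕ), {v | deg H v = 2}.ncard = n →
      e ∈ H.edgeSet → (∀ f f', X f f' → X f' f) →
      (∀ f ∈ H.edgeSet, f ≠ e → {f' | f' ∈ H.edgeSet ∧ f' ≠ e ∧ X f f'}.ncard ≤ w f) →
      PlanarLike (H.deleteEdges {e}) X → (∀ v, deg H v ≠ 1) → ParPair H w ∨ Reduced H w from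
    h _ H e X w rfl
  intro n
  induction n using Nat.strong_induction_on with
  | _ n ih =>
    intro H e X w hn he hsym hX hP hd1
    by_cases hz : ∃ z, deg H z = 2
    · obtain ⟨z, hz⟩ := hz
      have hz' := hz
      unfold deg at hz'
      rw [Set.ncard_eq_two] at hz'
      obtain ⟨x, y, hxy, hnbr⟩ := hz'
      have hmem : ∀ a, H.Adj z a ↔ a = x ∨ a = y := by
        intro a
        have : a ∈ H.neighborSet z ↔ a ∈ ({x, y} : Set V) := by rw [hnbr]
        simpa using this
      have hzx : H.Adj z x := (hmem x).2 (Or.inl rfl)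
      have hzy : H.Adj z y := (hmem y).2 (Or.inr rfl)
      have hnb : ∀ a, H.Adj z a → a = x ∨ a = y := fun a => (hmem a).1
      by_cases hadj : H.Adj x y
      · left
        -- the two paths
        obtain ⟨T, hTd⟩ : ∃ T : H.Walk x y, T = SimpleGraph.Walk.cons hzx.symm
          (SimpleGraph.Walk.cons hzy SimpleGraph.Walk.nil) := ⟨_, rfl⟩
        obtain ⟨Q, hQd⟩ : ∃ Q : H.Walk x y, Q = SimpleGraph.Walk.cons hadj
          SimpleGraph.Walk.nil := ⟨_, rfl⟩
        have hT : T.IsPath := by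
          rw [hTd]
          simp [SimpleGraph.Walk.cons_isPath_iff, hzx.ne.symm, hzy.ne, hxy]
        have hQ : Q.IsPath := by
          rw [hQd]
          simp [SimpleGraph.Walk.cons_isPath_iff, hxy]
        have hTQ : ∀ f ∈ T.edges, f ∉ Q.edges := by
          intro f hf
          rw [hTd] at hf
          rw [hQd]
          simp only [SimpleGraph.Walk.edges_cons, SimpleGraph.Walk.edges_nil, List.mem_cons,
            List.not_mem_nil, or_false] at hf ⊢
          rcases hf with rfl | rfl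
          · rw [Sym2.eq_iff]
            rintro (⟨_, h⟩ | ⟨h, _⟩)
            · exact hzy.ne h
            · exact hxy h
          · rw [Sym2.eq_iff]
            rintro (⟨h, _⟩ | ⟨h, _⟩)
            · exact hzx.ne h
            · exact hzy.ne h
        have hT2 : ∀ c ∈ T.support, c ≠ x → c ≠ y → deg H c = 2 := by
          intro c hc h1 h2
          rw [hTd] at hc
          simp only [SimpleGraph.Walk.support_cons, SimpleGraph.Walk.support_nil, List.mem_cons,
            List.not_mem_nil, or_false] at hc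
          rcases hc with hc | hc | hc
          · exact absurd hc h1
          · rw [hc]; exact hz
          · exact absurd hc h2
        have hQ2 : ∀ c ∈ Q.support, c ≠ x → c ≠ y → deg H c = 2 := by
          intro c hc h1 h2
          rw [hQd] at hc
          simp only [SimpleGraph.Walk.support_cons, SimpleGraph.Walk.support_nil, List.mem_cons,
            List.not_mem_nil, or_false] at hc
          rcases hc with hc | hc
          · exact absurd hc h1
          · exact absurd hc h2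
        rcases le_total (Q.edges.map w).sum (T.edges.map w).sum with hle | hle
        · exact ⟨x, y, T, Q, hxy, hT, hQ, hTQ, hT2, hQ2, hle⟩
        · exact ⟨x, y, Q, T, hxy, hQ, hT, fun f hf hf' => hTQ f hf' hf, hQ2, hT2, hle⟩
      · obtain ⟨e', he'⟩ : ∃ e', e' = if e = s(x, z) ∨ e = s(z, y) then s(x, y) else e := ⟨_, rfl⟩
        obtain ⟨d1, d2⟩ := supp_deg H z x y hzx hzy hxy hnb hadj
        obtain ⟨p1, p2⟩ := supp_partner H z x y hzx hzy hxy hnb hadj e he X w hX e' (by rw [he'])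
        have hlt : {v | deg (supp H z x y) v = 2}.ncard < n := by
          rw [← hn]
          refine Set.ncard_lt_ncard ?_ (Set.toFinite _)
          refine ⟨fun v hv => ?_, fun hsub => ?_⟩
          · have hvz : v ≠ z := by
              rintro rfl
              rw [Set.mem_ofPred_eq, d1] at hv
              exact absurd hv (by norm_num)
            rw [Set.mem_ofPred_eq, d2 v hvz] at hv
            exact hv
          · have := hsub (show z ∈ {v | deg H v = 2} from hz)
            rw [Set.mem_ofPred_eq, d1] at this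
            exact absurd this (by norm_num)
        rcases ih _ hlt (supp H z x y) e' (suppX X z x y) (suppW w z x y) rfl p1 (by
            rintro f f' ⟨h1, g, g', h2, h3, h4⟩
            exact ⟨h1.symm, g', g, h3, h2, hsym _ _ h4⟩) p2
          (supp_planar H z x y hzx hzy hxy hnb hadj e he X hP e' (by rw [he'])) (by
            intro v
            by_cases hvz : v = z
            · rw [hvz, d1]; norm_num
            · rw [d2 v hvz]; exact hd1 v) with h | h
        · exact Or.inl (supp_par H z x y hzx hzy hxy hnb hadj w h)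
        · exact Or.inr (supp_reduced H z x y hzx hzy hxy hnb hadj w h)
    · right
      have hd2 : ∀ v, deg H v ≠ 2 := fun v hv => hz ⟨v, hv⟩
      refine ⟨H, e, X, w, fun g f => g = f, he, hsym, hX, hP, ?_, fun _ _ => rfl, le_rfl, ?_, ?_⟩
      · intro v
        have := hd1 v
        have := hd2 v
        omega
      · rintro g - g' - f rfl h
        exact h.symm
      · intro u v p _
        exact ⟨p, fun c hc => Or.inl hc, fun f hf => ⟨f, hf, rfl⟩, rfl, fun h => h⟩

end Pool.Agent.Helper71.QU
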