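import Pool.Agent.Helper71.QU.Any
import Pool.Agent.Helper71.QU.Red
import Pool.Agent.Helper71.QU.Comp

/-!
# QU: redrawing a thread along a short cycle of the reduced graph
-/

open Set
open Pool.Agent.Helper83.OP Pool.Agent.Helper95.UP

namespace Pool.Agent.Helper71.QU

/-- the lifting property -/
def Lft {V : Type} (G H : SimpleGraph V) (w' : Sym2 V → ℕ) (Ex : Sym2 V → Sym2 V → Prop) : Prop :=
  (∀ g ∈ H.edgeSet, ∀ g' ∈ H.edgeSet, ∀ f, Ex g f → Ex g' f → g = g') ∧
    ∀ u v (p : H.Walk u v), u ≠ v → ∃ P : G.Walk u v,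
      (∀ c ∈ P.support, c ∈ p.support ∨ deg G c = 2) ∧ (∀ f ∈ P.edges, ∃ g ∈ p.edges, Ex g f) ∧
      (P.edges.map (fun _ => 1)).sum = (p.edges.map w').sum ∧ (p.IsPath → P.IsPath)

theorem sum_one {V : Type} {G : SimpleGraph V} {u v : V} (P : G.Walk u v) :
    (P.edges.map (fun _ => 1)).sum = P.length := by
  simp

/-- the thread of an edge of the reduced graph -/
theorem edge_thread {V : Type} [Finite V] {G H : SimpleGraph V} {w' : Sym2 V → ℕ}
    {Ex : Sym2 V → Sym2 V → Prop} (hl : Lft G H w' Ex) {x y : V} (hxy : H.Adj x y) :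
    ∃ T : G.Walk x y, T.IsPath ∧ (∀ c ∈ T.support, c ≠ x → c ≠ y → deg G c = 2) ∧
      (∀ f ∈ T.edges, Ex s(x, y) f) ∧ T.length = w' s(x, y) := by
  obtain ⟨T, t1, t2, t3, t4⟩ := hl.2 x y (SimpleGraph.Walk.cons hxy SimpleGraph.Walk.nil) hxy.ne
  refine ⟨T, t4 ?_, ?_, ?_, ?_⟩
  · simp [SimpleGraph.Walk.cons_isPath_iff, hxy.ne]
  · intro c hc h1 h2
    rcases t1 c hc with h | h
    · simp only [SimpleGraph.Walk.support_cons, SimpleGraph.Walk.support_nil, List.mem_cons,
        List.not_mem_nil, or_false] at h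
      rcases h with h | h
      · exact absurd h h1
      · exact absurd h h2
    · exact h
  · intro f hf
    obtain ⟨g, hg, hgf⟩ := t2 f hf
    simp only [SimpleGraph.Walk.edges_cons, SimpleGraph.Walk.edges_nil, List.mem_singleton] at hg
    rw [hg] at hgf
    exact hgf
  · rw [sum_one] at t3
    rw [t3]
    simp

/-- the thread of an edge of the reduced graph is redrawn along the walk `Q'` -/
theorem finish {V : Type} [Finite V] (G H : SimpleGraph V) (w' : Sym2 V → ℕ)
    (Ex : Sym2 V → Sym2 V → Prop) (hl : Lft G H w' Ex)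
    (hcrit : ∀ e ∈ G.edgeSet, KPl 1 (G.deleteEdges {e})) {x y : V} (hxy : H.Adj x y)
    (Q' : H.Walk x y) (hQ : s(x, y) ∉ Q'.edges) (q Dq Wq K : ℕ) (hq : Q'.length ≤ q)
    (hW : ∀ f ∈ Q'.edges, w' f ≤ Wq) (hD : ∀ c ∈ Q'.support, c ≠ x → c ≠ y → deg G c ≤ Dq)
    (hK : 2 * ((q + 1) * Dq + 2 * (q * Wq + 1) + 8 * (q * Wq)) ≤ K * w' s(x, y)) :
    KPl (max 9 (2 * K)) G := by
  classical
  obtain ⟨T, t1, t2, t3, t4⟩ := edge_thread hl hxy
  obtain ⟨Q, q1, q2, q3, -⟩ := hl.2 x y Q' hxy.ne
  rw [sum_one] at q3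
  have q4 : (Q'.edges.map w').sum ≤ (Q'.edges.map w').length • Wq := by
    apply List.sum_le_card_nsmul
    intro z hz
    rw [List.mem_map] at hz
    obtain ⟨f, hf, rfl⟩ := hz
    exact hW f hf
  rw [List.length_map, SimpleGraph.Walk.length_edges, smul_eq_mul] at q4
  have q5 : Q.length ≤ q * Wq := by
    rw [q3]
    exact q4.trans (Nat.mul_le_mul_right _ hq)
  refine insert_walk G hcrit hxy.ne T Q t1 t2 ?_
    (Q.support.toFinset.filter (fun c => c ≠ x ∧ c ≠ y)) ?_ K ?_
  · intro f hf hf'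
    obtain ⟨g, hg, hgf⟩ := q2 f hf'
    have := hl.1 s(x, y) hxy g (SimpleGraph.Walk.edges_subset_edgeSet _ hg) f (t3 f hf) hgf
    rw [this] at hQ
    exact hQ hg
  · intro c hc h1 h2
    rw [Finset.mem_filter, List.mem_toFinset]
    exact ⟨hc, h1, h2⟩
  · rw [t4]
    refine le_trans ?_ hK
    refine Nat.mul_le_mul_left _ (Nat.add_le_add ?_ (Nat.mul_le_mul_left _ q5))
    set S := Q.support.toFinset.filter (fun c => c ≠ x ∧ c ≠ y) with hS
    have h1 : ∑ c ∈ S, deg G c ≤ ∑ c ∈ S, (2 + if c ∈ Q'.support then Dq else 0) := by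
      refine Finset.sum_le_sum fun c hc => ?_
      rw [hS, Finset.mem_filter, List.mem_toFinset] at hc
      by_cases h3 : c ∈ Q'.support
      · rw [if_pos h3]
        exact (hD c h3 hc.2.1 hc.2.2).trans (Nat.le_add_left _ _)
      · rw [if_neg h3]
        rcases q1 c hc.1 with h4 | h4
        · exact absurd h4 h3
        · omega
    rw [Finset.sum_add_distrib, Finset.sum_const, smul_eq_mul, ← Finset.sum_filter,
      Finset.sum_const, smul_eq_mul] at h1
    have h2 : S.card ≤ q * Wq + 1 := by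
      refine (Finset.card_le_card (Finset.filter_subset _ _)).trans
        ((List.toFinset_card_le _).trans ?_)
      rw [SimpleGraph.Walk.length_support]
      omega
    have h3 : (S.filter (fun c => c ∈ Q'.support)).card ≤ q + 1 := by
      refine (Finset.card_le_card (t := Q'.support.toFinset) ?_).trans
        ((List.toFinset_card_le _).trans ?_)
      · intro c hc
        rw [Finset.mem_filter] at hc
        rw [List.mem_toFinset]
        exact hc.2
      · rw [SimpleGraph.Walk.length_support]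
        omega
    have h4 := Nat.mul_le_mul_right Dq h3
    omega

/-- a parallel pair of threads -/
theorem par_case {V : Type} [Finite V] (G : SimpleGraph V)
    (hcrit : ∀ e ∈ G.edgeSet, KPl 1 (G.deleteEdges {e}))
    (h : ParPair G (fun _ => 1)) : KPl 48 G := by
  classical
  obtain ⟨u, v, T, Q, huv, hT, hQ, h1, h2, h3, h4⟩ := h
  rw [sum_one, sum_one] at h4
  refine kpl_le (insert_walk G hcrit huv T Q hT h2 h1
    (Q.support.toFinset.filter (fun c => c ≠ u ∧ c ≠ v)) ?_ 24 ?_) (by norm_num)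
  · intro c hc h1 h2
    rw [Finset.mem_filter, List.mem_toFinset]
    exact ⟨hc, h1, h2⟩
  · set S := Q.support.toFinset.filter (fun c => c ≠ u ∧ c ≠ v) with hS
    have h5 : ∑ c ∈ S, deg G c ≤ ∑ c ∈ S, 2 := by
      refine Finset.sum_le_sum fun c hc => ?_
      rw [hS, Finset.mem_filter, List.mem_toFinset] at hc
      exact (h3 c hc.1 hc.2.1 hc.2.2).le
    rw [Finset.sum_const, smul_eq_mul] at h5
    have h6 : S.card ≤ Q.length + 1 := by
      refine (Finset.card_le_card (Finset.filter_subset _ _)).trans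
        ((List.toFinset_card_le _).trans ?_)
      rw [SimpleGraph.Walk.length_support]
    have h7 : 1 ≤ Q.length := by
      rcases Nat.eq_zero_or_pos Q.length with h | h
      · exact absurd (SimpleGraph.Walk.eq_of_length_eq_zero h) huv
      · exact h
    omega

/-- a walk is cut at one of its edges -/
theorem split_walk {V : Type} {G : SimpleGraph V} {u v : V} (W : G.Walk u v) (f : Sym2 V) :
    W.edges.Nodup → f ∈ W.edges →
    ∃ (c d : V) (_ : G.Adj c d) (τ1 : G.Walk u c) (τ2 : G.Walk d v), f = s(c, d) ∧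
      τ1.length + 1 + τ2.length = W.length ∧ (∀ g ∈ τ1.edges, g ∈ W.edges ∧ g ≠ f) ∧
      ∀ g ∈ τ2.edges, g ∈ W.edges ∧ g ≠ f := by
  induction W with
  | nil => intro _ h; simp at h
  | @cons u w v h W' ih =>
    intro hW hf
    rw [SimpleGraph.Walk.edges_cons, List.nodup_cons] at hW
    by_cases heq : f = s(u, w)
    · refine ⟨u, w, h, SimpleGraph.Walk.nil, W', heq, ?_, ?_, ?_⟩
      · rw [SimpleGraph.Walk.length_cons, SimpleGraph.Walk.length_nil]
        omega
      · intro g hg
        simp at hg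
      · intro g hg
        refine ⟨by rw [SimpleGraph.Walk.edges_cons]; exact List.mem_cons_of_mem _ hg, ?_⟩
        rintro rfl
        rw [← heq] at hW
        exact hW.1 hg
    · rw [SimpleGraph.Walk.edges_cons, List.mem_cons] at hf
      obtain ⟨c, d, hcd, τ1, τ2, a1, a2, a3, a4⟩ := ih hW.2 (hf.resolve_left heq)
      refine ⟨c, d, hcd, SimpleGraph.Walk.cons h τ1, τ2, a1, ?_, ?_, ?_⟩
      · rw [SimpleGraph.Walk.length_cons, SimpleGraph.Walk.length_cons]
        omega
      · intro g hg
        rw [SimpleGraph.Walk.edges_cons, List.mem_cons] at hg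
        rw [SimpleGraph.Walk.edges_cons]
        rcases hg with rfl | hg
        · exact ⟨List.mem_cons_self, fun h => heq h.symm⟩
        · exact ⟨List.mem_cons_of_mem _ (a3 g hg).1, (a3 g hg).2⟩
      · intro g hg
        rw [SimpleGraph.Walk.edges_cons]
        exact ⟨List.mem_cons_of_mem _ (a4 g hg).1, (a4 g hg).2⟩

/-- a closed walk through the edge `xy`, rotated to its heaviest edge -/
theorem heavy {V : Type} {H : SimpleGraph V} (w : Sym2 V → ℕ) {x y : V} (hxy : H.Adj x y)
    (p : H.Walk x y) (hp : s(x, y) ∉ p.edges) :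
    ∃ (c d : V) (_ : H.Adj c d) (Q : H.Walk c d), s(c, d) ∉ Q.edges ∧ Q.length ≤ p.length ∧
      w s(x, y) ≤ w s(c, d) ∧ ∀ f ∈ Q.edges, w f ≤ w s(c, d) := by
  classical
  have hsub : ∀ f ∈ p.bypass.edges, f ∈ p.edges := fun f hf =>
    SimpleGraph.Walk.edges_bypass_subset p hf
  have hnd : p.bypass.edges.Nodup := (SimpleGraph.Walk.bypass_isPath p).isTrail.edges_nodup
  obtain ⟨f, hf, hmax⟩ := Finset.exists_max_image (s(x, y) :: p.bypass.edges).toFinset w
    ⟨s(x, y), by simp⟩
  have hmax' : ∀ g, g ∈ s(x, y) :: p.bypass.edges → w g ≤ w f := fun g hg =>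
    hmax g (List.mem_toFinset.2 hg)
  rw [List.mem_toFinset, List.mem_cons] at hf
  by_cases heq : f = s(x, y)
  · refine ⟨x, y, hxy, p.bypass, fun h => hp (hsub _ h), SimpleGraph.Walk.length_bypass_le p,
      le_rfl, ?_⟩
    intro g hg
    rw [← heq]
    exact hmax' g (List.mem_cons_of_mem _ hg)
  · obtain ⟨c, d, hcd, τ1, τ2, a1, a2, a3, a4⟩ := split_walk p.bypass f hnd (hf.resolve_left heq)
    refine ⟨c, d, hcd, τ1.reverse.append (SimpleGraph.Walk.cons hxy τ2.reverse), ?_, ?_, ?_, ?_⟩
    · rw [SimpleGraph.Walk.edges_append, List.mem_append, SimpleGraph.Walk.edges_reverse,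
        List.mem_reverse, SimpleGraph.Walk.edges_cons, List.mem_cons,
        SimpleGraph.Walk.edges_reverse, List.mem_reverse, ← a1]
      rintro (h | h | h)
      · exact (a3 _ h).2 rfl
      · exact heq h
      · exact (a4 _ h).2 rfl
    · rw [SimpleGraph.Walk.length_append, SimpleGraph.Walk.length_reverse,
        SimpleGraph.Walk.length_cons, SimpleGraph.Walk.length_reverse]
      have := SimpleGraph.Walk.length_bypass_le p
      omega
    · rw [← a1]
      exact hmax' _ List.mem_cons_self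
    · intro g hg
      rw [← a1]
      apply hmax'
      rw [SimpleGraph.Walk.edges_append, List.mem_append, SimpleGraph.Walk.edges_reverse,
        List.mem_reverse, SimpleGraph.Walk.edges_cons, List.mem_cons,
        SimpleGraph.Walk.edges_reverse, List.mem_reverse] at hg
      rcases hg with h | h | h
      · exact List.mem_cons_of_mem _ (a3 _ h).1
      · rw [h]; exact List.mem_cons_self
      · exact List.mem_cons_of_mem _ (a4 _ h).1

end Pool.Agent.Helper71.QU
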