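import Pool.Agent.Helper71.QU.Cnt

/-!
# QU: the global count and small components
-/

open Set
open Pool.Agent.Helper83.OP

namespace Pool.Agent.Helper71.QU

/-- half of the bound for the degrees -/
def A0 (m ρ : ℕ) : ℕ :=
  6336 * (6 * m * (2 * ρ + 1) + 1) + 12 * (2 * m * (4 * ρ + 1) + 1) + 8 * (m + 1)

/-- no short cycle with at most one vertex outside `N` -/
def NoLight {V : Type} (H : SimpleGraph V) (N : Set V) (ρ : ℕ) : Prop :=
  ∀ (u : V) (C : H.Walk u u), C.IsCycle → C.length ≤ 8 * ρ + 2 →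
    ∀ hub, ∃ v ∈ C.support, v ≠ hub ∧ v ∉ N

theorem NoLight.mono {V : Type} {H H' : SimpleGraph V} {N N' : Set V} {ρ : ℕ} (hle : H' ≤ H)
    (hN : ∀ v ∈ N', v ∈ N) (h : NoLight H N ρ) : NoLight H' N' ρ := by
  intro u C hC hl hub
  obtain ⟨v, h1, h2, h3⟩ := h u (C.mapLe hle) ((SimpleGraph.Walk.isCycle_mapLe _).2 hC)
    (by rw [SimpleGraph.Walk.length_map]; exact hl) hub
  rw [SimpleGraph.Walk.support_mapLe_eq_support] at h1
  exact ⟨v, h1, h2, fun h4 => h3 (hN v h4)⟩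

theorem deg_pos {V : Type} [Finite V] {H : SimpleGraph V} {a b : V} (h : H.Adj a b) :
    deg H a ≠ 0 := by
  unfold deg
  rw [Ne, Set.ncard_eq_zero (Set.toFinite _)]
  intro hemp
  have : b ∈ H.neighborSet a := h
  rw [hemp] at this
  exact this

theorem small_comp {V : Type} [Finite V] (H : SimpleGraph V) (N : Set V) (ρ m : ℕ) (hρ : 1 ≤ ρ)
    (hρ2 : 96 * (2 * m * (4 * ρ + 1) + 1) ≤ 2 ^ (ρ - 1)) (X : Sym2 V → Sym2 V → Prop)
    (hsym : ∀ f f', X f f' → X f' f)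
    (hX : ∀ f ∈ H.edgeSet, {f' | f' ∈ H.edgeSet ∧ X f f'}.ncard ≤ m) (hP : PlanarLike H X)
    (hno : NoLight H N ρ) (hdf : dft H N ≤ 2)
    (hD : ∀ v, v ∉ N → deg H v ≠ 0 → A0 m ρ + 37 ≤ deg H v) (hne : ∃ v, deg H v ≠ 0) : False := by
  classical
  obtain ⟨K⟩ := exists_clus H N ρ
  have hK : K.Tidy := clus_tidy K hno
  obtain ⟨c1, c2⟩ := cnt_main K hK hρ m hρ2 X hX hP
  have c3 := hub_darts H X m hsym hX hP N
  have c4 := tri_bound X m hX hP K hK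
  have c5 := ch_bound X m hX hP K hK
  have c6 := cc_small K hK
  have hpn : K.Ctr.ncard ≤ N.ncard := Set.ncard_le_ncard (fun s hs => hs.1) (Set.toFinite _)
  set h := {g | g ∉ N ∧ deg H g ≠ 0}.ncard with hh
  set p := K.Ctr.ncard with hp
  -- the hubs
  have c7 : (A0 m ρ + 37) * h ≤ {e : V × V | e.1 ∉ N ∧ H.Adj e.1 e.2}.ncard := by
    have hfin : {g | g ∉ N ∧ deg H g ≠ 0}.Finite := Set.toFinite _
    rw [ncard_fiber {e : V × V | e.1 ∉ N ∧ H.Adj e.1 e.2} hfin.toFinset (fun e => e.1)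
      (fun e he => by
        rw [Set.Finite.mem_toFinset]
        exact ⟨he.1, deg_pos he.2⟩), hh, Set.ncard_eq_toFinset_card _ hfin, mul_comm, ← smul_eq_mul,
      ← Finset.sum_const]
    refine Finset.sum_le_sum fun g hg => ?_
    rw [Set.Finite.mem_toFinset] at hg
    refine (hD g hg.1 hg.2).trans ?_
    unfold deg
    refine Set.ncard_le_ncard_of_injOn (fun w => (g, w)) ?_ ?_ (Set.toFinite _)
    · intro w hw
      exact ⟨⟨hg.1, hw⟩, rfl⟩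
    · intro w _ w' _ h
      exact (Prod.ext_iff.1 h).2
  rcases Nat.eq_zero_or_pos h with h0 | hpos
  · have hA0 : {e : V × V | e.1 ∈ N ∧ e.2 ∉ N ∧ H.Adj e.1 e.2}.ncard = 0 := by
      rw [Set.ncard_eq_zero]
      ext e
      constructor
      · rintro ⟨a1, a2, a3⟩
        have : e.2 ∈ {g | g ∉ N ∧ deg H g ≠ 0} := ⟨a2, deg_pos a3.symm⟩
        rw [hh, Set.ncard_eq_zero] at h0
        rw [h0] at this
        exact this
      · intro he; exact absurd he (Set.notMem_empty e)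
    have hp0 : p ≠ 0 := by
      intro hp0
      obtain ⟨v, hv⟩ := hne
      by_cases hvN : v ∈ N
      · have : K.ctr v ∈ K.Ctr := ⟨K.ctr_mem v hvN, K.ctr_ctr v hvN⟩
        rw [hp, Set.ncard_eq_zero] at hp0
        rw [hp0] at this
        exact this
      · have : v ∈ {g | g ∉ N ∧ deg H g ≠ 0} := ⟨hvN, hv⟩
        rw [hh, Set.ncard_eq_zero] at h0
        rw [h0] at this
        exact this
    rw [h0] at c4
    rw [hA0] at c1
    have hp2 : p ≤ 2 := by omega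
    have hcase : p = 1 ∨ p = 2 := by omega
    rcases hcase with hc | hc
    · rw [hc] at c6 c1 hpn
      omega
    · rw [hc] at c6 c1 hpn
      omega
  · have e1 : (A0 m ρ + 37) * h ≤ (A0 m ρ + 36) * h := by
      refine c7.trans (c3.trans ?_)
      obtain ⟨M3, hM3⟩ : ∃ M3, M3 = 6 * m * (2 * ρ + 1) + 1 := ⟨_, rfl⟩
      obtain ⟨Mm, hMm⟩ : ∃ Mm, Mm = 2 * m * (4 * ρ + 1) + 1 := ⟨_, rfl⟩
      rw [← hM3] at c4
      rw [← hMm] at c5
      have e2 : 12 * p ≤ 6336 * (M3 * h) + 32 := by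
        have : 396 * M3 * h = 396 * (M3 * h) := by ring
        omega
      have e3 : 12 * (p + Mm * h) = 12 * p + 12 * (Mm * h) := by ring
      have e4 : (A0 m ρ + 36) * h = 6336 * (M3 * h) + 12 * (Mm * h) + 8 * (m + 1) * h + 36 * h := by
        rw [A0, ← hM3, ← hMm]
        ring
      rw [e4]
      generalize M3 * h = y1 at *
      generalize Mm * h = y2 at *
      generalize 8 * (m + 1) * h = y3 at *
      omega
    have := Nat.le_of_mul_le_mul_right e1 hpos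
    omega

theorem glob_count {V : Type} [Finite V] (H Hs : SimpleGraph V) (hle : Hs ≤ H) (D ρ m : ℕ)
    (hρ : 1 ≤ ρ) (hρ2 : 96 * (2 * m * (4 * ρ + 1) + 1) ≤ 2 ^ (ρ - 1))
    (X : Sym2 V → Sym2 V → Prop) (hsym : ∀ f f', X f f' → X f' f)
    (hX : ∀ f ∈ Hs.edgeSet, {f' | f' ∈ Hs.edgeSet ∧ X f f'}.ncard ≤ m) (hP : PlanarLike Hs X)
    (hdeg : ∀ v, deg H v = 0 ∨ 3 ≤ deg H v) (N : Set V)
    (hN : N = {v | deg H v ≠ 0 ∧ deg H v ≤ D}) (K : Clus Hs N ρ) (hK : K.Tidy) :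
    3 * K.Ctr.ncard ≤ 1584 * ((6 * m * (2 * ρ + 1) + 1) *
        {g | g ∉ N ∧ deg H g ≠ 0}.ncard) +
      4 * {e : V × V | H.Adj e.1 e.2 ∧ ¬ Hs.Adj e.1 e.2}.ncard ∧
    {e : V × V | e.1 ∉ N ∧ H.Adj e.1 e.2}.ncard ≤
      A0 m ρ * {g | g ∉ N ∧ deg H g ≠ 0}.ncard +
      17 * {e : V × V | H.Adj e.1 e.2 ∧ ¬ Hs.Adj e.1 e.2}.ncard ∧
    (D + 1) * {g | g ∉ N ∧ deg H g ≠ 0}.ncard ≤
      {e : V × V | e.1 ∉ N ∧ H.Adj e.1 e.2}.ncard := by
  classical
  obtain ⟨c1, c2⟩ := cnt_main K hK hρ m hρ2 X hX hP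
  have c3 := hub_darts Hs X m hsym hX hP N
  have c4 := tri_bound X m hX hP K hK
  have c5 := ch_bound X m hX hP K hK
  have hhs : {g | g ∉ N ∧ deg Hs g ≠ 0}.ncard ≤ {g | g ∉ N ∧ deg H g ≠ 0}.ncard := by
    refine Set.ncard_le_ncard ?_ (Set.toFinite _)
    rintro g ⟨h1, h2⟩
    exact ⟨h1, fun h3 => h2 (Nat.le_zero.1 (h3 ▸ deg_mono hle g))⟩
  set h := {g | g ∉ N ∧ deg H g ≠ 0}.ncard with hh
  set h' := {g | g ∉ N ∧ deg Hs g ≠ 0}.ncard with hh'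
  set f := {e : V × V | H.Adj e.1 e.2 ∧ ¬ Hs.Adj e.1 e.2}.ncard with hf
  set S := {e : V × V | e.1 ∉ N ∧ H.Adj e.1 e.2}.ncard with hS
  set p := K.Ctr.ncard with hp
  obtain ⟨M3, hM3⟩ : ∃ M3, M3 = 6 * m * (2 * ρ + 1) + 1 := ⟨_, rfl⟩
  obtain ⟨Mm, hMm⟩ : ∃ Mm, Mm = 2 * m * (4 * ρ + 1) + 1 := ⟨_, rfl⟩
  rw [← hM3] at c4 ⊢
  rw [← hMm] at c5
  -- missing edges
  have hdf : dft Hs N ≤ f := by
    have h1 : ∀ v ∈ (Set.toFinite N).toFinset, 3 - deg Hs v ≤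
        {e : V × V | e ∈ {e : V × V | e.1 ∈ N ∧ H.Adj e.1 e.2 ∧ ¬ Hs.Adj e.1 e.2} ∧ e.1 = v}.ncard := by
      intro v hv
      rw [Set.Finite.mem_toFinset] at hv
      have hv' := hv
      rw [hN] at hv'
      have h3 : 3 ≤ deg H v := (hdeg v).resolve_left hv'.1
      have h4 : deg H v ≤ deg Hs v + {e : V × V | e ∈ {e : V × V | e.1 ∈ N ∧ H.Adj e.1 e.2 ∧
          ¬ Hs.Adj e.1 e.2} ∧ e.1 = v}.ncard := by
        have h5 : H.neighborSet v ⊆ Hs.neighborSet v ∪ Prod.snd '' {e : V × V | e ∈ {e : V × V |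
            e.1 ∈ N ∧ H.Adj e.1 e.2 ∧ ¬ Hs.Adj e.1 e.2} ∧ e.1 = v} := by
          intro w hw
          by_cases hs : Hs.Adj v w
          · exact Or.inl hs
          · exact Or.inr ⟨(v, w), ⟨⟨hv, hw, hs⟩, rfl⟩, rfl⟩
        exact (Set.ncard_le_ncard h5 (Set.toFinite _)).trans ((Set.ncard_union_le _ _).trans
          (Nat.add_le_add_left (Set.ncard_image_le (Set.toFinite _)) _))
      omega
    refine (Finset.sum_le_sum h1).trans ?_
    rw [← ncard_fiber {e : V × V | e.1 ∈ N ∧ H.Adj e.1 e.2 ∧ ¬ Hs.Adj e.1 e.2}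
      (Set.toFinite N).toFinset (fun e => e.1) (fun e he => (Set.Finite.mem_toFinset _).2 he.1)]
    exact Set.ncard_le_ncard (fun e he => he.2) (Set.toFinite _)
  have hSs : S ≤ {e : V × V | e.1 ∉ N ∧ Hs.Adj e.1 e.2}.ncard + f := by
    refine (Set.ncard_le_ncard (t := {e : V × V | e.1 ∉ N ∧ Hs.Adj e.1 e.2} ∪
      {e : V × V | H.Adj e.1 e.2 ∧ ¬ Hs.Adj e.1 e.2}) ?_ (Set.toFinite _)).trans
      (Set.ncard_union_le _ _)
    rintro e ⟨h1, h2⟩
    by_cases hs : Hs.Adj e.1 e.2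
    · exact Or.inl ⟨h1, hs⟩
    · exact Or.inr ⟨h2, hs⟩
  have b1 : M3 * h' ≤ M3 * h := Nat.mul_le_mul_left _ hhs
  have b2 : Mm * h' ≤ Mm * h := Nat.mul_le_mul_left _ hhs
  have b3 : 8 * (m + 1) * h' ≤ 8 * (m + 1) * h := Nat.mul_le_mul_left _ hhs
  have b4 : 396 * M3 * h' = 396 * (M3 * h') := by ring
  have b5 : 12 * (p + Mm * h') = 12 * p + 12 * (Mm * h') := by ring
  have b6 : A0 m ρ * h = 6336 * (M3 * h) + 12 * (Mm * h) + 8 * (m + 1) * h := by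
    rw [A0, ← hM3, ← hMm]
    ring
  refine ⟨?_, ?_, ?_⟩
  · omega
  · rw [b6]
    omega
  · have hfin : {g | g ∉ N ∧ deg H g ≠ 0}.Finite := Set.toFinite _
    rw [hS, ncard_fiber {e : V × V | e.1 ∉ N ∧ H.Adj e.1 e.2} hfin.toFinset (fun e => e.1)
      (fun e he => by
        rw [Set.Finite.mem_toFinset]
        exact ⟨he.1, deg_pos he.2⟩), hh, Set.ncard_eq_toFinset_card _ hfin, mul_comm, ← smul_eq_mul,
      ← Finset.sum_const]
    refine Finset.sum_le_sum fun g hg => ?_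
    rw [Set.Finite.mem_toFinset] at hg
    have h1 : D + 1 ≤ deg H g := by
      by_contra hlt
      apply hg.1
      rw [hN]
      exact ⟨hg.2, by omega⟩
    refine h1.trans ?_
    unfold deg
    refine Set.ncard_le_ncard_of_injOn (fun w => (g, w)) ?_ ?_ (Set.toFinite _)
    · intro w hw
      exact ⟨⟨hg.1, hw⟩, rfl⟩
    · intro w _ w' _ h
      exact (Prod.ext_iff.1 h).2

end Pool.Agent.Helper71.QU
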