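import Pool.Agent.Helper83.OP.Final

/-!
# QU: short cycles with at most one vertex of large degree, explicit constants
-/

open Set
open Pool.Agent.Helper83.OP

namespace Pool.Agent.Helper71.QU

theorem PlanarLike.mono {V : Type} {H H' : SimpleGraph V} {X : Sym2 V → Sym2 V → Prop}
    (hle : H' ≤ H) (h : PlanarLike H X) : PlanarLike H' X := by
  intro Γ R hR
  refine h Γ (fun s t hst => (R s t hst).mapLe hle) ?_
  intro s t s' t' h1 h2 a b c d
  obtain ⟨e1, e2⟩ := hR s t s' t' h1 h2 a b c d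
  constructor
  · intro v hv hv'
    rw [SimpleGraph.Walk.support_mapLe_eq_support] at hv hv'
    exact e1 v hv hv'
  · intro f hf f' hf'
    rw [SimpleGraph.Walk.edges_mapLe_eq_edges] at hf hf'
    exact e2 f hf f' hf'

private theorem dart_count {V : Type} [Finite V] (Γ : SimpleGraph V) :
    {e : V × V | Γ.Adj e.1 e.2}.ncard = 2 * Γ.edgeSet.ncard := by
  classical
  have := Fintype.ofFinite V
  have h1 := Γ.dart_card_eq_twice_card_edges
  have h2 : Γ.edgeFinset.card = Γ.edgeSet.ncard := by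
    rw [← Set.ncard_coe_finset, SimpleGraph.coe_edgeFinset]
  rw [← h2, ← h1, ← Nat.card_eq_fintype_card, ← Nat.card_coe_set_eq]
  exact Nat.card_congr
    { toFun := fun e => ⟨e.1, e.2⟩
      invFun := fun d => ⟨d.toProd, d.adj⟩
      left_inv := fun _ => rfl
      right_inv := fun _ => rfl }

/-- the degrees outside `N` -/
theorem hub_sum {V : Type} [Finite V] (H : SimpleGraph V) (X : Sym2 V → Sym2 V → Prop) (m : ℕ)
    (hsym : ∀ f f', X f f' → X f' f)
    (hX : ∀ f ∈ H.edgeSet, {f' | f' ∈ H.edgeSet ∧ X f f'}.ncard ≤ m) (hP : PlanarLike H X)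
    (N : Set V) (D : ℕ) (hD : ∀ g, g ∉ N → deg H g ≠ 0 → D + 1 ≤ deg H g) :
    (D + 1) * {g | g ∉ N ∧ deg H g ≠ 0}.ncard ≤
      {e : V × V | e.1 ∈ N ∧ e.2 ∉ N ∧ H.Adj e.1 e.2}.ncard +
        8 * (m + 1) * {g | g ∉ N ∧ deg H g ≠ 0}.ncard := by
  classical
  set S : Set (V × V) := {e | e.1 ∉ N ∧ H.Adj e.1 e.2} with hS
  have hhub : ∀ a b, a ∉ N → H.Adj a b → a ∈ {g | g ∉ N ∧ deg H g ≠ 0} := by
    intro a b ha hab
    refine ⟨ha, ?_⟩
    unfold deg
    rw [Ne, Set.ncard_eq_zero]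
    intro hemp
    have : b ∈ H.neighborSet a := hab
    rw [hemp] at this
    exact this
  have hfin : {g | g ∉ N ∧ deg H g ≠ 0}.Finite := Set.toFinite _
  have h1 : (D + 1) * {g | g ∉ N ∧ deg H g ≠ 0}.ncard ≤ S.ncard := by
    rw [ncard_fiber S hfin.toFinset (fun e => e.1) (fun e he => by
      rw [Set.Finite.mem_toFinset]
      exact hhub e.1 e.2 he.1 he.2), Set.ncard_eq_toFinset_card _ hfin, mul_comm, ← smul_eq_mul,
      ← Finset.sum_const]
    refine Finset.sum_le_sum fun g hg => ?_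
    rw [Set.Finite.mem_toFinset] at hg
    refine (hD g hg.1 hg.2).trans ?_
    unfold deg
    refine Set.ncard_le_ncard_of_injOn (fun w => (g, w)) ?_ ?_ (Set.toFinite _)
    · intro w hw
      exact ⟨⟨hg.1, hw⟩, rfl⟩
    · intro w _ w' _ h
      exact (Prod.ext_iff.1 h).2
  -- the subgraph of the edges between hubs
  let Hh : SimpleGraph V :=
    { Adj := fun a b => H.Adj a b ∧ a ∉ N ∧ b ∉ N
      symm := ⟨fun a b h => ⟨h.1.symm, h.2.2, h.2.1⟩⟩
      loopless := ⟨fun a h => h.1.ne rfl⟩ }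
  have hle : Hh ≤ H := fun a b h => h.1
  have h2 : S ⊆ Prod.swap '' {e : V × V | e.1 ∈ N ∧ e.2 ∉ N ∧ H.Adj e.1 e.2} ∪
      {e : V × V | Hh.Adj e.1 e.2} := by
    rintro ⟨a, b⟩ ⟨ha, hab⟩
    by_cases hb : b ∈ N
    · exact Or.inl ⟨(b, a), ⟨hb, ha, hab.symm⟩, rfl⟩
    · exact Or.inr ⟨hab, ha, hb⟩
  have h3 := Set.ncard_le_ncard h2 (Set.toFinite _)
  have h4 := Set.ncard_union_le (Prod.swap '' {e : V × V | e.1 ∈ N ∧ e.2 ∉ N ∧ H.Adj e.1 e.2})
    {e : V × V | Hh.Adj e.1 e.2}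
  have h5 : (Prod.swap '' {e : V × V | e.1 ∈ N ∧ e.2 ∉ N ∧ H.Adj e.1 e.2}).ncard ≤
      {e : V × V | e.1 ∈ N ∧ e.2 ∉ N ∧ H.Adj e.1 e.2}.ncard := Set.ncard_image_le (Set.toFinite _)
  have h6 := dart_count Hh
  have h7 := edge_bound (H := Hh) X m hsym (fun f hf => by
    refine le_trans (Set.ncard_le_ncard ?_ (Set.toFinite _)) (hX f (SimpleGraph.edgeSet_mono hle hf))
    rintro f' ⟨a, b⟩
    exact ⟨SimpleGraph.edgeSet_mono hle a, b⟩) (PlanarLike.mono hle hP)
  have h8 : {v | deg Hh v ≠ 0}.ncard ≤ {g | g ∉ N ∧ deg H g ≠ 0}.ncard := by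
    refine Set.ncard_le_ncard ?_ (Set.toFinite _)
    intro v hv
    have hv' : deg Hh v ≠ 0 := hv
    unfold deg at hv'
    rw [Ne, Set.ncard_eq_zero, ← Ne, ← Set.nonempty_iff_ne_empty] at hv'
    obtain ⟨w, hw⟩ := hv'
    have hw' : Hh.Adj v w := hw
    exact hhub v w hw'.2.1 hw'.1
  have h9 := Nat.mul_le_mul_left (4 * (m + 1)) h8
  have h10 : 2 * (4 * (m + 1) * {g | g ∉ N ∧ deg H g ≠ 0}.ncard) =
      8 * (m + 1) * {g | g ∉ N ∧ deg H g ≠ 0}.ncard := by ring
  omega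

/-- the bound for the degrees -/
def Dm (m ρ : ℕ) : ℕ :=
  12 * (792 * (6 * m * (2 * ρ + 1) + 1) + 3 + (2 * m * (4 * ρ + 1) + 1)) + 8 * (m + 1)

theorem nlc2 (m ρ : ℕ) (hρ : 1 ≤ ρ) (hρ2 : 96 * (2 * m * (4 * ρ + 1) + 1) ≤ 2 ^ (ρ - 1))
    (V : Type) [Finite V] (H : SimpleGraph V)
    (X : Sym2 V → Sym2 V → Prop) (x0 y0 : V) (hsym : ∀ f f', X f f' → X f' f)
    (hX : ∀ f ∈ H.edgeSet, {f' | f' ∈ H.edgeSet ∧ X f f'}.ncard ≤ m) (hP : PlanarLike H X)
    (hx0 : 2 ≤ deg H x0) (hy0 : 2 ≤ deg H y0)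
    (hdeg : ∀ v, v ≠ x0 → v ≠ y0 → deg H v = 0 ∨ 3 ≤ deg H v) :
    ∃ (u : V) (C : H.Walk u u) (hub : V), C.IsCycle ∧ C.length ≤ 8 * ρ + 2 ∧
      ∀ v ∈ C.support, v ≠ hub → deg H v ≤ Dm m ρ := by
  obtain ⟨Mm, hMm⟩ : ∃ Mm, Mm = 2 * m * (4 * ρ + 1) + 1 := ⟨_, rfl⟩
  obtain ⟨M3, hM3⟩ : ∃ M3, M3 = 6 * m * (2 * ρ + 1) + 1 := ⟨_, rfl⟩
  obtain ⟨Pp, hPp⟩ : ∃ Pp, Pp = 792 * M3 + 3 := ⟨_, rfl⟩
  obtain ⟨D, hD⟩ : ∃ D, D = Dm m ρ := ⟨_, rfl⟩
  rw [← hD]
  by_contra hcon
  push Not at hcon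
  classical
  have := Fintype.ofFinite V
  set N : Set V := {v | deg H v ≠ 0 ∧ deg H v ≤ D} with hN
  obtain ⟨K⟩ := exists_clus H N ρ
  have hT : K.Tidy := clus_tidy K (fun u Cy hCy hlen hub => by
    obtain ⟨v, hv, hvh, hvD⟩ := hcon u Cy hub hCy hlen
    exact ⟨v, hv, hvh, fun hvN => absurd hvN.2 (not_le.2 hvD)⟩)
  have h3 : ∀ v ∈ N, v ≠ x0 → v ≠ y0 → 3 ≤ deg H v := fun v hv h1 h2 =>
    (hdeg v h1 h2).resolve_left hv.1
  have h2 : ∀ v ∈ N, 2 ≤ deg H v := by
    intro v hv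
    by_cases h1 : v = x0
    · rw [h1]; exact hx0
    by_cases h2 : v = y0
    · rw [h2]; exact hy0
    exact le_trans (by norm_num) (h3 v hv h1 h2)
  set h := {g | g ∉ N ∧ deg H g ≠ 0}.ncard with hh
  set p := K.Ctr.ncard with hp
  set τ := {s | s ∈ K.Ctr ∧ 3 ≤ (K.hOut s).ncard}.ncard with hτ
  set Cf : Finset V := K.Ctr.toFinset with hCf
  have hpCf : p = Cf.card := Set.ncard_eq_toFinset_card' _
  have hctr : ∀ v ∈ N, K.ctr v ∈ Cf := by
    intro v hv
    rw [hCf, Set.mem_toFinset]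
    exact ⟨K.ctr_mem v hv, K.ctr_ctr v hv⟩
  set B2 := {e : V × V | e.1 ∈ N ∧ e.2 ∈ N ∧ H.Adj e.1 e.2 ∧ K.ctr e.1 ≠ K.ctr e.2}.ncard with hB2
  set A := {e : V × V | e.1 ∈ N ∧ e.2 ∉ N ∧ H.Adj e.1 e.2}.ncard with hA
  have sN : N.ncard = ∑ s ∈ Cf, (K.cl s).ncard := by
    rw [ncard_fiber N Cf K.ctr hctr]
    rfl
  have sB : B2 = ∑ s ∈ Cf, (K.cOut s).ncard := by
    rw [hB2, ncard_fiber _ Cf (fun e : V × V => K.ctr e.1) (fun e he => hctr _ he.1)]
    refine Finset.sum_congr rfl fun s _ => ?_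
    congr 1
    ext e
    constructor
    · rintro ⟨⟨a1, a2, a3, a4⟩, a5⟩
      exact ⟨a1, a2, a3, a5, fun h => a4 (a5.trans h.symm)⟩
    · rintro ⟨a1, a2, a3, a4, a5⟩
      exact ⟨⟨a1, a2, a3, fun h => a5 (h.symm.trans a4)⟩, a4⟩
  have sA : A = ∑ s ∈ Cf, (K.hOut s).ncard := by
    rw [hA, ncard_fiber _ Cf (fun e : V × V => K.ctr e.1) (fun e he => hctr _ he.1)]
    refine Finset.sum_congr rfl fun s _ => ?_
    congr 1
    ext e
    constructor
    · rintro ⟨⟨a1, a2, a3⟩, a4⟩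
      exact ⟨a1, a4, a2, a3⟩
    · rintro ⟨a1, a2, a3, a4⟩
      exact ⟨⟨a1, a3, a4⟩, a2⟩
  have sE : ∑ s ∈ Cf, ({x0, y0} ∩ K.cl s : Set V).ncard ≤ 2 := by
    have e1 := ncard_fiber ({x0, y0} ∩ N : Set V) Cf K.ctr (fun v hv => hctr v hv.2)
    have e2 : ({x0, y0} ∩ N : Set V).ncard ≤ 2 :=
      (Set.ncard_le_ncard Set.inter_subset_left (Set.toFinite _)).trans
        ((Set.ncard_insert_le _ _).trans (by rw [Set.ncard_singleton]))
    rw [e1] at e2
    refine le_trans (le_of_eq ?_) e2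
    refine Finset.sum_congr rfl fun s _ => ?_
    congr 1
    ext v
    constructor
    · rintro ⟨a1, a2, a3⟩; exact ⟨⟨a1, a2⟩, a3⟩
    · rintro ⟨⟨a1, a2⟩, a3⟩; exact ⟨a1, a2, a3⟩
  have sum5 : N.ncard + 2 * p ≤ B2 + A + 2 := by
    have : ∑ s ∈ Cf, ((K.cl s).ncard + 2) ≤
        ∑ s ∈ Cf, ((K.cOut s).ncard + (K.hOut s).ncard + ({x0, y0} ∩ K.cl s : Set V).ncard) :=
      Finset.sum_le_sum fun s hs => out_ge K hT x0 y0 h3 h2 s (by
        rw [hCf, Set.mem_toFinset] at hs; exact hs)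
    rw [Finset.sum_add_distrib, Finset.sum_add_distrib, Finset.sum_add_distrib, ← sN, ← sB, ← sA,
      Finset.sum_const, smul_eq_mul, ← hpCf] at this
    omega
  -- good clusters
  have hgood : 3 * p ≤ 4 * τ + 8 := by
    set G := Cf.filter (fun s => (K.hOut s).ncard ≤ 2 ∧ x0 ∉ K.cl s ∧ y0 ∉ K.cl s) with hG
    have g1 : 96 * Mm * G.card ≤ B2 := by
      rw [sB]
      calc 96 * Mm * G.card = ∑ s ∈ G, 96 * Mm := by rw [Finset.sum_const, smul_eq_mul, mul_comm]
        _ ≤ ∑ s ∈ G, (K.cOut s).ncard := by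
          refine Finset.sum_le_sum fun s hs => ?_
          rw [hG, Finset.mem_filter, hCf, Set.mem_toFinset] at hs
          obtain ⟨hs1, hs2, hs3, hs4⟩ := hs
          have e0 : ({x0, y0} ∩ K.cl s : Set V).ncard = 0 := by
            rw [Set.ncard_eq_zero]
            ext v
            constructor
            · rintro ⟨a1, a2⟩
              rcases a1 with rfl | rfl
              · exact hs3 a2
              · exact hs4 a2
            · intro hv; exact absurd hv (Set.notMem_empty v)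
          have e1 := out_ge K hT x0 y0 h3 h2 s hs1
          have e2 := growth K hT hρ s hs1 (fun v hv => h3 v hv.1 (fun h => hs3 (h ▸ hv))
            (fun h => hs4 (h ▸ hv))) hs2
          rw [e0] at e1
          rw [hMm]
          omega
        _ ≤ ∑ s ∈ Cf, (K.cOut s).ncard :=
          Finset.sum_le_sum_of_subset_of_nonneg (Finset.filter_subset _ _)
            (fun _ _ _ => Nat.zero_le _)
    have g2 : B2 ≤ 24 * Mm * p := by rw [hMm]; exact cc_bound X m hX hP K hT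
    have g3 : p ≤ G.card + τ + 2 := by
      have : Cf ⊆ G ∪ {s | s ∈ K.Ctr ∧ 3 ≤ (K.hOut s).ncard}.toFinset ∪ {K.ctr x0, K.ctr y0} := by
        intro s hs
        have hs' := hs
        rw [hCf, Set.mem_toFinset] at hs'
        by_cases a1 : 3 ≤ (K.hOut s).ncard
        · refine Finset.mem_union_left _ (Finset.mem_union_right _ ?_)
          rw [Set.mem_toFinset]; exact ⟨hs', a1⟩
        by_cases a2 : x0 ∈ K.cl s
        · refine Finset.mem_union_right _ ?_
          rw [Finset.mem_insert]; left; exact a2.2.symm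
        by_cases a3 : y0 ∈ K.cl s
        · refine Finset.mem_union_right _ ?_
          rw [Finset.mem_insert, Finset.mem_singleton]; right; exact a3.2.symm
        refine Finset.mem_union_left _ (Finset.mem_union_left _ ?_)
        rw [hG, Finset.mem_filter]
        exact ⟨hs, by omega, a2, a3⟩
      have c1 := Finset.card_le_card this
      have c2 := Finset.card_union_le
        (G ∪ {s | s ∈ K.Ctr ∧ 3 ≤ (K.hOut s).ncard}.toFinset) {K.ctr x0, K.ctr y0}
      have c3 := Finset.card_union_le G {s | s ∈ K.Ctr ∧ 3 ≤ (K.hOut s).ncard}.toFinset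
      have c4 : ({K.ctr x0, K.ctr y0} : Finset V).card ≤ 2 := Finset.card_le_two
      have c5 : τ = {s | s ∈ K.Ctr ∧ 3 ≤ (K.hOut s).ncard}.toFinset.card :=
        Set.ncard_eq_toFinset_card' _
      omega
    have hMpos : 0 < 24 * Mm := by omega
    have g4 : 24 * Mm * (4 * G.card) ≤ 24 * Mm * p := by
      refine le_trans (le_of_eq ?_) (g1.trans g2)
      ring
    have g5 : 4 * G.card ≤ p := Nat.le_of_mul_le_mul_left g4 hMpos
    omega
  have hpn : p ≤ N.ncard := Set.ncard_le_ncard (fun s hs => hs.1) (Set.toFinite _)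
  have hEn : {v | deg H v ≠ 0}.ncard ≤ N.ncard + h := by
    refine le_trans (Set.ncard_le_ncard (t := N ∪ {g | g ∉ N ∧ deg H g ≠ 0}) ?_ (Set.toFinite _))
      (Set.ncard_union_le _ _)
    intro v hv
    by_cases hvN : v ∈ N
    · exact Or.inl hvN
    · exact Or.inr ⟨hvN, hv⟩
  rcases Nat.eq_zero_or_pos h with h0 | hpos
  · -- no hubs
    have hτ0 : τ = 0 := by
      have := tri_bound X m hX hP K hT
      rw [← hh, h0] at this
      simpa using this
    have hA0 : A = 0 := by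
      rw [hA, Set.ncard_eq_zero]
      ext e
      constructor
      · rintro ⟨a1, a2, a3⟩
        have : e.2 ∈ {g | g ∉ N ∧ deg H g ≠ 0} := by
          refine ⟨a2, ?_⟩
          unfold deg
          rw [Ne, Set.ncard_eq_zero]
          intro hemp
          have : e.1 ∈ H.neighborSet e.2 := a3.symm
          rw [hemp] at this
          exact this
        rw [hh, Set.ncard_eq_zero] at h0
        rw [h0] at this
        exact this
      · intro he; exact absurd he (Set.notMem_empty e)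
    have hp2 : p ≤ 2 := by omega
    have hB2' : B2 ≤ p * (p - 1) := cc_small K hT
    have hp1 : p ≠ 0 := by
      intro hp0
      have hNe : N.ncard = 0 := by rw [sN]; rw [hpCf, Finset.card_eq_zero] at hp0; rw [hp0]; simp
      have hx : x0 ∈ N ∪ {g | g ∉ N ∧ deg H g ≠ 0} := by
        by_cases hvN : x0 ∈ N
        · exact Or.inl hvN
        · exact Or.inr ⟨hvN, by omega⟩
      rw [hh, Set.ncard_eq_zero] at h0
      rw [Set.ncard_eq_zero] at hNe
      rw [h0, hNe] at hx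
      simp at hx
    have hcase : p = 1 ∨ p = 2 := by omega
    clear_value B2 A
    rcases hcase with hc | hc
    · rw [hc] at hB2' sum5 hpn
      omega
    · rw [hc] at hB2' sum5 hpn
      omega
  · have hτb : τ ≤ 396 * M3 * h := by rw [hM3]; exact tri_bound X m hX hP K hT
    have hAb : A ≤ 12 * (p + Mm * h) := by rw [hMm]; exact ch_bound X m hX hP K hT
    have hBb : B2 ≤ 24 * Mm * p := by rw [hMm]; exact cc_bound X m hX hP K hT
    have hpb : p ≤ Pp * h := by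
      rw [hPp]
      have : p ≤ 2 * τ + 3 := by omega
      nlinarith
    have hhs := hub_sum H X m hsym hX hP N D (fun g hg hg0 => by
      by_contra hlt
      exact hg ⟨hg0, by omega⟩)
    rw [← hh, ← hA] at hhs
    have e4 : (D + 1) * h ≤ D * h := by
      calc (D + 1) * h ≤ A + 8 * (m + 1) * h := hhs
        _ ≤ 12 * (Pp * h + Mm * h) + 8 * (m + 1) * h := by
          have : 12 * (p + Mm * h) ≤ 12 * (Pp * h + Mm * h) :=
            Nat.mul_le_mul_left _ (Nat.add_le_add_right hpb _)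
          omega
        _ = D * h := by
          rw [hD, Dm, ← hM3, ← hMm, ← hPp]
          ring
    have e5 : (D + 1) * h = D * h + h := by ring
    rw [e5] at e4
    exact absurd (Nat.le_of_add_le_add_left (a := D * h) (b := h) (c := 0) (by simpa using e4))
      (by exact not_le.2 hpos)

end Pool.Agent.Helper71.QU
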