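import Pool.Agent.Helper71.QU.Nlc2

/-!
# QU: two paths with the same ends, explicit constants
-/

open Set
open Pool.Agent.Helper83.OP

namespace Pool.Agent.Helper71.QU

/-- a good pair (`GoodPair`) whose first end has small degree, or all inner vertices of `Q` have
degree two -/
def GP {V : Type} (H : SimpleGraph V) (D B : ℕ) (w : Sym2 V → ℕ) : Prop :=
  ∃ (u v : V) (T Q : H.Walk u v), u ≠ v ∧ T.IsPath ∧ Q.IsPath ∧
    (∀ f ∈ T.edges, f ∉ Q.edges) ∧
    (∀ x ∈ T.support, x ∈ Q.support → x = u ∨ x = v) ∧
    (∀ x ∈ T.support, x ≠ u → x ≠ v → deg H x = 2) ∧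
    (∀ x ∈ Q.support, x ≠ u → x ≠ v → deg H x ≤ D) ∧ (Q.edges.map w).sum ≤ B ∧
    (deg H u ≤ D ∨ ∀ x ∈ Q.support, x ≠ u → x ≠ v → deg H x = 2)

theorem gp_base {V : Type} [Finite V] (H : SimpleGraph V) (e : Sym2 V) (w : Sym2 V → ℕ)
    (ℓ D0 W : ℕ) (hw : ∀ f ∈ H.edgeSet, w f ≤ W) (u : V) (C : (H.deleteEdges {e}).Walk u u)
    (hub : V) (hC : C.IsCycle) (hl : C.length ≤ ℓ)
    (hD : ∀ v ∈ C.support, v ≠ hub → deg (H.deleteEdges {e}) v ≤ D0) :
    GP H (max (D0 + 1) 2) (max (ℓ * W) W) w := by
  classical
  obtain ⟨a, C', hC', hl', hsup, hhub⟩ : ∃ (a : V) (C' : (H.deleteEdges {e}).Walk a a),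
      C'.IsCycle ∧ C'.length ≤ ℓ ∧ (∀ x, x ∈ C'.support → x ∈ C.support) ∧
      (hub ∈ C.support → a = hub) := by
    by_cases h : hub ∈ C.support
    · refine ⟨hub, C.rotate hub h, (SimpleGraph.Walk.isCycle_rotate h).2 hC, ?_, ?_, fun _ => rfl⟩
      · rw [SimpleGraph.Walk.length_rotate]; exact hl
      · intro x hx
        exact (SimpleGraph.Walk.mem_support_rotate_iff C hub h).1 hx
    · exact ⟨u, C, hC, hl, fun x hx => hx, fun h' => absurd h' h⟩
  cases C' with
  | nil => exact absurd hC' SimpleGraph.Walk.not_isCycle_nil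
  | @cons _ b _ h p =>
    rw [SimpleGraph.Walk.cons_isCycle_iff] at hC'
    obtain ⟨hp, hne⟩ := hC'
    have hle : ∀ f ∈ p.edges, f ∈ H.edgeSet := fun f hf =>
      SimpleGraph.edgeSet_mono (SimpleGraph.deleteEdges_le _) (SimpleGraph.Walk.edges_subset_edgeSet p hf)
    have hab : H.Adj a b := (SimpleGraph.deleteEdges_le _) h
    refine ⟨b, a, SimpleGraph.Walk.cons hab.symm SimpleGraph.Walk.nil, p.transfer H hle, hab.ne.symm,
      ?_, hp.transfer hle, ?_, ?_, ?_, ?_, ?_, ?_⟩
    · simp [SimpleGraph.Walk.cons_isPath_iff, hab.ne.symm]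
    · intro f hf
      rw [SimpleGraph.Walk.edges_transfer]
      simp only [SimpleGraph.Walk.edges_cons, SimpleGraph.Walk.edges_nil, List.mem_singleton] at hf
      rw [hf, Sym2.eq_swap]
      exact hne
    · intro x hx _
      simpa using hx
    · intro x hx h1 h2
      simp only [SimpleGraph.Walk.support_cons, SimpleGraph.Walk.support_nil, List.mem_cons,
        List.not_mem_nil, or_false] at hx
      rcases hx with hx | hx
      · exact absurd hx h1
      · exact absurd hx h2
    · intro x hx _ h2
      rw [SimpleGraph.Walk.support_transfer] at hx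
      have hxC : x ∈ C.support := hsup x (by simp [hx])
      have hxh : x ≠ hub := by
        rintro rfl
        exact h2 (hhub hxC).symm
      have := hD x hxC hxh
      have h3 := deg_del_le H e x
      exact le_trans (by omega) (le_max_left _ _)
    · rw [SimpleGraph.Walk.edges_transfer]
      have h1 : (p.edges.map w).sum ≤ (p.edges.map w).length • W := by
        apply List.sum_le_card_nsmul
        intro x hx
        rw [List.mem_map] at hx
        obtain ⟨f, hf, rfl⟩ := hx
        exact hw f (hle f hf)
      rw [List.length_map, SimpleGraph.Walk.length_edges, smul_eq_mul] at h1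
      have h2 : p.length * W ≤ ℓ * W := Nat.mul_le_mul_right _ (by
        simp only [SimpleGraph.Walk.length_cons] at hl'; omega)
      exact (h1.trans h2).trans (le_max_left _ _)
    · left
      have hbs : b ∈ C.support := hsup b (by simp)
      have hbh : b ≠ hub := by
        rintro rfl
        exact hab.ne (hhub hbs)
      have := hD b hbs hbh
      have h3 := deg_del_le H e b
      exact le_trans (by omega) (le_max_left _ _)

private theorem deg_z {V : Type} [Finite V] {H : SimpleGraph V} {z x y : V} (hzx : H.Adj z x)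
    (hzy : H.Adj z y) (hxy : x ≠ y) (hnb : ∀ a, H.Adj z a → a = x ∨ a = y) : deg H z = 2 := by
  unfold deg
  have : H.neighborSet z = {x, y} := by
    ext a
    simp only [SimpleGraph.mem_neighborSet, mem_insert_iff, mem_singleton_iff]
    constructor
    · exact hnb a
    · rintro (rfl | rfl)
      · exact hzx
      · exact hzy
  rw [this, ncard_pair hxy]

theorem supp_gp {V : Type} [Finite V] (H : SimpleGraph V) (z x y : V) (hzx : H.Adj z x)
    (hzy : H.Adj z y)
    (hxy : x ≠ y) (hnb : ∀ a, H.Adj z a → a = x ∨ a = y) (hn : ¬ H.Adj x y)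
    (w : Sym2 V → ℕ) (D B : ℕ) (hD : 2 ≤ D)
    (hG : GP (supp H z x y) D B (suppW w z x y)) : GP H D B w := by
  obtain ⟨u, v, T, Q, huv, hT, hQ, h1, h2, h3, h4, h5, h6⟩ := hG
  have huz : u ≠ z := by
    cases T with
    | nil => exact absurd rfl huv
    | cons h q => exact (supp_adj_ne hzx hzy hxy h).1
  obtain ⟨T', a1, a2, -, a4⟩ := lift_walk H z x y hzx hzy hxy hn w T huz
  obtain ⟨Q', b1, b2, b3, b4⟩ := lift_walk H z x y hzx hzy hxy hn w Q huz
  have hzT := supp_walk_ne hzx hzy hxy T huz
  have hzQ := supp_walk_ne hzx hzy hxy Q huz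
  have hdz := deg_z hzx hzy hxy hnb
  refine ⟨u, v, T', Q', huv, a4 hT, b4 hQ, ?_, ?_, ?_, ?_, by rw [b3]; exact h5, ?_⟩
  · intro f hf hf'
    obtain ⟨g, hg, hgf⟩ := (a2 f).1 hf
    obtain ⟨g', hg', hgf'⟩ := (b2 f).1 hf'
    have e1 := exps_contr hzx hzy hxy (SimpleGraph.Walk.edges_subset_edgeSet _ hg) hgf
    have e2 := exps_contr hzx hzy hxy (SimpleGraph.Walk.edges_subset_edgeSet _ hg') hgf'
    rw [← e1] at hg
    rw [← e2] at hg'
    exact h1 _ hg hg'
  · intro c hc hc'
    rcases (a1 c).1 hc with k1 | ⟨rfl, k1⟩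
    · rcases (b1 c).1 hc' with k2 | ⟨rfl, -⟩
      · exact h2 c k1 k2
      · exact absurd k1 hzT
    · rcases (b1 c).1 hc' with k2 | ⟨-, k2⟩
      · exact absurd k2 hzQ
      · exact absurd k2 (h1 _ k1)
  · intro c hc hcu hcv
    rcases (a1 c).1 hc with k1 | ⟨rfl, -⟩
    · have hcz : c ≠ z := by
        rintro rfl
        exact hzT k1
      rw [← (supp_deg H z x y hzx hzy hxy hnb hn).2 c hcz]
      exact h3 c k1 hcu hcv
    · exact hdz
  · intro c hc hcu hcv
    rcases (b1 c).1 hc with k1 | ⟨rfl, -⟩
    · have hcz : c ≠ z := by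
        rintro rfl
        exact hzQ k1
      rw [← (supp_deg H z x y hzx hzy hxy hnb hn).2 c hcz]
      exact h4 c k1 hcu hcv
    · rw [hdz]
      exact hD
  · rcases h6 with h6 | h6
    · left
      rw [← (supp_deg H z x y hzx hzy hxy hnb hn).2 u huz]
      exact h6
    · right
      intro c hc hcu hcv
      rcases (b1 c).1 hc with k1 | ⟨rfl, -⟩
      · have hcz : c ≠ z := by
          rintro rfl
          exact hzQ k1
        rw [← (supp_deg H z x y hzx hzy hxy hnb hn).2 c hcz]
        exact h6 c k1 hcu hcv
      · exact hdz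

open Classical in
theorem gp_of (W ℓ D0 : ℕ)
    (hnlc : ∀ (V : Type) [Finite V] (H : SimpleGraph V)
    (X : Sym2 V → Sym2 V → Prop) (x0 y0 : V), (∀ f f', X f f' → X f' f) →
    (∀ f ∈ H.edgeSet, {f' | f' ∈ H.edgeSet ∧ X f f'}.ncard ≤ W) → PlanarLike H X →
    2 ≤ deg H x0 → 2 ≤ deg H y0 → (∀ v, v ≠ x0 → v ≠ y0 → deg H v = 0 ∨ 3 ≤ deg H v) →
    ∃ (u : V) (C : H.Walk u u) (hub : V), C.IsCycle ∧ C.length ≤ ℓ ∧
      ∀ v ∈ C.support, v ≠ hub → deg H v ≤ D0)
    (V : Type) [Finite V] (H : SimpleGraph V) (e : Sym2 V)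
    (X : Sym2 V → Sym2 V → Prop) (w : Sym2 V → ℕ) (he : e ∈ H.edgeSet)
    (hsym : ∀ f f', X f f' → X f' f)
    (hX : ∀ f ∈ H.edgeSet, f ≠ e → {f' | f' ∈ H.edgeSet ∧ f' ≠ e ∧ X f f'}.ncard ≤ w f)
    (hP : PlanarLike (H.deleteEdges {e}) X) (hd1 : ∀ v, deg H v ≠ 1)
    (hW : ∀ u v (p : H.Walk u v), p.IsPath → (∀ c ∈ p.support, c ≠ u → c ≠ v → deg H c = 2) →
      (p.edges.map w).sum ≤ W) : GP H (max (D0 + 1) 2) (max (ℓ * W) W) w := by
  revert hW hd1 hP hX hsym he
  suffices h : ∀ n : ℕ, ∀ (H : SimpleGraph V) (e : Sym2 V)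
      (X : Sym2 V → Sym2 V → Prop) (w : Sym2 V → ℕ), {v | deg H v = 2}.ncard = n →
      e ∈ H.edgeSet → (∀ f f', X f f' → X f' f) →
      (∀ f ∈ H.edgeSet, f ≠ e → {f' | f' ∈ H.edgeSet ∧ f' ≠ e ∧ X f f'}.ncard ≤ w f) →
      PlanarLike (H.deleteEdges {e}) X → (∀ v, deg H v ≠ 1) →
      (∀ u v (p : H.Walk u v), p.IsPath → (∀ c ∈ p.support, c ≠ u → c ≠ v → deg H c = 2) →
      (p.edges.map w).sum ≤ W) → GP H (max (D0 + 1) 2) (max (ℓ * W) W) w from
    h _ H e X w rfl
  intro n
  induction n using Nat.strong_induction_on with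
  | _ n ih =>
    intro H e X w hn he hsym hX hP hd1 hW
    have hwW : ∀ f ∈ H.edgeSet, w f ≤ W := by
      intro f hf
      induction f using Sym2.ind with
      | _ a b =>
        have hab : H.Adj a b := hf
        have := hW a b (SimpleGraph.Walk.cons hab SimpleGraph.Walk.nil)
          (by simp [SimpleGraph.Walk.cons_isPath_iff, hab.ne]) (by
            intro c hc h1 h2
            simp only [SimpleGraph.Walk.support_cons, SimpleGraph.Walk.support_nil, List.mem_cons,
              List.not_mem_nil, or_false] at hc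
            rcases hc with hc | hc
            · exact absurd hc h1
            · exact absurd hc h2)
        simpa using this
    by_cases hz : ∃ z, deg H z = 2
    · obtain ⟨z, hz⟩ := hz
      have hz' := hz
      unfold deg at hz'
      rw [Set.ncard_eq_two] at hz'
      obtain ⟨x, y, hxy, hnbr⟩ := hz'
      have hmem : ∀ a, H.Adj z a ↔ a = x ∨ a = y := by
        intro a
        have : a ∈ H.neighborSet z ↔ a ∈ ({x, y} : Set V) := by rw [hnbr]
        simpa using this
      have hzx : H.Adj z x := (hmem x).2 (Or.inl rfl)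
      have hzy : H.Adj z y := (hmem y).2 (Or.inr rfl)
      have hnb : ∀ a, H.Adj z a → a = x ∨ a = y := fun a => (hmem a).1
      by_cases hadj : H.Adj x y
      · refine ⟨x, y, SimpleGraph.Walk.cons hzx.symm (SimpleGraph.Walk.cons hzy
          SimpleGraph.Walk.nil), SimpleGraph.Walk.cons hadj SimpleGraph.Walk.nil, hxy, ?_, ?_, ?_,
          ?_, ?_, ?_, ?_, ?_⟩
        · simp [SimpleGraph.Walk.cons_isPath_iff, hzx.ne.symm, hzy.ne, hxy]
        · simp [SimpleGraph.Walk.cons_isPath_iff, hxy]
        · intro f hf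
          simp only [SimpleGraph.Walk.edges_cons, SimpleGraph.Walk.edges_nil, List.mem_cons,
            List.not_mem_nil, or_false] at hf ⊢
          rcases hf with rfl | rfl
          · rw [Sym2.eq_iff]
            rintro (⟨_, h⟩ | ⟨h, _⟩)
            · exact hzy.ne h
            · exact hxy h
          · rw [Sym2.eq_iff]
            rintro (⟨h, _⟩ | ⟨h, _⟩)
            · exact hzx.ne h
            · exact hzy.ne h
        · intro c _ hc
          simpa using hc
        · intro c hc h1 h2
          simp only [SimpleGraph.Walk.support_cons, SimpleGraph.Walk.support_nil, List.mem_cons,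
            List.not_mem_nil, or_false] at hc
          rcases hc with hc | hc | hc
          · exact absurd hc h1
          · rw [hc]; exact hz
          · exact absurd hc h2
        · intro c hc h1 h2
          simp only [SimpleGraph.Walk.support_cons, SimpleGraph.Walk.support_nil, List.mem_cons,
            List.not_mem_nil, or_false] at hc
          rcases hc with hc | hc
          · exact absurd hc h1
          · exact absurd hc h2
        · have := hwW s(x, y) hadj
          simp only [SimpleGraph.Walk.edges_cons, SimpleGraph.Walk.edges_nil, List.map_cons,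
            List.map_nil, List.sum_cons, List.sum_nil, add_zero]
          exact this.trans (le_max_right _ _)
        · right
          intro c hc h1 h2
          simp only [SimpleGraph.Walk.support_cons, SimpleGraph.Walk.support_nil, List.mem_cons,
            List.not_mem_nil, or_false] at hc
          rcases hc with hc | hc
          · exact absurd hc h1
          · exact absurd hc h2
      · obtain ⟨e', he'⟩ : ∃ e', e' = if e = s(x, z) ∨ e = s(z, y) then s(x, y) else e := ⟨_, rfl⟩
        obtain ⟨d1, d2⟩ := supp_deg H z x y hzx hzy hxy hnb hadj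
        obtain ⟨p1, p2⟩ := supp_partner H z x y hzx hzy hxy hnb hadj e he X w hX e' (by rw [he'])
        refine supp_gp H z x y hzx hzy hxy hnb hadj w _ _ (le_max_right _ _) ?_
        refine ih _ ?_ (supp H z x y) e' (suppX X z x y) (suppW w z x y) rfl p1 ?_ p2
          (supp_planar H z x y hzx hzy hxy hnb hadj e he X hP e' (by rw [he'])) ?_
          (supp_weight H z x y hzx hzy hxy hnb hadj w W hW)
        · rw [← hn]
          refine Set.ncard_lt_ncard ?_ (Set.toFinite _)
          refine ⟨fun v hv => ?_, fun hsub => ?_⟩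
          · have hvz : v ≠ z := by
              rintro rfl
              rw [Set.mem_ofPred_eq, d1] at hv
              exact absurd hv (by norm_num)
            rw [Set.mem_ofPred_eq, d2 v hvz] at hv
            exact hv
          · have := hsub (show z ∈ {v | deg H v = 2} from hz)
            rw [Set.mem_ofPred_eq, d1] at this
            exact absurd this (by norm_num)
        · rintro f f' ⟨h1, g, g', h2, h3, h4⟩
          exact ⟨h1.symm, g', g, h3, h2, hsym _ _ h4⟩
        · intro v
          by_cases hvz : v = z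
          · rw [hvz, d1]; norm_num
          · rw [d2 v hvz]; exact hd1 v
    · have hd2 : ∀ v, deg H v ≠ 2 := fun v hv => hz ⟨v, hv⟩
      induction e using Sym2.ind with
      | _ x0 y0 =>
        have hadj : H.Adj x0 y0 := he
        have hpos : ∀ a b, H.Adj a b → deg H a ≠ 0 := by
          intro a b hab
          unfold deg
          rw [Ne, Set.ncard_eq_zero]
          intro h
          have : b ∈ H.neighborSet a := hab
          rw [h] at this
          exact this
        have hx3 : 3 ≤ deg H x0 := by
          have := hpos x0 y0 hadj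
          have := hd1 x0
          have := hd2 x0
          omega
        have hy3 : 3 ≤ deg H y0 := by
          have := hpos y0 x0 hadj.symm
          have := hd1 y0
          have := hd2 y0
          omega
        obtain ⟨u, C, hub, hC, hl, hD⟩ := hnlc V (H.deleteEdges {s(x0, y0)}) X x0 y0 hsym
          (by
            intro f hf
            rw [SimpleGraph.edgeSet_deleteEdges] at hf
            refine le_trans (Set.ncard_le_ncard ?_ (Set.toFinite _))
              ((hX f hf.1 (by simpa using hf.2)).trans (hwW f hf.1))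
            rintro f' ⟨h1, h2⟩
            rw [SimpleGraph.edgeSet_deleteEdges] at h1
            exact ⟨h1.1, by simpa using h1.2, h2⟩)
          hP
          (by have := deg_del_le H s(x0, y0) x0; omega)
          (by have := deg_del_le H s(x0, y0) y0; omega)
          (by
            intro v h1 h2
            rw [deg_del_eq H x0 y0 v h1 h2]
            have := hd1 v
            have := hd2 v
            omega)
        exact gp_base H s(x0, y0) w ℓ D0 W hwW u C hub hC hl hD

end Pool.Agent.Helper71.QU
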