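import Pool.Agent.Helper71.QU.Sqrt

/-!
# QU: the bound `√Δ log Δ log n` and the bound `n^(1/3) log² n`: the main theorem
-/

open Set
open Pool.Agent.Helper83.OP Pool.Agent.Helper95.UP

namespace Pool.Agent.Helper71.QU

theorem num_light (s ρ r lam D : ℕ) (hs : 1 ≤ s) (hρ : 20 ≤ ρ) (hsr : s ≤ lam * r)
    (hD : D ≤ 200000 * (s * ρ)) :
    2 * ((8 * ρ + 3) * D + 2 * ((8 * ρ + 2) * s + 1) + 8 * ((8 * ρ + 2) * s)) ≤
      4000000 * (lam * (ρ * ρ)) * r := by
  have h1 : (8 * ρ + 3) * D ≤ (9 * ρ) * (200000 * (s * ρ)) := Nat.mul_le_mul (by omega) hD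
  have h2 : (9 * ρ) * (200000 * (s * ρ)) = 1800000 * (s * (ρ * ρ)) := by ring
  have h3 : (8 * ρ + 2) * s ≤ (9 * ρ) * s := Nat.mul_le_mul_right _ (by omega)
  have h4 : (9 * ρ) * s = 9 * (s * ρ) := by ring
  have h5 : s * ρ ≤ s * (ρ * ρ) :=
    Nat.mul_le_mul_left _ (Nat.le_mul_of_pos_right _ (by omega))
  have h6 : 1 ≤ s * ρ := Nat.mul_pos hs (by omega)
  have h7 : 4000000 * (lam * (ρ * ρ)) * r = 4000000 * ((lam * r) * (ρ * ρ)) := by ring
  have h8 : s * (ρ * ρ) ≤ (lam * r) * (ρ * ρ) := Nat.mul_le_mul_right _ hsr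
  rw [h7]
  rw [h2] at h1
  rw [h4] at h3
  generalize (8 * ρ + 3) * D = z1 at *
  generalize (8 * ρ + 2) * s = z2 at *
  generalize (lam * r) * (ρ * ρ) = z3 at *
  generalize s * (ρ * ρ) = z4 at *
  generalize s * ρ = z5 at *
  omega

theorem num_heavy (s q lam D : ℕ) (hlam : 1 ≤ lam) (hD : D ≤ 5000000 * (lam * s)) (W : ℕ)
    (hW : s < W) :
    2 * ((q + 1) * D + 2 * (q * W + 1) + 8 * (q * W)) ≤ 10000024 * ((q + 1) * lam) * W := by
  have h1 : (q + 1) * D ≤ (q + 1) * (5000000 * (lam * W)) :=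
    Nat.mul_le_mul_left _ (hD.trans (Nat.mul_le_mul_left _ (Nat.mul_le_mul_left _ hW.le)))
  have h2 : (q + 1) * (5000000 * (lam * W)) = 5000000 * ((q + 1) * lam * W) := by ring
  have h3 : q * W ≤ (q + 1) * lam * W := by
    apply Nat.mul_le_mul_right
    calc q ≤ (q + 1) * 1 := by omega
      _ ≤ (q + 1) * lam := Nat.mul_le_mul_left _ hlam
  have h4 : 1 ≤ (q + 1) * lam * W := Nat.mul_pos (Nat.mul_pos (by omega) hlam) (by omega)
  have h5 : 10000024 * ((q + 1) * lam) * W = 10000024 * ((q + 1) * lam * W) := by ring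
  rw [h5]
  rw [h2] at h1
  generalize (q + 1) * D = z1 at *
  generalize q * W = z2 at *
  generalize (q + 1) * lam * W = z3 at *
  omega

theorem num_q (L l ρ : ℕ) (hL : 1 ≤ L) (hl : 1 ≤ l) (hρ : 20 ≤ ρ) (hρl : ρ ≤ 22 * l) :
    (8 * (8 * L) + 2) * (4 * (1800 * ρ) + 1) + 1 ≤ 10455853 * (l * L) := by
  have h1 : 8 * (8 * L) + 2 ≤ 66 * L := by omega
  have h2 : 4 * (1800 * ρ) + 1 ≤ 158422 * l := by omega
  have h3 := Nat.mul_le_mul h1 h2
  have h4 : 66 * L * (158422 * l) = 10455852 * (l * L) := by ring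
  have h5 : 1 ≤ l * L := Nat.mul_pos hl hL
  rw [h4] at h3
  omega

theorem sqrt_c (lam r : ℕ) (hlam : 1 ≤ lam) (hr : 1 ≤ r) (V : Type) [Fintype V]
    (G : SimpleGraph V) (h1 : ¬ KPl 1 G) (hcrit : ∀ e ∈ G.edgeSet, KPl 1 (G.deleteEdges {e}))
    (hthr : ThrMin G r) (hcase : (∀ v, deg G v ≤ lam ^ 2 * r) ∨
      (Nat.log 2 (Fintype.card V) + 1 ≤ lam ∧ Fintype.card V ≤ lam ^ 3 * r ^ 2)) :
    KPl (10 ^ 15 * (lam * (Nat.log 2 (lam * r) + 1) * (Nat.log 2 (Fintype.card V) + 1))) G := by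
  classical
  obtain ⟨n, hn⟩ : ∃ n, n = Fintype.card V := ⟨_, rfl⟩
  obtain ⟨L, hL⟩ : ∃ L, L = Nat.log 2 n + 1 := ⟨_, rfl⟩
  obtain ⟨l, hl'⟩ : ∃ l, l = Nat.log 2 (lam * r) + 1 := ⟨_, rfl⟩
  rw [← hn, ← hL] at hcase ⊢
  rw [← hl']
  have hL1 : 1 ≤ L := by omega
  have hl1 : 1 ≤ l := by omega
  have hZ : 1 ≤ lam * l * L := Nat.mul_pos (Nat.mul_pos hlam hl1) hL1
  have hdeg := crit_deg G h1 hcrit
  have hne : ∃ e0, e0 ∈ G.edgeSet := by
    by_contra hcon
    push Not at hcon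
    have : G = ⊥ := by
      rw [← SimpleGraph.edgeSet_eq_empty]
      exact Set.eq_empty_of_forall_notMem hcon
    exact h1 (this ▸ kpl_bot 1)
  obtain ⟨e0, he0⟩ := hne
  have hn1 : 1 ≤ n := by
    rw [hn]
    induction e0 using Sym2.ind with
    | _ a b => exact Fintype.card_pos_iff.2 ⟨a⟩
  obtain ⟨pos, γ, hd, hc⟩ := hcrit e0 he0
  have hX : ∀ f ∈ G.edgeSet, f ≠ e0 →
      {f' | f' ∈ G.edgeSet ∧ f' ≠ e0 ∧ CrossRel γ f f'}.ncard ≤ 1 :=
    fun f hf hf0 => partner_le G e0 γ hc f hf hf0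
  have hP : PlanarLike (G.deleteEdges {e0}) (CrossRel γ) := planarLike_of_drawing _ pos γ hd
  have hE := crit_edges G e0 (CrossRel γ) (crossRel_symm γ) hX hP
  rw [← hn] at hE
  rcases reduce G e0 (CrossRel γ) (fun _ => 1) he0 (crossRel_symm γ) hX hP hdeg with hpar | hred
  · refine kpl_le (par_case G hcrit hpar) ?_
    generalize lam * l * L = Z at *
    omega
  obtain ⟨H, e', X, w', Ex, he', hsym, hXw, hPl, hd3, hdd, htot, hEx, hlift⟩ := hred
  have hl : Lft G H w' Ex := ⟨hEx, hlift⟩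
  rw [tot_one] at htot
  -- the weights
  have hw : ∀ f ∈ H.edgeSet, r ≤ w' f ∧ w' f < n := by
    intro f hf
    induction f using Sym2.ind with
    | _ a b =>
      have hab : H.Adj a b := hf
      obtain ⟨T, t1, t2, t3, t4⟩ := edge_thread hl hab
      rw [← t4]
      refine ⟨hthr a b T t1 hab.ne ?_ ?_ t2, ?_⟩
      · rw [← hdd a (deg_pos hab)]
        exact (hd3 a).resolve_left (deg_pos hab)
      · rw [← hdd b (deg_pos hab.symm)]
        exact (hd3 b).resolve_left (deg_pos hab.symm)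
      · rw [hn]
        exact t1.length_lt
  obtain ⟨s, hs⟩ : ∃ s, s = min (lam * r) n := ⟨_, rfl⟩
  have hlr : 1 ≤ lam * r := Nat.mul_pos hlam hr
  have hs1 : 1 ≤ s := by rw [hs]; exact le_min hlr hn1
  have hsr : s ≤ lam * r := by rw [hs]; exact min_le_left _ _
  have hsn : s ≤ n := by rw [hs]; exact min_le_right _ _
  obtain ⟨ρ, hρ⟩ : ∃ ρ, ρ = rho s := ⟨_, rfl⟩
  have hρ20 : 20 ≤ ρ := by rw [hρ, rho]; omega
  have hρl : ρ ≤ 22 * l := by
    rw [hρ, hl']
    exact rho_le _ _ hlr hsr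
  have hρL : ρ ≤ 22 * L := by
    rw [hρ, hL]
    exact rho_le _ _ hn1 hsn
  have hρ2 : 96 * (2 * s * (4 * ρ + 1) + 1) ≤ 2 ^ (ρ - 1) := by
    rw [hρ]
    exact rho_ok s
  have hA := A0_le s ρ hs1 hρ20
  -- the light edges
  obtain ⟨Hs, hHs⟩ : ∃ Hs, Hs = H.deleteEdges ({e'} ∪ {f | s < w' f}) := ⟨_, rfl⟩
  have hHsm : ∀ f, f ∈ Hs.edgeSet ↔ f ∈ H.edgeSet ∧ f ≠ e' ∧ w' f ≤ s := by
    intro f
    rw [hHs, SimpleGraph.edgeSet_deleteEdges]
    constructor
    · rintro ⟨h2, h3⟩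
      refine ⟨h2, fun h4 => h3 (Or.inl h4), ?_⟩
      by_contra h4
      push Not at h4
      exact h3 (Or.inr h4)
    · rintro ⟨h2, h3, h4⟩
      refine ⟨h2, ?_⟩
      rintro (h5 | h5)
      · exact h3 h5
      · have h6 : s < w' f := h5
        omega
  have hle : Hs ≤ H := by rw [hHs]; exact SimpleGraph.deleteEdges_le _
  have hle2 : Hs ≤ H.deleteEdges {e'} := by
    rw [hHs]
    exact SimpleGraph.deleteEdges_anti (by intro f hf; exact Or.inl hf)
  have hXs : ∀ f ∈ Hs.edgeSet, {f' | f' ∈ Hs.edgeSet ∧ X f f'}.ncard ≤ s := by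
    intro f hf
    rw [hHsm] at hf
    refine (Set.ncard_le_ncard ?_ (Set.toFinite _)).trans ((hXw f hf.1 hf.2.1).trans hf.2.2)
    rintro f' ⟨h2, h3⟩
    rw [hHsm] at h2
    exact ⟨h2.1, h2.2.1, h3⟩
  have hPs := PlanarLike.mono hle2 hPl
  obtain ⟨N, hN⟩ : ∃ N : Set V, N = {v | deg H v ≠ 0 ∧ deg H v ≤ 2 * A0 s ρ} := ⟨_, rfl⟩
  by_cases hno : NoLight Hs N ρ
  · -- a long edge on a short cycle
    have hH0 : ∃ v, deg H v ≠ 0 := by
      induction e' using Sym2.ind with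
      | _ a b => exact ⟨a, deg_pos (show H.Adj a b from he')⟩
    have hnl : ¬ NoLong H Hs e' ((8 * (8 * L) + 2) * (4 * (1800 * ρ) + 1)) := by
      intro hnl
      refine case_long H Hs hle ρ s (8 * L) e' (by omega) hρ2 X hsym hXs hPs hd3 N hN hno ?_ hnl hH0
      rw [Nat.card_eq_fintype_card, ← hn, hL]
      exact pow_t n
    unfold NoLong at hnl
    push Not at hnl
    obtain ⟨x, y, ⟨g1, g2, g3⟩, p, hp, hq⟩ := hnl
    have hsw : s < w' s(x, y) := by
      by_contra hcon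
      push Not at hcon
      exact g2 (show s(x, y) ∈ Hs.edgeSet from (hHsm _).2 ⟨g1, g3, hcon⟩)
    have hwn := (hw s(x, y) g1).2
    have hseq : s = lam * r := by
      rw [hs] at hsw ⊢
      omega
    -- the degrees
    have hD : ∃ D, D ≤ 5000000 * (lam * s) ∧ ∀ v, deg H v ≠ 0 → deg G v ≤ D := by
      rcases hcase with hcase | ⟨hc1, hc2⟩
      · refine ⟨lam * s, by omega, fun v _ => ?_⟩
        rw [hseq, ← mul_assoc, ← sq]
        exact hcase v
      · refine ⟨2 * A0 s ρ + 680 * (lam * s), ?_, ?_⟩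
        · have h2 : s * ρ ≤ 22 * (lam * s) := by
            calc s * ρ ≤ s * (22 * lam) := Nat.mul_le_mul_left _ (by omega)
              _ = 22 * (lam * s) := by ring
          generalize lam * s = z1 at *
          generalize s * ρ = z2 at *
          omega
        · intro v hv
          rw [← hdd v hv]
          by_contra hcon
          push Not at hcon
          refine case_hub H Hs hle ρ s (by omega) hρ2 X hsym hXs hPs hd3 N hN hno v (by omega) ?_
          -- few long edges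
          have k1 := long_le H w' s
          obtain ⟨a, ha⟩ : ∃ a, a = {f | f ∈ H.edgeSet ∧ s < w' f}.ncard := ⟨_, rfl⟩
          rw [← ha] at k1
          have k2 : a ≤ 8 * (lam * s) := by
            by_contra hcon2
            push Not at hcon2
            have k3 : (s + 1) * (8 * (lam * s) + 1) ≤ (s + 1) * a := Nat.mul_le_mul_left _ hcon2
            have k4 : (s + 1) * (8 * (lam * s) + 1) = 8 * (lam ^ 3 * r ^ 2) + (s + 8 * (lam * s)) + 1 := by
              rw [hseq]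
              ring
            omega
          have k5 : (Fd H Hs).ncard ≤ 2 * {f | f ∈ H.edgeSet ∧ f ∉ Hs.edgeSet}.ncard := by
            apply darts_le
            rintro ⟨a, b⟩ ⟨h2, h3⟩
            exact ⟨h2, h3⟩
          have k6 : {f | f ∈ H.edgeSet ∧ f ∉ Hs.edgeSet}.ncard ≤ a + 1 := by
            rw [ha]
            refine (Set.ncard_le_ncard (t := {f | f ∈ H.edgeSet ∧ s < w' f} ∪ {e'}) ?_
              (Set.toFinite _)).trans ((Set.ncard_union_le _ _).trans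
                (by rw [Set.ncard_singleton]))
            rintro f ⟨h2, h3⟩
            rw [hHsm] at h3
            by_cases h4 : f = e'
            · exact Or.inr h4
            · left
              refine ⟨h2, ?_⟩
              by_contra h5
              push Not at h5
              exact h3 ⟨h2, h4, h5⟩
          have k7 : 1 ≤ lam * s := Nat.mul_pos hlam hs1
          generalize lam * s = z1 at *
          omega
    obtain ⟨D, hD1, hD2⟩ := hD
    obtain ⟨q, hqd⟩ : ∃ q, q = (8 * (8 * L) + 2) * (4 * (1800 * ρ) + 1) := ⟨_, rfl⟩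
    have hq1 := num_q L l ρ hL1 hl1 hρ20 hρl
    rw [← hqd] at hq hq1
    refine kpl_le (case_heavy G H w' Ex hl hcrit s q D (10000024 * ((q + 1) * lam)) g1 hsw p hp hq
      hD2 (fun W hW => num_heavy s q lam D hlam hD1 W hW)) ?_
    have h2 : (q + 1) * lam ≤ 10455853 * (lam * l * L) := by
      calc (q + 1) * lam ≤ (10455853 * (l * L)) * lam := Nat.mul_le_mul_right _ hq1
        _ = 10455853 * (lam * l * L) := by ring
    generalize (q + 1) * lam = z1 at *
    generalize lam * l * L = z2 at *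
    omega
  · -- a light cycle
    refine kpl_le (case_light G H Hs w' Ex hl hcrit hle s r (2 * A0 s ρ) ρ
      (4000000 * (lam * (ρ * ρ))) (fun f hf => ((hHsm f).1 hf).2.2) (fun f hf => (hw f hf).1) N ?_
      hno (num_light s ρ r lam _ hs1 hρ20 hsr ?_)) ?_
    · intro v hv
      rw [hN] at hv
      rw [← hdd v hv.1]
      exact hv.2
    · generalize s * ρ = z1 at *
      omega
    · have h2 : lam * (ρ * ρ) ≤ 484 * (lam * l * L) := by
        calc lam * (ρ * ρ) ≤ lam * ((22 * l) * (22 * L)) :=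
              Nat.mul_le_mul_left _ (Nat.mul_le_mul hρl hρL)
          _ = 484 * (lam * l * L) := by ring
      generalize lam * (ρ * ρ) = z1 at *
      generalize lam * l * L = z2 at *
      omega

/-- **Theorem U** -/
theorem main_sqrt : ∃ c : ℕ, ∀ (lam r : ℕ) (V : Type) [Fintype V] (G : SimpleGraph V), 1 ≤ lam →
    1 ≤ r → ¬ KPl 1 G → (∀ e ∈ G.edgeSet, KPl 1 (G.deleteEdges {e})) → ThrMin G r →
    ((∀ v, deg G v ≤ lam ^ 2 * r) ∨
      (Nat.log 2 (Fintype.card V) + 1 ≤ lam ∧ Fintype.card V ≤ lam ^ 3 * r ^ 2)) →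
    KPl (c * (lam * (Nat.log 2 (lam * r) + 1) * (Nat.log 2 (Fintype.card V) + 1))) G :=
  ⟨10 ^ 15, fun lam r V _ G h1 h2 h3 h4 h5 h6 => sqrt_c lam r h1 h2 V G h3 h4 h5 h6⟩

end Pool.Agent.Helper71.QU
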