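import Pool.Agent.Helper71.QU.Girth

/-!
# QU: super clusters
-/

open Set
open Pool.Agent.Helper83.OP

namespace Pool.Agent.Helper71.QU

section Sup

variable {V : Type} [Finite V] {H Hs : SimpleGraph V}

omit [Finite V] in
/-- vertices of all smaller depths -/
theorem exists_depth {N : Set V} {ρ : ℕ} (K : Clus Hs N ρ) : ∀ n, ∀ v ∈ N, K.d v = n → ∀ i ≤ n,
    ∃ w ∈ N, K.ctr w = K.ctr v ∧ K.d w = i := by
  intro n
  induction n with
  | zero =>
    intro v hv hd i hi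
    exact ⟨v, hv, rfl, by omega⟩
  | succ n ih =>
    intro v hv hd i hi
    rcases Nat.lt_or_ge n i with h | h
    · exact ⟨v, hv, rfl, by omega⟩
    · have hd0 : K.d v ≠ 0 := by omega
      have h1 := K.par_d v hv hd0
      obtain ⟨w, hw, h2, h3⟩ := ih (K.par v) (K.par_mem v hv hd0) (by omega) i h
      exact ⟨w, hw, h2.trans (K.par_ctr v hv hd0), h3⟩

omit [Finite V] in
/-- a vertex and the centre of its small cluster are in the same large cluster -/
theorem same_large {N N3 : Set V} {ρ ρ3 : ℕ} (hN : ∀ v ∈ N, v ∈ N3) (K : Clus Hs N ρ)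
    (K3 : Clus Hs N3 ρ3) : ∀ n, ∀ v ∈ N, K.d v = n → K3.d v + n < ρ3 →
    K3.ctr (K.ctr v) = K3.ctr v ∧ K3.d (K.ctr v) ≤ K3.d v + n ∧ K3.d v ≤ K3.d (K.ctr v) + n := by
  intro n
  induction n with
  | zero =>
    intro v hv hd _
    rw [K.d_zero v hv hd]
    exact ⟨rfl, by omega, by omega⟩
  | succ n ih =>
    intro v hv hd hlt
    have hd0 : K.d v ≠ 0 := by omega
    have h1 := K.par_d v hv hd0
    have hu := K.par_mem v hv hd0
    have hadj := K.par_adj v hv hd0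
    have h2 := K3.near v (hN v hv) _ (hN _ hu) hadj (by omega)
    have h3 := K3.lip v (hN v hv) _ (hN _ hu) hadj
    have h4 := K3.lip _ (hN _ hu) v (hN v hv) hadj.symm
    obtain ⟨k1, k2, k3⟩ := ih (K.par v) hu (by omega) (by omega)
    rw [K.par_ctr v hv hd0] at k1 k2 k3
    exact ⟨k1.trans h2, by omega, by omega⟩

/-- large clusters of large radius are few -/
theorem big_few {N N3 : Set V} {ρ : ℕ} (hρ : 1 ≤ ρ) (hN : ∀ v ∈ N, v ∈ N3) (K : Clus Hs N ρ)
    (K3 : Clus Hs N3 (1800 * ρ)) :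
    180 * {z | z ∈ K3.Ctr ∧ ∃ v ∈ N3, K3.ctr v = z ∧ 1800 * ρ ≤ K3.d v}.ncard ≤
      K.Ctr.ncard + {g | g ∉ N ∧ g ∈ N3}.ncard := by
  classical
  set B := {z | z ∈ K3.Ctr ∧ ∃ v ∈ N3, K3.ctr v = z ∧ 1800 * ρ ≤ K3.d v} with hB
  have hfinB : B.Finite := Set.toFinite _
  have hex : ∀ z : V, ∀ j : ℕ, ∃ w, z ∈ B → j < 180 → w ∈ N3 ∧ K3.ctr w = z ∧
      K3.d w = 10 * ρ * j := by
    intro z j
    by_cases hz : z ∈ B ∧ j < 180
    · obtain ⟨⟨-, v, hv, h1, h2⟩, hj⟩ := hz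
      have h3 : 10 * ρ * j ≤ K3.d v := by
        have : 10 * ρ * j ≤ 10 * ρ * 180 := Nat.mul_le_mul_left _ hj.le
        omega
      obtain ⟨w, hw, h4, h5⟩ := exists_depth K3 _ v hv rfl _ h3
      exact ⟨w, fun _ _ => ⟨hw, h4.trans h1, h5⟩⟩
    · exact ⟨z, fun h1 h2 => absurd ⟨h1, h2⟩ hz⟩
  choose w hw using hex
  obtain ⟨ν, hν⟩ : ∃ ν : V → V, ∀ v, ν v = if v ∈ N then K.ctr v else v := ⟨_, fun _ => rfl⟩
  have hkey : ∀ z ∈ B, ∀ j < 180, ∀ z' ∈ B, ∀ j' < 180, ν (w z j) = ν (w z' j') →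
      z = z' ∧ j = j' := by
    intro z hz j hj z' hz' j' hj' h
    obtain ⟨a1, a2, a3⟩ := hw z j hz hj
    obtain ⟨b1, b2, b3⟩ := hw z' j' hz' hj'
    have hmono : ∀ i, i < 180 → 10 * ρ * i ≤ 1790 * ρ := by
      intro i hi
      calc 10 * ρ * i ≤ 10 * ρ * 179 := Nat.mul_le_mul_left _ (by omega)
        _ = 1790 * ρ := by ring
    have hfin : ∀ i i' : ℕ, 10 * ρ * i ≤ 10 * ρ * i' + 4 * ρ → i ≤ i' := by
      intro i i' hii
      by_contra hlt
      push Not at hlt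
      have : 10 * ρ * (i' + 1) ≤ 10 * ρ * i := Nat.mul_le_mul_left _ hlt
      have e : 10 * ρ * (i' + 1) = 10 * ρ * i' + 10 * ρ := by ring
      omega
    have m1 := hmono j hj
    have m2 := hmono j' hj'
    by_cases ha : w z j ∈ N
    · by_cases hb : w z' j' ∈ N
      · rw [hν, hν, if_pos ha, if_pos hb] at h
        have ka := K.d_le _ ha
        have kb := K.d_le _ hb
        obtain ⟨c1, c2, c3⟩ := same_large hN K K3 _ _ ha rfl (by omega)
        obtain ⟨d1, d2, d3⟩ := same_large hN K K3 _ _ hb rfl (by omega)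
        rw [h] at c1 c2 c3
        refine ⟨?_, ?_⟩
        · rw [← a2, ← b2, ← c1, ← d1]
        · exact le_antisymm (hfin _ _ (by omega)) (hfin _ _ (by omega))
      · rw [hν, hν, if_pos ha, if_neg hb] at h
        exact absurd (h ▸ K.ctr_mem _ ha) hb
    · by_cases hb : w z' j' ∈ N
      · rw [hν, hν, if_neg ha, if_pos hb] at h
        exact absurd (h.symm ▸ K.ctr_mem _ hb) ha
      · rw [hν, hν, if_neg ha, if_neg hb] at h
        refine ⟨?_, ?_⟩
        · rw [← a2, ← b2, h]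
        · have : 10 * ρ * j = 10 * ρ * j' := by rw [← a3, ← b3, h]
          exact le_antisymm (hfin _ _ (by omega)) (hfin _ _ (by omega))
  have hcard : (hfinB.toFinset ×ˢ Finset.range 180).card ≤
      ((Set.toFinite (K.Ctr ∪ {g | g ∉ N ∧ g ∈ N3})).toFinset).card := by
    refine Finset.card_le_card_of_injOn (fun q => ν (w q.1 q.2)) ?_ ?_
    · rintro ⟨z, j⟩ hq
      rw [Finset.mem_coe, Finset.mem_product, Set.Finite.mem_toFinset, Finset.mem_range] at hq
      rw [Finset.mem_coe, Set.Finite.mem_toFinset]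
      obtain ⟨a1, a2, a3⟩ := hw z j hq.1 hq.2
      show ν (w z j) ∈ _
      rw [hν]
      by_cases ha : w z j ∈ N
      · rw [if_pos ha]
        exact Or.inl ⟨K.ctr_mem _ ha, K.ctr_ctr _ ha⟩
      · rw [if_neg ha]
        exact Or.inr ⟨ha, a1⟩
    · rintro ⟨z, j⟩ hq ⟨z', j'⟩ hq' h
      rw [Finset.mem_coe, Finset.mem_product, Set.Finite.mem_toFinset, Finset.mem_range] at hq hq'
      obtain ⟨h1, h2⟩ := hkey z hq.1 j hq.2 z' hq'.1 j' hq'.2 h
      rw [h1, h2]
  rw [Finset.card_product, Finset.card_range, ← Set.ncard_eq_toFinset_card,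
    ← Set.ncard_eq_toFinset_card] at hcard
  have := Set.ncard_union_le K.Ctr {g | g ∉ N ∧ g ∈ N3}
  omega

omit [Finite V] in
/-- two vertices of one cluster are joined by a short walk -/
theorem clus_walk {N3 : Set V} {ρ3 : ℕ} (K3 : Clus Hs N3 ρ3) {x y : V} (hx : x ∈ N3) (hy : y ∈ N3)
    (h : K3.ctr x = K3.ctr y) : ∃ p : Hs.Walk x y, p.length ≤ 4 * ρ3 := by
  obtain ⟨p, hp, -, -⟩ := clus_path K3 x hx
  obtain ⟨q, hq, -, -⟩ := clus_path K3 y hy
  refine ⟨(p.reverse).append (q.copy h.symm rfl), ?_⟩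
  rw [SimpleGraph.Walk.length_append, SimpleGraph.Walk.length_reverse,
    SimpleGraph.Walk.length_copy, hp, hq]
  have := K3.d_le x hx
  have := K3.d_le y hy
  omega

/-- long edges -/
def Lng (H Hs : SimpleGraph V) (e' : Sym2 V) (x y : V) : Prop :=
  H.Adj x y ∧ ¬ Hs.Adj x y ∧ s(x, y) ≠ e'

/-- no long edge on a short cycle -/
def NoLong (H Hs : SimpleGraph V) (e' : Sym2 V) (q : ℕ) : Prop :=
  ∀ x y, Lng H Hs e' x y → ∀ p : H.Walk x y, s(x, y) ∉ p.edges → q < p.length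

omit [Finite V] in
theorem Lng.symm {e' : Sym2 V} {x y : V} (h : Lng H Hs e' x y) : Lng H Hs e' y x :=
  ⟨h.1.symm, fun h1 => h.2.1 h1.symm, by rw [Sym2.eq_swap]; exact h.2.2⟩

/-- the graph of the large clusters and the long edges -/
def supG (H Hs : SimpleGraph V) (e' : Sym2 V) (c : V → V) : SimpleGraph V where
  Adj a b := a ≠ b ∧ ∃ x y, Lng H Hs e' x y ∧ c x = a ∧ c y = b
  symm := ⟨fun _ _ h => ⟨h.1.symm, by
    obtain ⟨x, y, h1, h2, h3⟩ := h.2
    exact ⟨y, x, h1.symm, h3, h2⟩⟩⟩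
  loopless := ⟨fun _ h => h.1 rfl⟩

theorem sup_lift {e' : Sym2 V} {ρ3 : ℕ} (hle : Hs ≤ H) (K3 : Clus Hs {v | deg H v ≠ 0} ρ3)
    {a b : V} (W : (supG H Hs e' K3.ctr).Walk a b) : ∀ x y, deg H x ≠ 0 → deg H y ≠ 0 →
    K3.ctr x = a → K3.ctr y = b → ∃ P : H.Walk x y,
      P.length ≤ W.length * (4 * ρ3 + 1) + 4 * ρ3 ∧ ∀ f ∈ P.edges, f ∈ Hs.edgeSet ∨
        ∃ x' y', Lng H Hs e' x' y' ∧ f = s(x', y') ∧ s(K3.ctr x', K3.ctr y') ∈ W.edges := by
  induction W with
  | nil =>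
    intro x y hx hy hxa hyb
    obtain ⟨p, hp⟩ := clus_walk K3 hx hy (hxa.trans hyb.symm)
    refine ⟨p.mapLe hle, ?_, ?_⟩
    · rw [SimpleGraph.Walk.length_map]
      simpa using hp
    · intro f hf
      rw [SimpleGraph.Walk.edges_mapLe_eq_edges] at hf
      exact Or.inl (SimpleGraph.Walk.edges_subset_edgeSet _ hf)
  | @cons a c b h W ih =>
    intro x y hx hy hxa hyb
    obtain ⟨-, x1, y1, h1, h2, h3⟩ := h
    obtain ⟨p, hp⟩ := clus_walk K3 hx (deg_pos h1.1) (hxa.trans h2.symm)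
    obtain ⟨P, hP, hPe⟩ := ih y1 y (deg_pos h1.1.symm) hy h3 hyb
    refine ⟨(p.mapLe hle).append (SimpleGraph.Walk.cons h1.1 P), ?_, ?_⟩
    · rw [SimpleGraph.Walk.length_append, SimpleGraph.Walk.length_map,
        SimpleGraph.Walk.length_cons, SimpleGraph.Walk.length_cons]
      have e : (W.length + 1) * (4 * ρ3 + 1) = W.length * (4 * ρ3 + 1) + (4 * ρ3 + 1) := by ring
      omega
    · intro f hf
      rw [SimpleGraph.Walk.edges_append, List.mem_append, SimpleGraph.Walk.edges_mapLe_eq_edges,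
        SimpleGraph.Walk.edges_cons, List.mem_cons] at hf
      rw [SimpleGraph.Walk.edges_cons]
      rcases hf with hf | rfl | hf
      · exact Or.inl (SimpleGraph.Walk.edges_subset_edgeSet _ hf)
      · exact Or.inr ⟨x1, y1, h1, rfl, by rw [h2, h3]; exact List.mem_cons_self⟩
      · rcases hPe f hf with h4 | ⟨x', y', h4, h5, h6⟩
        · exact Or.inl h4
        · exact Or.inr ⟨x', y', h4, h5, List.mem_cons_of_mem _ h6⟩

/-- the number of long darts -/
theorem long_few {e' : Sym2 V} {ρ3 t : ℕ} (hle : Hs ≤ H) (K3 : Clus Hs {v | deg H v ≠ 0} ρ3)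
    (ht : 10 ^ t * Nat.card V < 11 ^ t) (hno : NoLong H Hs e' ((8 * t + 2) * (4 * ρ3 + 1)))
    (hne : K3.Ctr.Nonempty) :
    5 * {e : V × V | Lng H Hs e' e.1 e.2}.ncard + 10 ≤ 11 * K3.Ctr.ncard := by
  classical
  set Γ := supG H Hs e' K3.ctr with hΓ
  have hq : 8 * ρ3 + 1 ≤ (8 * t + 2) * (4 * ρ3 + 1) := by nlinarith
  have hin : ∀ x y, Lng H Hs e' x y → K3.ctr x ≠ K3.ctr y := by
    intro x y h hc
    obtain ⟨p, hp⟩ := clus_walk K3 (deg_pos h.1) (deg_pos h.1.symm) hc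
    have := hno x y h (p.mapLe hle) (by
      rw [SimpleGraph.Walk.edges_mapLe_eq_edges]
      intro hf
      exact h.2.1 (SimpleGraph.Walk.edges_subset_edgeSet _ hf))
    rw [SimpleGraph.Walk.length_map] at this
    omega
  have hinj : ∀ x y x' y', Lng H Hs e' x y → Lng H Hs e' x' y' → K3.ctr x = K3.ctr x' →
      K3.ctr y = K3.ctr y' → (x, y) = (x', y') := by
    intro x y x' y' h h' hx hy
    by_contra hne'
    obtain ⟨p, hp⟩ := clus_walk K3 (deg_pos h.1) (deg_pos h'.1) hx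
    obtain ⟨p', hp'⟩ := clus_walk K3 (deg_pos h'.1.symm) (deg_pos h.1.symm) hy.symm
    have := hno x y h ((p.mapLe hle).append (SimpleGraph.Walk.cons h'.1 (p'.mapLe hle))) (by
      rw [SimpleGraph.Walk.edges_append, List.mem_append, SimpleGraph.Walk.edges_mapLe_eq_edges,
        SimpleGraph.Walk.edges_cons, List.mem_cons, SimpleGraph.Walk.edges_mapLe_eq_edges]
      rintro (hf | hf | hf)
      · exact h.2.1 (SimpleGraph.Walk.edges_subset_edgeSet _ hf)
      · rcases Sym2.eq_iff.1 hf with ⟨h1, h2⟩ | ⟨h1, h2⟩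
        · exact hne' (by rw [h1, h2])
        · apply hin x y h
          rw [hy, ← h1]
      · exact h.2.1 (SimpleGraph.Walk.edges_subset_edgeSet _ hf))
    rw [SimpleGraph.Walk.length_append, SimpleGraph.Walk.length_map,
      SimpleGraph.Walk.length_cons, SimpleGraph.Walk.length_map] at this
    omega
  have hcyc : ∀ (u : V) (Z : Γ.Walk u u), Z.IsCycle → 8 * t + 2 < Z.length := by
    intro u Z hZ
    by_contra hlt
    push Not at hlt
    cases Z with
    | nil => exact absurd rfl hZ.ne_nil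
    | @cons _ b _ h W =>
      rw [SimpleGraph.Walk.cons_isCycle_iff] at hZ
      obtain ⟨hne', x, y, h1, h2, h3⟩ := h
      obtain ⟨P, hP, hPe⟩ := sup_lift hle K3 W y x (deg_pos h1.1.symm) (deg_pos h1.1) h3 h2
      have h4 := hno y x h1.symm P (by
        intro hf
        rcases hPe _ hf with h5 | ⟨x', y', h5, h6, h7⟩
        · exact h1.2.1 (h5 : Hs.Adj y x).symm
        · apply hZ.2
          have h8 : s(u, b) = s(K3.ctr x', K3.ctr y') := by
            rw [← h2, ← h3]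
            rcases Sym2.eq_iff.1 h6 with ⟨h9, h10⟩ | ⟨h9, h10⟩
            · rw [h9, h10, Sym2.eq_swap]
            · rw [h9, h10]
          rw [h8]
          exact h7)
      rw [SimpleGraph.Walk.length_cons] at hlt
      have h5 : (W.length + 1) * (4 * ρ3 + 1) ≤ (8 * t + 2) * (4 * ρ3 + 1) :=
        Nat.mul_le_mul_right _ hlt
      have h6 : (W.length + 1) * (4 * ρ3 + 1) = W.length * (4 * ρ3 + 1) + (4 * ρ3 + 1) := by ring
      omega
  have hg := girth_bound t ht _ Γ K3.Ctr rfl (by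
    rintro a b ⟨-, x, y, h1, h2, -⟩
    rw [← h2]
    exact ⟨K3.ctr_mem _ (deg_pos h1.1), K3.ctr_ctr _ (deg_pos h1.1)⟩) hcyc hne
  have hd : {e : V × V | Lng H Hs e' e.1 e.2}.ncard ≤ 2 * Γ.edgeSet.ncard := by
    have h1 : {e : V × V | Γ.Adj e.1 e.2}.ncard = 2 * Γ.edgeSet.ncard := by
      have := Fintype.ofFinite V
      have h1 := Γ.dart_card_eq_twice_card_edges
      have h2 : Γ.edgeFinset.card = Γ.edgeSet.ncard := by
        rw [← Set.ncard_coe_finset, SimpleGraph.coe_edgeFinset]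
      rw [← h2, ← h1, ← Nat.card_eq_fintype_card, ← Nat.card_coe_set_eq]
      exact Nat.card_congr
        { toFun := fun e => ⟨e.1, e.2⟩
          invFun := fun d => ⟨d.toProd, d.adj⟩
          left_inv := fun _ => rfl
          right_inv := fun _ => rfl }
    rw [← h1]
    refine Set.ncard_le_ncard_of_injOn (fun e : V × V => (K3.ctr e.1, K3.ctr e.2)) ?_ ?_
      (Set.toFinite _)
    · rintro ⟨x, y⟩ h
      exact ⟨hin x y h, x, y, h, rfl, rfl⟩
    · rintro ⟨x, y⟩ h ⟨x', y'⟩ h' heq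
      obtain ⟨h1, h2⟩ := Prod.mk.injEq _ _ _ _ ▸ heq
      exact hinj x y x' y' h h' h1 h2
  omega

end Sup

end Pool.Agent.Helper71.QU
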